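import Pool.Agent.L0h56.ST.Slab
import Pool.Agent.L0h56.SL.HP
import Pool.Agent.L0h56.SL.Two
import Pool.Agent.L0h56.SL.CV

/-!
The slab inequality, unconditionally.
-/

set_option autoImplicit false

namespace Pool.Agent.L0h56.ST

theorem slab_all : Pool.Agent.L0h56.ST.StSlab := M.stSlab SL.stHP SL.stTwo SL.stCV

theorem env_all : Pool.Agent.L0h56.ST.StEnv := M.stEnv

end Pool.Agent.L0h56.ST
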