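import Pool.Agent.L0h56.ST.BgkB

/-!
Generalised eigenfunction expansion and countability of eigenvalues for `HK` (adapted from the lattice
version, team LO).
-/

set_option autoImplicit false
set_option linter.unusedSectionVars false
set_option linter.unusedVariables false

open scoped BigOperators ENNReal
open MeasureTheory Pool.Agent.L0h56.SL

namespace Pool.Agent.L0h56.ST

namespace BgkA

variable {X : Type} [DecidableEq X]

private theorem ne_of_im {z : ℂ} (hz : z.im ≠ 0) (E : ℝ) : (E : ℂ) - z ≠ 0 := by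
  intro h
  apply hz
  have := congrArg Complex.im h
  simpa using this

private theorem meas_res (z : ℂ) : Measurable fun E : ℝ => ((E : ℂ) - z)⁻¹ := by fun_prop

private theorem norm_res_le {z : ℂ} (hz : z.im ≠ 0) (E : ℝ) : ‖((E : ℂ) - z)⁻¹‖ ≤ |z.im|⁻¹ := by
  rw [norm_inv]
  apply inv_anti₀ (abs_pos.2 hz)
  have h := Complex.abs_im_le_norm ((E : ℂ) - z)
  simpa using h

private theorem int_mul_res (μ : Measure ℝ) {z : ℂ} (hz : z.im ≠ 0) {f : ℝ → ℂ}
    (hf : Integrable f μ) : Integrable (fun E => f E * ((E : ℂ) - z)⁻¹) μ := by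
  apply hf.mul_bdd (c := |z.im|⁻¹) (meas_res z).aestronglyMeasurable
  exact Filter.Eventually.of_forall fun E => norm_res_le hz E

/-- generalised eigenfunction expansion -/
theorem bgk [Countable X] {K : X → X → ℝ} {nb : X → Finset X} {D : ℝ} (hy : Hyp K nb D)
    (W w : X → ℝ) (hw0 : ∀ x, 0 < w x) (hws : Summable w) (g : X → ℂ) (hg : SqS g)
    (μ : Measure ℝ) (hμ : IsSpec (HK K nb W) g μ) :
    ∀ᵐ (E : ℝ) ∂μ, ∃ φ : X → ℂ, φ ≠ 0 ∧ (∃ C : ℝ, ∀ x, ‖φ x‖ ^ 2 * w x ≤ C) ∧
      ∀ x, HK K nb W φ x = (E : ℂ) * φ x := by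
  obtain ⟨φ, hmeas, hL2, hle, hres, hg0, hA⟩ := rep hy W g hg μ hμ
  obtain ⟨hfin, hsp⟩ := hμ
  have := hfin
  have hint : ∀ x, Integrable (φ x) μ := fun x => (hL2 x).integrable (by norm_num)
  -- nonzero
  have hnz : ∀ᵐ E ∂μ, ¬ ∀ x, φ x E = 0 := by
    rw [ae_iff]
    simp only [not_not]
    apply hA
    · have : {E : ℝ | ∀ x, φ x E = 0} = ⋂ x, φ x ⁻¹' {0} := by
        ext E; simp
      rw [this]
      exact MeasurableSet.iInter fun x => (hmeas x) (measurableSet_singleton 0)
    · intro x E hE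
      exact hE x
  -- growth
  have hgr : ∀ᵐ E ∂μ, ∑' x, ENNReal.ofReal (w x) * ‖φ x E‖ₑ ^ 2 < ⊤ := by
    apply ae_lt_top
    · apply Measurable.tsum
      intro x
      exact ((hmeas x).enorm.pow_const 2).const_mul _
    · rw [lintegral_tsum]
      · have h1 : ∀ x, ∫⁻ E, ENNReal.ofReal (w x) * ‖φ x E‖ₑ ^ 2 ∂μ ≤ ENNReal.ofReal (w x) := by
          intro x
          rw [lintegral_const_mul _ ((hmeas x).enorm.pow_const 2)]
          have h2 : ∫⁻ E, ‖φ x E‖ₑ ^ 2 ∂μ ≤ 1 := by
            have h3 : ∫⁻ E, ‖φ x E‖ₑ ^ 2 ∂μ = ENNReal.ofReal (∫ E, ‖φ x E‖ ^ 2 ∂μ) := by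
              rw [ofReal_integral_eq_lintegral_ofReal]
              · apply lintegral_congr
                intro E
                rw [← ofReal_norm, ENNReal.ofReal_pow (norm_nonneg _)]
              · exact (hL2 x).integrable_norm_pow (by norm_num)
              · exact Filter.Eventually.of_forall fun E => by positivity
            rw [h3]
            rw [← ENNReal.ofReal_one]
            exact ENNReal.ofReal_le_ofReal (hle x)
          calc ENNReal.ofReal (w x) * ∫⁻ E, ‖φ x E‖ₑ ^ 2 ∂μ ≤ ENNReal.ofReal (w x) * 1 := by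
                gcongr
            _ = ENNReal.ofReal (w x) := mul_one _
        have h4 : ∑' x, ∫⁻ E, ENNReal.ofReal (w x) * ‖φ x E‖ₑ ^ 2 ∂μ ≤
            ∑' x : X, ENNReal.ofReal (w x) := ENNReal.tsum_le_tsum h1
        have h5 : ∑' x : X, ENNReal.ofReal (w x) ≠ ⊤ := by
          rw [← ENNReal.ofReal_tsum_of_nonneg (fun x => (hw0 x).le) hws]
          exact ENNReal.ofReal_ne_top
        exact ne_top_of_le_ne_top h5 h4
      · intro x
        exact (((hmeas x).enorm.pow_const 2).const_mul _).aemeasurable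
  -- eigenvalue equation
  have heq : ∀ x, ∀ᵐ E ∂μ, HK K nb W (fun y => φ y E) x = (E : ℂ) * φ x E := by
    intro x
    have hHint : Integrable (fun E => HK K nb W (fun y => φ y E) x) μ := by
      unfold HK
      apply Integrable.add
      · apply integrable_finsetSum
        intro i _
        exact (hint _).const_mul _
      · exact (hint x).const_mul _
    have hGint : ∀ z : ℂ, z.im ≠ 0 → Integrable (fun E : ℝ =>
        HK K nb W (fun y => φ y E) x * ((E : ℂ) - z)⁻¹ -
          (φ x E + z * (φ x E * ((E : ℂ) - z)⁻¹))) μ := by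
      intro z hz
      exact (int_mul_res μ hz hHint).sub ((hint x).add ((int_mul_res μ hz (hint x)).const_mul z))
    have hG0 : ∀ z : ℂ, z.im ≠ 0 → ∫ E : ℝ,
        (HK K nb W (fun y => φ y E) x * ((E : ℂ) - z)⁻¹ -
          (φ x E + z * (φ x E * ((E : ℂ) - z)⁻¹))) ∂μ = 0 := by
      intro z hz
      obtain ⟨u, hu, hue, -⟩ := hsp z hz
      have hux := hres z hz u hu hue
      have i1 : Integrable (fun E : ℝ => φ x E + z * (φ x E * ((E : ℂ) - z)⁻¹)) μ :=
        (hint x).add ((int_mul_res μ hz (hint x)).const_mul z)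
      rw [integral_sub (int_mul_res μ hz hHint) i1,
        integral_add (hint x) ((int_mul_res μ hz (hint x)).const_mul z), integral_const_mul,
        ← hux x, ← hg0 x]
      have hH : ∫ E : ℝ, HK K nb W (fun y => φ y E) x * ((E : ℂ) - z)⁻¹ ∂μ = HK K nb W u x := by
        have h1 : ∀ E : ℝ, HK K nb W (fun y => φ y E) x * ((E : ℂ) - z)⁻¹ =
            ∑ y ∈ nb x, (K x y : ℂ) * (φ y E * ((E : ℂ) - z)⁻¹) +
              (W x : ℂ) * (φ x E * ((E : ℂ) - z)⁻¹) := by
          intro E
          unfold HK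
          rw [add_mul, Finset.sum_mul, mul_assoc]
          congr 1
          apply Finset.sum_congr rfl
          intro i _
          ring
        simp_rw [h1]
        rw [integral_add, integral_const_mul, integral_finsetSum]
        · unfold HK
          rw [← hux x]
          congr 1
          apply Finset.sum_congr rfl
          intro i _
          rw [integral_const_mul, ← hux]
        · intro i _
          exact (int_mul_res μ hz (hint _)).const_mul _
        · apply integrable_finsetSum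
          intro i _
          exact (int_mul_res μ hz (hint _)).const_mul _
        · exact (int_mul_res μ hz (hint x)).const_mul _
      rw [hH]
      have := hue x
      linear_combination this
    have hi : ((2 : ℂ) * Complex.I).im ≠ 0 := by simp
    -- the integrable function
    have hkey : ∀ᵐ E ∂μ, (HK K nb W (fun y => φ y E) x * ((E : ℂ) - 2 * Complex.I)⁻¹ -
          (φ x E + (2 * Complex.I) * (φ x E * ((E : ℂ) - 2 * Complex.I)⁻¹))) = 0 := by
      apply Pool.Agent.H4R2.LO.Bden.dens μ _ (hGint _ hi)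
      intro z hz hz1
      have hzi : z - 2 * Complex.I ≠ 0 := by
        intro h
        have h1 : z = 2 * Complex.I := sub_eq_zero.1 h
        rw [h1] at hz1
        norm_num at hz1
      have halg : ∀ E : ℝ, (HK K nb W (fun y => φ y E) x * ((E : ℂ) - 2 * Complex.I)⁻¹ -
          (φ x E + (2 * Complex.I) * (φ x E * ((E : ℂ) - 2 * Complex.I)⁻¹))) * ((E : ℂ) - z)⁻¹ =
          (z - 2 * Complex.I)⁻¹ * ((HK K nb W (fun y => φ y E) x * ((E : ℂ) - z)⁻¹ -
          (φ x E + z * (φ x E * ((E : ℂ) - z)⁻¹))) -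
          (HK K nb W (fun y => φ y E) x * ((E : ℂ) - 2 * Complex.I)⁻¹ -
          (φ x E + (2 * Complex.I) * (φ x E * ((E : ℂ) - 2 * Complex.I)⁻¹)))) := by
        intro E
        have e1 := ne_of_im hz E
        have e2 := ne_of_im hi E
        field_simp
        ring
      simp_rw [halg]
      rw [integral_const_mul, integral_sub (hGint z hz) (hGint _ hi), hG0 z hz, hG0 _ hi]
      simp
    filter_upwards [hkey] with E hE
    have e2 := ne_of_im hi E
    have h3 : (HK K nb W (fun y => φ y E) x - (E : ℂ) * φ x E) * ((E : ℂ) - 2 * Complex.I)⁻¹ = 0 := by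
      rw [← hE]
      field_simp
      ring
    rcases mul_eq_zero.1 h3 with h4 | h4
    · exact sub_eq_zero.1 h4
    · exact absurd (inv_eq_zero.1 h4) e2
  have heq' : ∀ᵐ E ∂μ, ∀ x, HK K nb W (fun y => φ y E) x = (E : ℂ) * φ x E := ae_all_iff.2 heq
  filter_upwards [hnz, hgr, heq'] with E h1 h2 h3
  refine ⟨fun x => φ x E, ?_, ?_, h3⟩
  · intro h
    apply h1
    intro x
    exact congrFun h x
  · set Q : ℝ≥0∞ := ∑' x, ENNReal.ofReal (w x) * ‖φ x E‖ₑ ^ 2 with hQ
    refine ⟨Q.toReal, ?_⟩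
    intro x
    have h4 : ENNReal.ofReal (w x) * ‖φ x E‖ₑ ^ 2 ≤ Q := ENNReal.le_tsum x
    have h6 : ENNReal.ofReal (w x * ‖φ x E‖ ^ 2) ≤ Q := by
      rw [ENNReal.ofReal_mul (hw0 x).le, ENNReal.ofReal_pow (norm_nonneg _),
        ofReal_norm]
      exact h4
    rw [mul_comm]
    exact (ENNReal.ofReal_le_iff_le_toReal h2.ne).1 h6

/-- eigenvalues are countable -/
theorem cnt [Countable X] {K : X → X → ℝ} {nb : X → Finset X} {D : ℝ} (hy : Hyp K nb D)
    (W : X → ℝ) : {E : ℝ | ∃ φ : X → ℂ, φ ≠ 0 ∧ SqS φ ∧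
      ∀ x, HK K nb W φ x = (E : ℂ) * φ x}.Countable := by
  set S : Set ℝ := {E : ℝ | ∃ φ : X → ℂ, φ ≠ 0 ∧ SqS φ ∧
    ∀ x, HK K nb W φ x = (E : ℂ) * φ x} with hS
  choose φ hφ using fun E : S => E.2
  have hmem : ∀ E : S, Memℓp (φ E) 2 := by
    intro E
    rw [memℓp_gen_iff (by norm_num)]
    simpa [SqS] using (hφ E).2.1
  let v : S → lp (fun _ : X => ℂ) 2 := fun E => ⟨φ E, hmem E⟩
  have hv0 : ∀ E, v E ≠ 0 := by
    intro E h
    apply (hφ E).1
    have := congrArg (fun f : lp (fun _ : X => ℂ) 2 => (f : X → ℂ)) h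
    exact this
  have horth : ∀ E E' : S, E ≠ E' → inner ℂ (v E) (v E') = 0 := by
    intro E E' hne
    have h0 : SqS (fun _ : X => (0 : ℂ)) := by
      simp [SqS, summable_zero]
    have h := symm hy W (φ E) (φ E') (fun _ => 0) (fun _ => 0) (E.1 : ℂ) (E'.1 : ℂ)
      (hφ E).2.1 (hφ E').2.1 h0 h0 (fun x => by rw [(hφ E).2.2 x, sub_self])
      (fun x => by rw [(hφ E').2.2 x, sub_self])
    simp only [mul_zero, tsum_zero, sub_zero, map_zero, zero_mul, Complex.conj_ofReal] at h
    rw [lp.inner_eq_tsum]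
    rcases mul_eq_zero.1 h with h1 | h1
    · exfalso
      apply hne
      apply Subtype.ext
      exact_mod_cast sub_eq_zero.1 h1
    · rw [← h1]
      apply tsum_congr
      intro x
      change inner ℂ (φ E x) (φ E' x) = _
      rw [RCLike.inner_apply, mul_comm]
  let e : S → lp (fun _ : X => ℂ) 2 := fun E => ((‖v E‖⁻¹ : ℝ) : ℂ) • v E
  have hon : Orthonormal ℂ e := by
    constructor
    · intro E
      change ‖((‖v E‖⁻¹ : ℝ) : ℂ) • v E‖ = 1
      rw [norm_smul]
      have : ‖((‖v E‖⁻¹ : ℝ) : ℂ)‖ = ‖v E‖⁻¹ := by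
        rw [Complex.norm_real, norm_inv, norm_norm]
      rw [this]
      exact inv_mul_cancel₀ (norm_ne_zero_iff.2 (hv0 E))
    · intro E E' hne
      change inner ℂ (((‖v E‖⁻¹ : ℝ) : ℂ) • v E) (((‖v E'‖⁻¹ : ℝ) : ℂ) • v E') = 0
      rw [inner_smul_left, inner_smul_right, horth E E' hne, mul_zero, mul_zero]
  have hcount : ∀ x : X, {E : S | φ E x ≠ 0}.Countable := by
    intro x
    have hs := hon.inner_products_summable (lp.single 2 x (1 : ℂ))
    have hc := hs.countable_support
    refine hc.mono ?_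
    intro E hE
    simp only [Function.mem_support]
    have h1 : inner ℂ (e E) (lp.single 2 x (1 : ℂ)) ≠ 0 := by
      change inner ℂ (((‖v E‖⁻¹ : ℝ) : ℂ) • v E) (lp.single 2 x (1 : ℂ)) ≠ 0
      rw [inner_smul_left, lp.inner_single_right]
      have hx : (v E : X → ℂ) x = φ E x := rfl
      rw [hx, RCLike.inner_apply]
      have h2 : ((‖v E‖⁻¹ : ℝ) : ℂ) ≠ 0 := by
        exact_mod_cast inv_ne_zero (norm_ne_zero_iff.2 (hv0 E))
      have h3 : (starRingEnd ℂ) (φ E x) ≠ 0 := by
        simpa using hE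
      have h4 : (starRingEnd ℂ) ((‖v E‖⁻¹ : ℝ) : ℂ) ≠ 0 := by
        rw [Complex.conj_ofReal]; exact h2
      exact mul_ne_zero h4 (mul_ne_zero one_ne_zero h3)
    exact pow_ne_zero 2 (norm_ne_zero_iff.2 h1)
  have hall : (Set.univ : Set S) = ⋃ x : X, {E : S | φ E x ≠ 0} := by
    symm
    rw [Set.eq_univ_iff_forall]
    intro E
    rw [Set.mem_iUnion]
    by_contra hcon
    push Not at hcon
    apply (hφ E).1
    ext x
    have := hcon x
    simpa using this
  have huniv : (Set.univ : Set S).Countable := by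
    rw [hall]
    exact Set.countable_iUnion hcount
  have := Set.countable_univ_iff.1 huniv
  exact Set.countable_coe_iff.1 this

end BgkA

/-- **M7.** -/
theorem stBgk : StBgk := by
  intro X _ _ K nb hK hnb D hD v w hw0 hws
  have hy : BgkA.Hyp K nb (max D 0) :=
    ⟨hK, hnb, le_max_right D 0, fun x => (hD x).trans (le_max_left _ _)⟩
  exact ⟨BgkA.cnt hy v, fun g hg m hm => BgkA.bgk hy v w hw0 hws g hg m hm⟩

end Pool.Agent.L0h56.ST
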