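import Pool.Agent.L0h56.ST.Def

/-!
Symmetry facts for the operators `HK` (adapted from the lattice version, team LO).
-/

set_option autoImplicit false
set_option linter.unusedSectionVars false
set_option linter.unusedVariables false

open scoped BigOperators ENNReal Topology
open MeasureTheory Filter Pool.Agent.L0h56.SL

namespace Pool.Agent.L0h56.ST

namespace BgkA

variable {X : Type} [DecidableEq X]

/-! ### square summable functions -/

theorem bs_add {u v : X → ℂ} (hu : SqS u) (hv : SqS v) : SqS (fun x => u x + v x) := by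
  refine Summable.of_nonneg_of_le (fun x => by positivity) (fun x => ?_)
    ((hu.mul_left 2).add (hv.mul_left 2))
  have h1 : ‖u x + v x‖ ≤ ‖u x‖ + ‖v x‖ := norm_add_le _ _
  nlinarith [norm_nonneg (u x + v x), norm_nonneg (u x), norm_nonneg (v x),
    sq_nonneg (‖u x‖ - ‖v x‖)]

theorem bs_smul {u : X → ℂ} (c : ℂ) (hu : SqS u) : SqS (fun x => c * u x) := by
  unfold SqS
  simp only [norm_mul, mul_pow]
  exact hu.mul_left _

theorem bs_sub {u v : X → ℂ} (hu : SqS u) (hv : SqS v) : SqS (fun x => u x - v x) := by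
  have := bs_add hu (bs_smul (-1) hv)
  have e : (fun x => u x - v x) = (fun x => u x + -1 * v x) := by
    funext x
    rw [neg_one_mul, sub_eq_add_neg]
  rw [e]
  exact this

theorem bs_zero : SqS (fun _ : X => (0 : ℂ)) := by
  unfold SqS
  simp

theorem bs_sum {ι : Type} (s : Finset ι) (f : ι → X → ℂ) (h : ∀ i ∈ s, SqS (f i)) :
    SqS (fun x => ∑ i ∈ s, f i x) := by
  classical
  induction s using Finset.induction_on with
  | empty => simpa using bs_zero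
  | insert a s ha ih =>
    simp only [Finset.sum_insert ha]
    exact bs_add (h a (Finset.mem_insert_self a s))
      (ih fun i hi => h i (Finset.mem_insert_of_mem hi))

/-- the hypotheses on the kernel -/
structure Hyp (K : X → X → ℝ) (nb : X → Finset X) (D : ℝ) : Prop where
  symm : ∀ x y, K x y = K y x
  mem : ∀ x y, K x y ≠ 0 → y ∈ nb x
  pos : 0 ≤ D
  le : ∀ x, ∑ y ∈ nb x, |K x y| ≤ D

theorem bs_nb {K : X → X → ℝ} {nb : X → Finset X} {D : ℝ} (hy : Hyp K nb D) {u : X → ℂ}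
    (hu : SqS u) : SqS (fun x => ∑ y ∈ nb x, (K x y : ℂ) * u y) := by
  refine summable_of_sum_le (c := D ^ 2 * ∑' y, ‖u y‖ ^ 2) (fun _ => sq_nonneg _) fun S => ?_
  have h1 : ∀ x ∈ S, ‖∑ y ∈ nb x, (K x y : ℂ) * u y‖ ^ 2 ≤
      D * ∑ y ∈ S.biUnion nb, |K x y| * ‖u y‖ ^ 2 := by
    intro x hx
    have h2 : ‖∑ y ∈ nb x, (K x y : ℂ) * u y‖ ≤ ∑ y ∈ nb x, |K x y| * ‖u y‖ := by
      refine (norm_sum_le _ _).trans (Finset.sum_le_sum fun y _ => ?_)
      rw [norm_mul, Complex.norm_real, Real.norm_eq_abs]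
    have h3 : (∑ y ∈ nb x, |K x y| * ‖u y‖) ^ 2 ≤
        (∑ y ∈ nb x, |K x y|) * ∑ y ∈ nb x, |K x y| * ‖u y‖ ^ 2 :=
      Finset.sum_sq_le_sum_mul_sum_of_sq_le_mul _ (fun _ _ => abs_nonneg _)
        (fun _ _ => by positivity) (fun _ _ => le_of_eq (by ring))
    have h5 : ∑ y ∈ nb x, |K x y| * ‖u y‖ ^ 2 ≤ ∑ y ∈ S.biUnion nb, |K x y| * ‖u y‖ ^ 2 :=
      Finset.sum_le_sum_of_subset_of_nonneg (fun y hy' => Finset.mem_biUnion.2 ⟨x, hx, hy'⟩)
        fun _ _ _ => by positivity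
    calc ‖∑ y ∈ nb x, (K x y : ℂ) * u y‖ ^ 2 ≤ (∑ y ∈ nb x, |K x y| * ‖u y‖) ^ 2 :=
          pow_le_pow_left₀ (norm_nonneg _) h2 2
      _ ≤ _ := h3
      _ ≤ _ := mul_le_mul (hy.le x) h5 (Finset.sum_nonneg fun _ _ => by positivity) hy.pos
  have hrow : ∀ y : X, ∑ x ∈ S, |K y x| ≤ D := by
    intro y
    refine le_trans ?_ (hy.le y)
    have h1 : ∑ x ∈ S, |K y x| = ∑ x ∈ S ∩ nb y, |K y x| := by
      symm
      refine Finset.sum_subset Finset.inter_subset_left fun x hx hx' => ?_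
      have : K y x = 0 := by
        by_contra h
        exact hx' (Finset.mem_inter.2 ⟨hx, hy.mem y x h⟩)
      rw [this]; simp
    rw [h1]
    exact Finset.sum_le_sum_of_subset_of_nonneg Finset.inter_subset_right
      fun _ _ _ => abs_nonneg _
  calc ∑ x ∈ S, ‖∑ y ∈ nb x, (K x y : ℂ) * u y‖ ^ 2
      ≤ ∑ x ∈ S, D * ∑ y ∈ S.biUnion nb, |K x y| * ‖u y‖ ^ 2 := Finset.sum_le_sum h1
    _ = D * ∑ y ∈ S.biUnion nb, (∑ x ∈ S, |K y x|) * ‖u y‖ ^ 2 := by
        rw [← Finset.mul_sum, Finset.sum_comm]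
        congr 1
        refine Finset.sum_congr rfl fun y _ => ?_
        rw [Finset.sum_mul]
        exact Finset.sum_congr rfl fun x _ => by rw [hy.symm x y]
    _ ≤ D * ∑ y ∈ S.biUnion nb, D * ‖u y‖ ^ 2 := by
        refine mul_le_mul_of_nonneg_left (Finset.sum_le_sum fun y _ => ?_) hy.pos
        exact mul_le_mul_of_nonneg_right (hrow y) (sq_nonneg _)
    _ = D ^ 2 * ∑ y ∈ S.biUnion nb, ‖u y‖ ^ 2 := by
        rw [← Finset.mul_sum]; ring
    _ ≤ _ := mul_le_mul_of_nonneg_left (hu.sum_le_tsum _ fun _ _ => sq_nonneg _) (sq_nonneg _)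

theorem bs_W {K : X → X → ℝ} {nb : X → Finset X} {D : ℝ} (hy : Hyp K nb D) {W : X → ℝ}
    {u g : X → ℂ} {z : ℂ} (hu : SqS u) (hg : SqS g)
    (e1 : ∀ x, HK K nb W u x - z * u x = g x) : SqS (fun x => (W x : ℂ) * u x) := by
  have h1 := bs_sub (bs_add hg (bs_smul z hu)) (bs_nb hy hu)
  have e : (fun x => (W x : ℂ) * u x) = (fun x => g x + z * u x -
      ∑ y ∈ nb x, (K x y : ℂ) * u y) := by
    funext x
    have := e1 x
    unfold HK at this
    rw [← this]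
    ring
  rw [e]
  exact h1

theorem bs_summ {u v : X → ℂ} (hu : SqS u) (hv : SqS v) :
    Summable (fun x => (starRingEnd ℂ) (u x) * v x) := by
  refine Summable.of_norm_bounded (g := fun x => (1 / 2) * ‖u x‖ ^ 2 + (1 / 2) * ‖v x‖ ^ 2)
    ((hu.mul_left _).add (hv.mul_left _)) fun x => ?_
  rw [norm_mul, RCLike.norm_conj]
  nlinarith [sq_nonneg (‖u x‖ - ‖v x‖)]

/-- a weighted arithmetic-geometric mean inequality -/
theorem bs_amgm {u v : X → ℂ} (hu : SqS u) (hv : SqS v) (s : ℝ) (hs : 0 < s) :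
    ‖∑' x, (starRingEnd ℂ) (u x) * v x‖ ≤
      (s * ∑' x, ‖u x‖ ^ 2 + s⁻¹ * ∑' x, ‖v x‖ ^ 2) / 2 := by
  have h1 : Summable (fun x => (s / 2) * ‖u x‖ ^ 2 + (s⁻¹ / 2) * ‖v x‖ ^ 2) :=
    (hu.mul_left _).add (hv.mul_left _)
  have h2 := tsum_of_norm_bounded (f := fun x => (starRingEnd ℂ) (u x) * v x) h1.hasSum
    fun x => by
      rw [norm_mul, RCLike.norm_conj]
      have h3 : 0 ≤ s⁻¹ * (s * ‖u x‖ - ‖v x‖) ^ 2 := by positivity
      have h4 : s⁻¹ * (s * ‖u x‖ - ‖v x‖) ^ 2 =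
          s * ‖u x‖ ^ 2 - 2 * (‖u x‖ * ‖v x‖) + s⁻¹ * ‖v x‖ ^ 2 := by
        field_simp
        ring
      rw [h4] at h3
      linarith
  refine h2.trans (le_of_eq ?_)
  rw [Summable.tsum_add (hu.mul_left _) (hv.mul_left _), tsum_mul_left, tsum_mul_left]
  ring

/-- the norm -/
theorem bs_self (u : X → ℂ) :
    ∑' x, (starRingEnd ℂ) (u x) * u x = ((∑' x, ‖u x‖ ^ 2 : ℝ) : ℂ) := by
  rw [Complex.ofReal_tsum]
  refine tsum_congr fun x => ?_
  rw [mul_comm, Complex.mul_conj, Complex.normSq_eq_norm_sq]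

theorem bs_conj (u v : X → ℂ) :
    (starRingEnd ℂ) (∑' x, (starRingEnd ℂ) (u x) * v x) =
      ∑' x, (starRingEnd ℂ) (v x) * u x := by
  rw [Complex.conj_tsum]
  refine tsum_congr fun x => ?_
  simp only [map_mul, Complex.conj_conj]
  ring

/-! ### symmetry -/

theorem bs_row {K : X → X → ℝ} {nb : X → Finset X} {D : ℝ} (hy : Hyp K nb D) (x : X)
    (F : X → ℂ) : ∑ y ∈ nb x, (K x y : ℂ) * F y = ∑' y, (K x y : ℂ) * F y := by
  symm
  refine tsum_eq_sum fun y hy' => ?_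
  have : K x y = 0 := by
    by_contra h
    exact hy' (hy.mem x y h)
  rw [this]; simp

theorem bs_absrow {K : X → X → ℝ} {nb : X → Finset X} {D : ℝ} (hy : Hyp K nb D) (x : X) (c : ℝ) :
    HasSum (fun y => |K x y| * c) ((∑ y ∈ nb x, |K x y|) * c) := by
  rw [Finset.sum_mul]
  refine hasSum_sum_of_ne_finset_zero fun y hy' => ?_
  have : K x y = 0 := by
    by_contra h
    exact hy' (hy.mem x y h)
  rw [this]; simp

theorem bs_prod {K : X → X → ℝ} {nb : X → Finset X} {D : ℝ} (hy : Hyp K nb D) {u : X → ℂ}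
    (hu : SqS u) : Summable fun p : X × X => |K p.1 p.2| * ‖u p.1‖ ^ 2 := by
  rw [summable_prod_of_nonneg (fun p => by positivity)]
  have h1 : ∀ x : X, Summable fun y : X => |K x y| * ‖u x‖ ^ 2 :=
    fun x => (bs_absrow hy x (‖u x‖ ^ 2)).summable
  have h0 : Summable fun x : X => D * ‖u x‖ ^ 2 := Summable.mul_left D hu
  have h2 : Summable fun x : X => ∑' y : X, |K x y| * ‖u x‖ ^ 2 := by
    refine Summable.of_nonneg_of_le (fun x => tsum_nonneg fun y => by positivity)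
      (fun x => ?_) h0
    rw [(bs_absrow hy x (‖u x‖ ^ 2)).tsum_eq]
    exact mul_le_mul_of_nonneg_right (hy.le x) (sq_nonneg _)
  exact ⟨h1, h2⟩

theorem bs_nb_symm {K : X → X → ℝ} {nb : X → Finset X} {D : ℝ} (hy : Hyp K nb D) {u w : X → ℂ}
    (hu : SqS u) (hw : SqS w) :
    ∑' x, (starRingEnd ℂ) (u x) * ∑ y ∈ nb x, (K x y : ℂ) * w y =
      ∑' x, (starRingEnd ℂ) (∑ y ∈ nb x, (K x y : ℂ) * u y) * w x := by
  have hs : Summable (Function.uncurry fun x y =>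
      (starRingEnd ℂ) (u x) * ((K x y : ℂ) * w y)) := by
    have h1 := bs_prod hy hu
    have h2 := (bs_prod hy hw).prod_symm
    refine Summable.of_norm_bounded (h1.add h2) fun p => ?_
    obtain ⟨x, y⟩ := p
    simp only [Function.uncurry_apply_pair, Prod.swap_prod_mk]
    rw [norm_mul, norm_mul, RCLike.norm_conj, Complex.norm_real, Real.norm_eq_abs, hy.symm y x]
    have h3 : 0 ≤ |K x y| := abs_nonneg _
    nlinarith [mul_nonneg h3 (sq_nonneg (‖u x‖ - ‖w y‖)), mul_nonneg h3 (sq_nonneg (‖u x‖)),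
      mul_nonneg h3 (sq_nonneg (‖w y‖))]
  have e1 : ∀ x, (starRingEnd ℂ) (u x) * ∑ y ∈ nb x, (K x y : ℂ) * w y =
      ∑' y, (starRingEnd ℂ) (u x) * ((K x y : ℂ) * w y) := by
    intro x
    rw [bs_row hy, tsum_mul_left]
  have e2 : ∀ x, (starRingEnd ℂ) (∑ y ∈ nb x, (K x y : ℂ) * u y) * w x =
      ∑' y, (starRingEnd ℂ) (u y) * ((K y x : ℂ) * w x) := by
    intro x
    rw [bs_row hy, Complex.conj_tsum, ← tsum_mul_right]
    refine tsum_congr fun y => ?_
    rw [hy.symm x y]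
    simp only [map_mul, Complex.conj_ofReal]
    ring
  simp_rw [e1, e2]
  exact hs.tsum_comm.symm

/-- symmetry of `H` on its maximal domain -/
theorem symm {K : X → X → ℝ} {nb : X → Finset X} {D : ℝ} (hy : Hyp K nb D) (W : X → ℝ) (u w g h : X → ℂ) (z z' : ℂ) (hu : SqS u)
    (hw : SqS w) (hg : SqS g) (hh : SqS h) (e1 : ∀ x, HK K nb W u x - z * u x = g x)
    (e2 : ∀ x, HK K nb W w x - z' * w x = h x) :
    ((starRingEnd ℂ) z - z') * ∑' x, (starRingEnd ℂ) (u x) * w x =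
      ∑' x, (starRingEnd ℂ) (u x) * h x - ∑' x, (starRingEnd ℂ) (g x) * w x := by
  have hWu := bs_W hy hu hg e1
  have hWw := bs_W hy hw hh e2
  -- `⟨u, h⟩`
  have k1 : ∑' x, (starRingEnd ℂ) (u x) * h x =
      (∑' x, (starRingEnd ℂ) (u x) * ∑ y ∈ nb x, (K x y : ℂ) * w y) +
      (∑' x, (starRingEnd ℂ) (u x) * ((W x : ℂ) * w x)) -
      z' * ∑' x, (starRingEnd ℂ) (u x) * w x := by
    rw [← tsum_mul_left,
      ← Summable.tsum_add (bs_summ hu (bs_nb hy hw)) (bs_summ hu hWw),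
      ← Summable.tsum_sub ((bs_summ hu (bs_nb hy hw)).add (bs_summ hu hWw))
        ((bs_summ hu hw).mul_left _)]
    refine tsum_congr fun x => ?_
    rw [← e2 x]
    unfold HK
    ring
  have k2 : ∑' x, (starRingEnd ℂ) (g x) * w x =
      (∑' x, (starRingEnd ℂ) (∑ y ∈ nb x, (K x y : ℂ) * u y) * w x) +
      (∑' x, (starRingEnd ℂ) ((W x : ℂ) * u x) * w x) -
      (starRingEnd ℂ) z * ∑' x, (starRingEnd ℂ) (u x) * w x := by
    rw [← tsum_mul_left,
      ← Summable.tsum_add (bs_summ (bs_nb hy hu) hw) (bs_summ hWu hw),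
      ← Summable.tsum_sub ((bs_summ (bs_nb hy hu) hw).add (bs_summ hWu hw))
        ((bs_summ hu hw).mul_left _)]
    refine tsum_congr fun x => ?_
    rw [← e1 x]
    unfold HK
    simp only [map_sub, map_add, map_mul, Complex.conj_ofReal]
    ring
  have k3 : ∑' x, (starRingEnd ℂ) (u x) * ((W x : ℂ) * w x) =
      ∑' x, (starRingEnd ℂ) ((W x : ℂ) * u x) * w x := by
    refine tsum_congr fun x => ?_
    simp only [map_mul, Complex.conj_ofReal]
    ring
  rw [k1, k2, k3, bs_nb_symm hy hu hw]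
  ring

theorem norm_le {K : X → X → ℝ} {nb : X → Finset X} {D : ℝ} (hy : Hyp K nb D) (W : X → ℝ) (u g : X → ℂ) (z : ℂ) (hz : z.im ≠ 0)
    (hu : SqS u) (hg : SqS g) (e1 : ∀ x, HK K nb W u x - z * u x = g x) :
    z.im ^ 2 * ∑' x, ‖u x‖ ^ 2 ≤ ∑' x, ‖g x‖ ^ 2 := by
  have h1 := symm hy W u u g g z z hu hu hg hg e1 e1
  obtain ⟨a, ha⟩ : ∃ a : ℝ, a = ∑' x, ‖u x‖ ^ 2 := ⟨_, rfl⟩
  obtain ⟨b, hb⟩ : ∃ b : ℝ, b = ∑' x, ‖g x‖ ^ 2 := ⟨_, rfl⟩
  have ha0 : 0 ≤ a := by rw [ha]; exact tsum_nonneg fun x => by positivity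
  have hs : 0 < |z.im| := abs_pos.mpr hz
  rw [bs_self u, ← ha] at h1
  have h2 : ‖((starRingEnd ℂ) z - z) * (a : ℂ)‖ = 2 * |z.im| * a := by
    have e : (starRingEnd ℂ) z - z = ((-(2 * z.im) : ℝ) : ℂ) * Complex.I := by
      apply Complex.ext <;> simp
      ring
    rw [norm_mul, e, norm_mul, Complex.norm_real, Complex.norm_real, Complex.norm_I,
      Real.norm_eq_abs, Real.norm_eq_abs, abs_neg, abs_mul, abs_of_nonneg ha0]
    norm_num
  have h3 := bs_amgm hu hg |z.im| hs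
  have h4 := bs_amgm hg hu |z.im|⁻¹ (inv_pos.mpr hs)
  rw [inv_inv] at h4
  rw [← ha, ← hb] at h3 h4
  have h5 : 2 * |z.im| * a ≤ |z.im| * a + |z.im|⁻¹ * b := by
    calc 2 * |z.im| * a = ‖((starRingEnd ℂ) z - z) * (a : ℂ)‖ := h2.symm
      _ = ‖∑' x, (starRingEnd ℂ) (u x) * g x - ∑' x, (starRingEnd ℂ) (g x) * u x‖ := by rw [h1]
      _ ≤ ‖∑' x, (starRingEnd ℂ) (u x) * g x‖ + ‖∑' x, (starRingEnd ℂ) (g x) * u x‖ :=
          norm_sub_le _ _
      _ ≤ _ := by linarith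
  have h6 : |z.im| * a ≤ |z.im|⁻¹ * b := by linarith
  have h7 : |z.im| * (|z.im| * a) ≤ |z.im| * (|z.im|⁻¹ * b) :=
    mul_le_mul_of_nonneg_left h6 hs.le
  rw [← mul_assoc, ← mul_assoc, mul_inv_cancel₀ hs.ne', one_mul] at h7
  rw [← ha, ← hb, ← sq_abs, pow_two]
  exact h7

/-- a difference of two solutions -/
theorem bs_diff {K : X → X → ℝ} {nb : X → Finset X} {W : X → ℝ} {u v g h : X → ℂ} {z : ℂ}
    (e1 : ∀ x, HK K nb W u x - z * u x = g x) (e2 : ∀ x, HK K nb W v x - z * v x = h x) (x : X) :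
    HK K nb W (fun x => u x - v x) x - z * (u x - v x) = g x - h x := by
  rw [← e1 x, ← e2 x]
  unfold HK
  simp only [mul_sub, Finset.sum_sub_distrib]
  ring

theorem uniq {K : X → X → ℝ} {nb : X → Finset X} {D : ℝ} (hy : Hyp K nb D) (W : X → ℝ) (u v g : X → ℂ) (z : ℂ) (hz : z.im ≠ 0)
    (hu : SqS u) (hv : SqS v) (e1 : ∀ x, HK K nb W u x - z * u x = g x)
    (e2 : ∀ x, HK K nb W v x - z * v x = g x) : u = v := by
  have h1 := norm_le hy W (fun x => u x - v x) (fun _ => 0) z hz (bs_sub hu hv) bs_zero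
    (fun x => by rw [bs_diff e1 e2 x, sub_self])
  simp only [norm_zero, ne_eq, OfNat.ofNat_ne_zero, not_false_eq_true, zero_pow, tsum_zero] at h1
  have h2 : 0 < z.im ^ 2 := by positivity
  have h3 : ∑' x, ‖u x - v x‖ ^ 2 ≤ 0 := by
    by_contra hcon
    push Not at hcon
    have := mul_pos h2 hcon
    linarith
  funext x
  have h4 : ‖u x - v x‖ ^ 2 ≤ ∑' x, ‖u x - v x‖ ^ 2 :=
    (bs_sub hu hv).le_tsum x fun y _ => by positivity
  have h5 : ‖u x - v x‖ ^ 2 ≤ 0 := h4.trans h3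
  have h6 : ‖u x - v x‖ = 0 := by
    nlinarith [norm_nonneg (u x - v x), sq_nonneg ‖u x - v x‖]
  exact sub_eq_zero.mp (norm_eq_zero.mp h6)

/-! ### the spectral measure -/

/-- the Borel transform is the matrix element of any solution -/
theorem bs_borel {K : X → X → ℝ} {nb : X → Finset X} {D : ℝ} (hy : Hyp K nb D) {W : X → ℝ} {g : X → ℂ} {μ : Measure ℝ}
    (hμ : IsSpec (HK K nb W) g μ) (z : ℂ) (hz : z.im ≠ 0) (u : X → ℂ) (hu : SqS u)
    (e1 : ∀ x, HK K nb W u x - z * u x = g x) :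
    ∫ E : ℝ, ((E : ℂ) - z)⁻¹ ∂μ = ∑' x, (starRingEnd ℂ) (g x) * u x := by
  obtain ⟨v, hv, e2, h⟩ := hμ.2 z hz
  rw [uniq hy W u v g z hz hu hv e1 e2]
  exact h

theorem bs_ne (z : ℂ) (hz : z.im ≠ 0) (E : ℝ) : (E : ℂ) - z ≠ 0 := by
  intro h
  apply hz
  have := congrArg Complex.im h
  simpa using this

theorem bs_inv_le (z : ℂ) (hz : z.im ≠ 0) (E : ℝ) : ‖((E : ℂ) - z)⁻¹‖ ≤ |z.im|⁻¹ := by
  rw [norm_inv]
  have h1 : |z.im| ≤ ‖(E : ℂ) - z‖ := by
    have := Complex.abs_im_le_norm ((E : ℂ) - z)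
    simpa using this
  exact inv_anti₀ (abs_pos.mpr hz) h1

theorem bs_meas (z : ℂ) : Measurable fun E : ℝ => ((E : ℂ) - z)⁻¹ :=
  (Complex.measurable_ofReal.sub_const z).inv

theorem bs_int (μ : Measure ℝ) [IsFiniteMeasure μ] (z : ℂ) (hz : z.im ≠ 0) :
    Integrable (fun E : ℝ => ((E : ℂ) - z)⁻¹) μ :=
  Integrable.of_bound (bs_meas z).aestronglyMeasurable |z.im|⁻¹
    (Eventually.of_forall fun E => bs_inv_le z hz E)

/-- `t ^ 2 ‖u_t‖ ^ 2` is the imaginary part of `t ∫ 1 / (E - i t)` -/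
theorem bs_im {K : X → X → ℝ} {nb : X → Finset X} {D : ℝ} (hy : Hyp K nb D) {W : X → ℝ} {g : X → ℂ} (hg : SqS g) {μ : Measure ℝ}
    (hμ : IsSpec (HK K nb W) g μ) (t : ℝ) (ht : 0 < t) (u : X → ℂ) (hu : SqS u)
    (e1 : ∀ x, HK K nb W u x - (t * Complex.I) * u x = g x) :
    t ^ 2 * ∑' x, ‖u x‖ ^ 2 = (∫ E : ℝ, (t : ℂ) * ((E : ℂ) - t * Complex.I)⁻¹ ∂μ).im := by
  have hz : ((t : ℂ) * Complex.I).im ≠ 0 := by simp [ht.ne']
  have h1 := symm hy W u u g g _ _ hu hu hg hg e1 e1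
  have h2 := bs_borel hy hμ _ hz u hu e1
  rw [integral_const_mul, h2]
  rw [bs_self u, ← bs_conj g u] at h1
  have h3 := congrArg Complex.im h1
  simp only [map_mul, Complex.conj_ofReal, Complex.conj_I, Complex.mul_im, Complex.sub_im,
    Complex.sub_re, Complex.mul_re, Complex.ofReal_re, Complex.ofReal_im, Complex.neg_re,
    Complex.neg_im, Complex.I_re, Complex.I_im, Complex.conj_im] at h3
  rw [Complex.mul_im, Complex.ofReal_re, Complex.ofReal_im]
  nlinarith [h3]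

theorem mass {K : X → X → ℝ} {nb : X → Finset X} {D : ℝ} (hy : Hyp K nb D) (W : X → ℝ) (g : X → ℂ) (hg : SqS g) (μ : Measure ℝ)
    (hμ : IsSpec (HK K nb W) g μ) : ∑' x, ‖g x‖ ^ 2 = μ.real Set.univ := by
  have := hμ.1
  -- the solutions
  have hsol : ∀ n : ℕ, ∃ u : X → ℂ, SqS u ∧
      (∀ x, HK K nb W u x - (((n + 1 : ℝ) : ℂ) * Complex.I) * u x = g x) := by
    intro n
    obtain ⟨u, h1, h2, -⟩ := hμ.2 (((n + 1 : ℝ) : ℂ) * Complex.I) (by
      have : (n + 1 : ℝ) ≠ 0 := by positivity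
      simpa using this)
    exact ⟨u, h1, h2⟩
  choose u hu hu2 using hsol
  have hpos : ∀ n : ℕ, (0 : ℝ) < n + 1 := fun n => by positivity
  -- the limit of the norms
  have hlim : Tendsto (fun n : ℕ => (n + 1 : ℝ) ^ 2 * ∑' x, ‖u n x‖ ^ 2) atTop
      (𝓝 (μ.real Set.univ)) := by
    have h1 : Tendsto (fun n : ℕ => ∫ E : ℝ, ((n + 1 : ℝ) : ℂ) *
        ((E : ℂ) - ((n + 1 : ℝ) : ℂ) * Complex.I)⁻¹ ∂μ) atTop (𝓝 (∫ _ : ℝ, Complex.I ∂μ)) := by
      refine tendsto_integral_of_dominated_convergence (fun _ => (1 : ℝ)) (fun n => ?_)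
        (integrable_const _) (fun n => Eventually.of_forall fun E => ?_)
        (Eventually.of_forall fun E => ?_)
      · exact ((bs_meas _).const_mul _).aestronglyMeasurable
      · rw [norm_mul, Complex.norm_real, Real.norm_eq_abs, abs_of_pos (hpos n)]
        have h2 := bs_inv_le (((n + 1 : ℝ) : ℂ) * Complex.I) (by
          simpa using (hpos n).ne') E
        have h3 : (((n + 1 : ℝ) : ℂ) * Complex.I).im = n + 1 := by simp
        rw [h3, abs_of_pos (hpos n)] at h2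
        calc (n + 1 : ℝ) * ‖((E : ℂ) - ((n + 1 : ℝ) : ℂ) * Complex.I)⁻¹‖
            ≤ (n + 1 : ℝ) * (n + 1 : ℝ)⁻¹ := mul_le_mul_of_nonneg_left h2 (hpos n).le
          _ = 1 := mul_inv_cancel₀ (hpos n).ne'
      · -- pointwise limit
        have h4 : Tendsto (fun n : ℕ => ((((E / (n + 1) : ℝ) : ℂ)) - Complex.I)⁻¹) atTop
            (𝓝 ((((0 : ℝ) : ℂ)) - Complex.I)⁻¹) := by
          have h5 : Tendsto (fun n : ℕ => (E / (n + 1) : ℝ)) atTop (𝓝 0) := by
            have := tendsto_one_div_add_atTop_nhds_zero_nat (𝕜 := ℝ)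
            have h6 := this.const_mul E
            simp only [mul_zero] at h6
            refine h6.congr fun n => ?_
            ring
          have h7 : Tendsto (fun n : ℕ => (((E / (n + 1) : ℝ) : ℂ)) - Complex.I) atTop
              (𝓝 ((((0 : ℝ) : ℂ)) - Complex.I)) :=
            ((Complex.continuous_ofReal.tendsto _).comp h5).sub_const _
          exact h7.inv₀ (by simp)
        have h8 : ((((0 : ℝ) : ℂ)) - Complex.I)⁻¹ = Complex.I := by
          simp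
        rw [h8] at h4
        refine h4.congr fun n => ?_
        have h9 : ((n + 1 : ℝ) : ℂ) ≠ 0 := by
          exact_mod_cast (hpos n).ne'
        have h10 : (E : ℂ) - ((n + 1 : ℝ) : ℂ) * Complex.I =
            ((n + 1 : ℝ) : ℂ) * ((((E / (n + 1) : ℝ) : ℂ)) - Complex.I) := by
          push_cast at h9 ⊢
          field_simp
        rw [h10, mul_inv, ← mul_assoc, mul_inv_cancel₀ h9, one_mul]
    have h11 := (Complex.continuous_im.tendsto _).comp h1
    rw [integral_const] at h11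
    simp only [Complex.smul_im, Complex.I_im, smul_eq_mul, mul_one] at h11
    refine h11.congr fun n => ?_
    simp only [Function.comp]
    exact (bs_im hy hg hμ (n + 1) (hpos n) (u n) (hu n) (hu2 n)).symm
  -- the bound of the norms
  have hb : ∀ n : ℕ, (n + 1 : ℝ) ^ 2 * ∑' x, ‖u n x‖ ^ 2 ≤ ∑' x, ‖g x‖ ^ 2 := by
    intro n
    have := norm_le hy W (u n) g _ (by simpa using (hpos n).ne') (hu n) hg (hu2 n)
    simpa using this
  refine le_antisymm ?_ (le_of_tendsto' hlim hb)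
  refine Summable.tsum_le_of_sum_le hg fun F => ?_
  -- pointwise convergence
  have hpt0 : ∀ x, Tendsto (fun n : ℕ => u n x) atTop (𝓝 0) := by
    intro x
    rw [tendsto_zero_iff_norm_tendsto_zero]
    have h1 : ∀ n : ℕ, ‖u n x‖ ≤ (1 + ∑' x, ‖g x‖ ^ 2) * (1 / ((n : ℝ) + 1)) := by
      intro n
      have h2 : ‖u n x‖ ^ 2 ≤ ∑' x, ‖u n x‖ ^ 2 := (hu n).le_tsum x fun y _ => by positivity
      have h3 : ((n + 1 : ℝ) * ‖u n x‖) ^ 2 ≤ ∑' x, ‖g x‖ ^ 2 := by
        rw [mul_pow]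
        exact (mul_le_mul_of_nonneg_left h2 (by positivity)).trans (hb n)
      have h4 : (n + 1 : ℝ) * ‖u n x‖ ≤ 1 + ∑' x, ‖g x‖ ^ 2 := by
        nlinarith [sq_nonneg ((n + 1 : ℝ) * ‖u n x‖ - 1), sq_nonneg ((n + 1 : ℝ) * ‖u n x‖)]
      rw [mul_one_div, le_div_iff₀ (hpos n)]
      linarith
    have h5 := (tendsto_one_div_add_atTop_nhds_zero_nat (𝕜 := ℝ)).const_mul
      (1 + ∑' x, ‖g x‖ ^ 2)
    rw [mul_zero] at h5
    exact squeeze_zero (fun n => norm_nonneg _) h1 h5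
  have hpt : ∀ x, Tendsto (fun n : ℕ => (n + 1 : ℝ) ^ 2 * ‖u n x‖ ^ 2) atTop
      (𝓝 (‖g x‖ ^ 2)) := by
    intro x
    have h1 : Tendsto (fun n : ℕ => HK K nb W (u n) x) atTop (𝓝 0) := by
      unfold HK
      have h2 : Tendsto (fun n : ℕ => ∑ y ∈ nb x, (K x y : ℂ) * u n y) atTop
          (𝓝 (∑ y ∈ nb x, (K x y : ℂ) * 0)) :=
        tendsto_finsetSum _ fun i _ => (hpt0 _).const_mul _
      have h3 := h2.add ((hpt0 x).const_mul (W x : ℂ))
      simpa using h3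
    have h4 : Tendsto (fun n : ℕ => (((n + 1 : ℝ) : ℂ) * Complex.I) * u n x) atTop
        (𝓝 (0 - g x)) := by
      refine (h1.sub_const (g x)).congr fun n => ?_
      rw [← hu2 n x]
      ring
    have h5 := (h4.norm).pow 2
    rw [zero_sub, norm_neg] at h5
    refine h5.congr fun n => ?_
    rw [norm_mul, norm_mul, Complex.norm_I, mul_one, Complex.norm_real, Real.norm_eq_abs,
      abs_of_pos (hpos n), mul_pow]
  refine le_of_tendsto_of_tendsto' (tendsto_finsetSum F fun x _ => hpt x) hlim fun n => ?_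
  rw [← Finset.mul_sum]
  exact mul_le_mul_of_nonneg_left ((hu n).sum_le_tsum F fun y _ => by positivity) (by positivity)

theorem innr {K : X → X → ℝ} {nb : X → Finset X} {D : ℝ} (hy : Hyp K nb D) (W : X → ℝ) (g : X → ℂ) (hg : SqS g) (μ : Measure ℝ)
    (hμ : IsSpec (HK K nb W) g μ) (z w : ℂ) (hz : z.im ≠ 0) (hw : w.im ≠ 0) (u v : X → ℂ) (hu : SqS u)
    (hv : SqS v) (e1 : ∀ x, HK K nb W u x - z * u x = g x) (e2 : ∀ x, HK K nb W v x - w * v x = g x) :
    ∑' x, (starRingEnd ℂ) (u x) * v x =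
      ∫ E : ℝ, (starRingEnd ℂ) (((E : ℂ) - z)⁻¹) * ((E : ℂ) - w)⁻¹ ∂μ := by
  have := hμ.1
  have hzc : ((starRingEnd ℂ) z).im ≠ 0 := by simpa using hz
  -- the case of different points
  have main : ∀ w' : ℂ, w'.im ≠ 0 → (starRingEnd ℂ) z ≠ w' → ∀ v' : X → ℂ, SqS v' →
      (∀ x, HK K nb W v' x - w' * v' x = g x) → ∑' x, (starRingEnd ℂ) (u x) * v' x =
      ∫ E : ℝ, (starRingEnd ℂ) (((E : ℂ) - z)⁻¹) * ((E : ℂ) - w')⁻¹ ∂μ := by
    intro w' hw' hne v' hv' e2'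
    have h1 := symm hy W u v' g g z w' hu hv' hg hg e1 e2'
    rw [← bs_conj g u, ← bs_borel hy hμ z hz u hu e1, ← bs_borel hy hμ w' hw' v' hv' e2',
      ← integral_conj] at h1
    have h2 : Integrable (fun E : ℝ => (starRingEnd ℂ) (((E : ℂ) - z)⁻¹)) μ := by
      refine (bs_int μ _ hzc).congr (Eventually.of_forall fun E => ?_)
      simp [map_inv₀]
    rw [← integral_sub h2 (bs_int μ w' hw')] at h1
    have h3 : ∀ E : ℝ, (starRingEnd ℂ) (((E : ℂ) - z)⁻¹) - ((E : ℂ) - w')⁻¹ =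
        ((starRingEnd ℂ) z - w') *
          ((starRingEnd ℂ) (((E : ℂ) - z)⁻¹) * ((E : ℂ) - w')⁻¹) := by
      intro E
      have h4 := bs_ne _ hzc E
      have h5 := bs_ne w' hw' E
      simp only [map_inv₀, map_sub, Complex.conj_ofReal]
      field_simp
      ring
    simp_rw [h3] at h1
    rw [integral_const_mul] at h1
    exact mul_left_cancel₀ (sub_ne_zero.mpr hne) h1
  by_cases hne : (starRingEnd ℂ) z = w
  · -- approximation
    have hwn : ∀ n : ℕ, (w + ((1 / ((n : ℝ) + 1) : ℝ) : ℂ)).im ≠ 0 := fun n => by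
      simpa using hw
    have hsol : ∀ n : ℕ, ∃ v' : X → ℂ, SqS v' ∧
        (∀ x, HK K nb W v' x - (w + ((1 / ((n : ℝ) + 1) : ℝ) : ℂ)) * v' x = g x) := by
      intro n
      obtain ⟨v', h1, h2, -⟩ := hμ.2 _ (hwn n)
      exact ⟨v', h1, h2⟩
    choose v' hv' hv2 using hsol
    have hpos : ∀ n : ℕ, (0 : ℝ) < 1 / ((n : ℝ) + 1) := fun n => by positivity
    have hmain : ∀ n, ∑' x, (starRingEnd ℂ) (u x) * v' n x =
        ∫ E : ℝ, (starRingEnd ℂ) (((E : ℂ) - z)⁻¹) *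
          ((E : ℂ) - (w + ((1 / ((n : ℝ) + 1) : ℝ) : ℂ)))⁻¹ ∂μ := by
      intro n
      refine main _ (hwn n) ?_ (v' n) (hv' n) (hv2 n)
      rw [hne]
      intro h
      have h1 : ((1 / ((n : ℝ) + 1) : ℝ) : ℂ) = 0 := by
        have := congrArg (fun s => s - w) h
        simpa using this.symm
      exact (hpos n).ne' (Complex.ofReal_eq_zero.mp h1)
    -- convergence of the left-hand sides
    have hl : Tendsto (fun n : ℕ => ∑' x, (starRingEnd ℂ) (u x) * v' n x) atTop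
        (𝓝 (∑' x, (starRingEnd ℂ) (u x) * v x)) := by
      rw [tendsto_iff_norm_sub_tendsto_zero]
      have h1 : ∀ n : ℕ, ‖∑' x, (starRingEnd ℂ) (u x) * v' n x -
          ∑' x, (starRingEnd ℂ) (u x) * v x‖ ≤
          ((∑' x, ‖u x‖ ^ 2 + (w.im ^ 2)⁻¹ * ∑' x, ‖v x‖ ^ 2) / 2) * (1 / ((n : ℝ) + 1)) := by
        intro n
        obtain ⟨s, hs⟩ : ∃ s : ℝ, s = 1 / ((n : ℝ) + 1) := ⟨_, rfl⟩
        have hs0 : 0 < s := by rw [hs]; exact hpos n
        have hdl : SqS (fun x => v' n x - v x) := bs_sub (hv' n) hv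
        have e3 : ∀ x, HK K nb W v x - (w + ((1 / ((n : ℝ) + 1) : ℝ) : ℂ)) * v x =
            g x - ((1 / ((n : ℝ) + 1) : ℝ) : ℂ) * v x := by
          intro x
          rw [← e2 x]
          ring
        have h2 := norm_le hy W (fun x => v' n x - v x)
          (fun x => ((1 / ((n : ℝ) + 1) : ℝ) : ℂ) * v x) _ (hwn n) hdl (bs_smul _ hv)
          (fun x => by
            rw [bs_diff (hv2 n) e3 x]
            ring)
        have h3 : (w + ((1 / ((n : ℝ) + 1) : ℝ) : ℂ)).im = w.im := by simp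
        rw [h3] at h2
        have h4 : ∑' x, ‖((1 / ((n : ℝ) + 1) : ℝ) : ℂ) * v x‖ ^ 2 = s ^ 2 * ∑' x, ‖v x‖ ^ 2 := by
          rw [← tsum_mul_left]
          refine tsum_congr fun x => ?_
          rw [norm_mul, mul_pow, Complex.norm_real, Real.norm_eq_abs, sq_abs, ← hs]
        rw [h4] at h2
        have h5 := bs_amgm hu hdl s hs0
        have h6 : ∑' x, (starRingEnd ℂ) (u x) * v' n x - ∑' x, (starRingEnd ℂ) (u x) * v x =
            ∑' x, (starRingEnd ℂ) (u x) * (v' n x - v x) := by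
          rw [← Summable.tsum_sub (bs_summ hu (hv' n)) (bs_summ hu hv)]
          exact tsum_congr fun x => by ring
        rw [h6]
        refine h5.trans ?_
        rw [← hs]
        have h7 : 0 < w.im ^ 2 := by positivity
        have h8 : ∑' x, ‖v' n x - v x‖ ^ 2 ≤ (w.im ^ 2)⁻¹ * (s ^ 2 * ∑' x, ‖v x‖ ^ 2) := by
          rw [← div_eq_inv_mul, le_div_iff₀ h7]
          linarith
        have h9 : s⁻¹ * ∑' x, ‖v' n x - v x‖ ^ 2 ≤
            s⁻¹ * ((w.im ^ 2)⁻¹ * (s ^ 2 * ∑' x, ‖v x‖ ^ 2)) :=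
          mul_le_mul_of_nonneg_left h8 (inv_nonneg.mpr hs0.le)
        have h10 : s⁻¹ * ((w.im ^ 2)⁻¹ * (s ^ 2 * ∑' x, ‖v x‖ ^ 2)) =
            s * ((w.im ^ 2)⁻¹ * ∑' x, ‖v x‖ ^ 2) := by
          field_simp
        rw [h10] at h9
        linarith
      have h11 := (tendsto_one_div_add_atTop_nhds_zero_nat (𝕜 := ℝ)).const_mul
        ((∑' x, ‖u x‖ ^ 2 + (w.im ^ 2)⁻¹ * ∑' x, ‖v x‖ ^ 2) / 2)
      rw [mul_zero] at h11
      exact squeeze_zero (fun n => norm_nonneg _) h1 h11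
    -- convergence of the right-hand sides
    have hr : Tendsto (fun n : ℕ => ∫ E : ℝ, (starRingEnd ℂ) (((E : ℂ) - z)⁻¹) *
        ((E : ℂ) - (w + ((1 / ((n : ℝ) + 1) : ℝ) : ℂ)))⁻¹ ∂μ) atTop
        (𝓝 (∫ E : ℝ, (starRingEnd ℂ) (((E : ℂ) - z)⁻¹) * ((E : ℂ) - w)⁻¹ ∂μ)) := by
      refine tendsto_integral_of_dominated_convergence (fun _ => |z.im|⁻¹ * |w.im|⁻¹)
        (fun n => ?_) (integrable_const _) (fun n => Eventually.of_forall fun E => ?_)
        (Eventually.of_forall fun E => ?_)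
      · exact ((Complex.continuous_conj.measurable.comp (bs_meas z)).mul
          (bs_meas _)).aestronglyMeasurable
      · rw [norm_mul, RCLike.norm_conj]
        have h3 : (w + ((1 / ((n : ℝ) + 1) : ℝ) : ℂ)).im = w.im := by simp
        have h4 := bs_inv_le _ (hwn n) E
        rw [h3] at h4
        exact mul_le_mul (bs_inv_le z hz E) h4 (norm_nonneg _) (by positivity)
      · refine Tendsto.const_mul _ ?_
        refine Tendsto.inv₀ ?_ (bs_ne w hw E)
        have h5 := (Complex.continuous_ofReal.tendsto _).comp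
          (tendsto_one_div_add_atTop_nhds_zero_nat (𝕜 := ℝ))
        have h6 := (h5.const_add w).const_sub (E : ℂ)
        simpa using h6
    exact tendsto_nhds_unique hl (hr.congr fun n => (hmain n).symm)
  · exact main w hw hne v hv e2

end BgkA

end Pool.Agent.L0h56.ST
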