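import Pool.Agent.L0h56.ST.BgkA
import Pool.Agent.H4R2.LO.Brep

/-!
The spectral representation of a cyclic subspace for `HK` (adapted from the lattice version, team LO).
-/

set_option autoImplicit false
set_option linter.unusedSectionVars false
set_option linter.unusedVariables false

open scoped BigOperators ENNReal InnerProductSpace
open MeasureTheory Filter Topology Pool.Agent.L0h56.SL
open Pool.Agent.H4R2.LO.BrepX (rf rf_ne rf_cont rf_bound rf_mem ext_iso riesz tendsto_zero_of_bound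
  lim_one)

namespace Pool.Agent.L0h56.ST

namespace BgkA

variable {X : Type} [DecidableEq X]

theorem SqS_mem {u : X → ℂ} (hu : SqS u) : Memℓp u 2 := by
  rw [memℓp_gen_iff (by norm_num)]
  simpa [SqS] using hu

/-- evaluation at a point -/
noncomputable def ev (x : X) : lp (fun _ : X => ℂ) 2 →L[ℂ] ℂ :=
  LinearMap.mkContinuous
    { toFun := fun v => v x
      map_add' := fun _ _ => rfl
      map_smul' := fun _ _ => rfl } 1
    (fun v => by
      rw [one_mul]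
      exact lp.norm_apply_le_norm (by norm_num) v x)

theorem ev_apply (x : X) (v : lp (fun _ : X => ℂ) 2) : ev x v = v x := rfl

theorem ev_norm (x : X) : ‖ev x‖ ≤ 1 :=
  LinearMap.mkContinuous_norm_le _ zero_le_one _


theorem pt_le {K : X → X → ℝ} {nb : X → Finset X} {D : ℝ} (hy : Hyp K nb D) (W : X → ℝ) (u g : X → ℂ) (z : ℂ) (hz : z.im ≠ 0)
    (hu : SqS u) (hg : SqS g) (e1 : ∀ x, HK K nb W u x - z * u x = g x) (y : X) :
    ‖u y‖ ≤ Real.sqrt (∑' x, ‖g x‖ ^ 2) * |z.im|⁻¹ := by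
  have h1 := norm_le hy W u g z hz hu hg e1
  have h2 : ‖u y‖ ^ 2 ≤ ∑' x, ‖u x‖ ^ 2 := hu.le_tsum y fun _ _ => by positivity
  have h3 : 0 < z.im ^ 2 := by positivity
  have h4 : (‖u y‖ * |z.im|) ^ 2 ≤ ∑' x, ‖g x‖ ^ 2 := by
    rw [mul_pow, sq_abs]
    calc ‖u y‖ ^ 2 * z.im ^ 2 ≤ (∑' x, ‖u x‖ ^ 2) * z.im ^ 2 :=
          mul_le_mul_of_nonneg_right h2 h3.le
      _ ≤ _ := by rw [mul_comm]; exact h1
  have h5 : ‖u y‖ * |z.im| ≤ Real.sqrt (∑' x, ‖g x‖ ^ 2) := Real.le_sqrt_of_sq_le h4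
  have h6 : 0 < |z.im| := abs_pos.mpr hz
  rw [← div_eq_mul_inv, le_div_iff₀ h6]
  exact h5


/-- the spectral representation of the cyclic subspace of `g` -/
theorem rep {K : X → X → ℝ} {nb : X → Finset X} {D : ℝ} (hy : Hyp K nb D) (W : X → ℝ) (g : X → ℂ) (hg : SqS g) (μ : Measure ℝ)
    (hμ : IsSpec (HK K nb W) g μ) : ∃ φ : X → ℝ → ℂ,
      (∀ x, Measurable (φ x)) ∧ (∀ x, MemLp (φ x) 2 μ) ∧
      (∀ x, ∫ E, ‖φ x E‖ ^ 2 ∂μ ≤ 1) ∧
      (∀ z : ℂ, z.im ≠ 0 → ∀ u : X → ℂ, SqS u → (∀ x, HK K nb W u x - z * u x = g x) →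
        ∀ x, u x = ∫ E, φ x E * ((E : ℂ) - z)⁻¹ ∂μ) ∧
      (∀ x, g x = ∫ E, φ x E ∂μ) ∧
      (∀ A : Set ℝ, MeasurableSet A → (∀ x, ∀ E ∈ A, φ x E = 0) → μ A = 0) := by
  have : IsFiniteMeasure μ := hμ.1
  choose u hu2 hue hub using fun z : {z : ℂ // z.im ≠ 0} => hμ.2 z.1 z.2
  let f : {z : ℂ // z.im ≠ 0} → Lp ℂ 2 μ := fun z => (rf_mem μ z.2).toLp
  let b : {z : ℂ // z.im ≠ 0} → lp (fun _ : X => ℂ) 2 := fun z => ⟨u z, SqS_mem (hu2 z)⟩
  have hgram : ∀ z w, ⟪f z, f w⟫_ℂ = ⟪b z, b w⟫_ℂ := by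
    intro z w
    rw [L2.inner_def, lp.inner_eq_tsum]
    have h1 := innr hy W g hg μ hμ z w z.2 w.2 (u z) (u w) (hu2 z) (hu2 w) (hue z) (hue w)
    have h2 : ∑' x, ⟪(b z : X → ℂ) x, (b w : X → ℂ) x⟫_ℂ =
        ∑' x, (starRingEnd ℂ) (u z x) * u w x := by
      refine tsum_congr fun x => ?_
      rw [RCLike.inner_apply, mul_comm]
    rw [h2, h1]
    refine integral_congr_ae ?_
    filter_upwards [(rf_mem μ z.2).coeFn_toLp, (rf_mem μ w.2).coeFn_toLp] with E h3 h4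
    simp only [f]
    rw [h3, h4, RCLike.inner_apply, mul_comm]
    rfl
  have hdens : ∀ v : Lp ℂ 2 μ, (∀ z, ⟪f z, v⟫_ℂ = 0) → v = 0 := by
    intro v hv
    rw [Lp.eq_zero_iff_ae_eq_zero]
    have hvi : Integrable (v : ℝ → ℂ) μ := (Lp.memLp v).integrable (by norm_num)
    refine Pool.Agent.H4R2.LO.Bden.dens μ v hvi fun z hz _ => ?_
    have hz' : ((starRingEnd ℂ) z).im ≠ 0 := by simpa using hz
    have h1 := hv ⟨(starRingEnd ℂ) z, hz'⟩
    rw [L2.inner_def] at h1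
    rw [← h1]
    refine integral_congr_ae ?_
    filter_upwards [(rf_mem μ hz').coeFn_toLp] with E h3
    simp only [f]
    rw [h3, RCLike.inner_apply]
    simp [rf]
  obtain ⟨U, hU, hUf⟩ := ext_iso f b hgram hdens
  have hUn : ‖U‖ ≤ 1 := by
    refine ContinuousLinearMap.opNorm_le_bound _ zero_le_one fun v => ?_
    rw [hU, one_mul]
  have hr := fun x : X => riesz μ ((ev x).comp U) (by
    calc ‖(ev x).comp U‖ ≤ ‖ev x‖ * ‖U‖ := ContinuousLinearMap.opNorm_comp_le _ _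
      _ ≤ 1 * 1 := mul_le_mul (ev_norm x) hUn (norm_nonneg _) zero_le_one
      _ = 1 := one_mul _)
  choose φ hφm hφ2 hφ1 hφr using hr
  have h4 : ∀ z : ℂ, z.im ≠ 0 → ∀ w : X → ℂ, SqS w → (∀ x, HK K nb W w x - z * w x = g x) →
        ∀ x, w x = ∫ E, φ x E * ((E : ℂ) - z)⁻¹ ∂μ := by
    intro z hz w hw he x
    have h1 : w = u ⟨z, hz⟩ := uniq hy W w _ g z hz hw (hu2 ⟨z, hz⟩) he (hue ⟨z, hz⟩)
    have h2 := hφr x (rf z) (rf_mem μ hz)
    have h3 : ((ev x).comp U) ((rf_mem μ hz).toLp) = u ⟨z, hz⟩ x := by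
      rw [ContinuousLinearMap.comp_apply]
      have : U ((rf_mem μ hz).toLp) = b ⟨z, hz⟩ := hUf ⟨z, hz⟩
      rw [this, ev_apply]
    rw [h1, ← h3, h2]
    rfl
  refine ⟨φ, hφm, hφ2, hφ1, h4, ?_, ?_⟩
  · intro x
    have him : ∀ n : ℕ, (((n : ℂ) + 1) * Complex.I).im = n + 1 := by
      intro n
      simp
    let z : ℕ → {z : ℂ // z.im ≠ 0} := fun n => ⟨((n : ℂ) + 1) * Complex.I, by
      rw [him]
      positivity⟩
    have hzim : ∀ n : ℕ, (z n : ℂ).im = n + 1 := him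
    have T1 := lim_one μ (φ x) ((hφ2 x).integrable (by norm_num)) (fun n => z n) (fun n => rfl)
    set C := Real.sqrt (∑' x, ‖g x‖ ^ 2) with hC
    have hpt : ∀ (y : X), Tendsto (fun n => u (z n) y) atTop (𝓝 0) := by
      intro y
      refine tendsto_zero_of_bound C fun n => ?_
      have := pt_le hy W (u (z n)) g (z n) (z n).2 (hu2 _) hg (hue _) y
      rwa [hzim, abs_of_pos (by positivity : (0 : ℝ) < (n : ℝ) + 1)] at this
    have T2 : Tendsto (fun n => HK K nb W (u (z n)) x) atTop (𝓝 0) := by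
      unfold HK
      have h1 : Tendsto (fun n => ∑ y ∈ nb x, (K x y : ℂ) * u (z n) y + (W x : ℂ) * u (z n) x)
          atTop (𝓝 (∑ y ∈ nb x, (K x y : ℂ) * 0 + (W x : ℂ) * 0)) := by
        refine Tendsto.add (tendsto_finsetSum _ fun i _ => ?_) ((hpt x).const_mul _)
        exact (hpt _).const_mul _
      simpa using h1
    have T3 : ∀ n, ∫ E, φ x E * (-(z n : ℂ) * rf (z n) E) ∂μ = g x - HK K nb W (u (z n)) x := by
      intro n
      have h1 : ∫ E, φ x E * (-(z n : ℂ) * rf (z n) E) ∂μ =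
          -(z n : ℂ) * ∫ E, φ x E * rf (z n) E ∂μ := by
        rw [← integral_const_mul]
        refine integral_congr_ae (Eventually.of_forall fun E => ?_)
        simp only
        ring
      have h2 := h4 (z n) (z n).2 (u (z n)) (hu2 _) (hue _) x
      have h3 := hue (z n) x
      rw [h1]
      change -(z n : ℂ) * ∫ E, φ x E * ((E : ℂ) - (z n : ℂ))⁻¹ ∂μ = _
      rw [← h2, ← h3]
      ring
    have T4 : Tendsto (fun n => g x - HK K nb W (u (z n)) x) atTop (𝓝 (g x - 0)) :=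
      tendsto_const_nhds.sub T2
    simp only [T3] at T1
    rw [sub_zero] at T4
    exact tendsto_nhds_unique T4 T1
  · intro A hA hφA
    have hm : MemLp (A.indicator fun _ : ℝ => (1 : ℂ)) 2 μ :=
      (memLp_const (1 : ℂ)).indicator hA
    have h1 : U hm.toLp = 0 := by
      refine lp.ext (funext fun x => ?_)
      have h2 := hφr x _ hm
      have h3 : ∫ E, φ x E * A.indicator (fun _ : ℝ => (1 : ℂ)) E ∂μ = 0 := by
        have : ∀ E, φ x E * A.indicator (fun _ : ℝ => (1 : ℂ)) E = 0 := by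
          intro E
          by_cases hE : E ∈ A
          · rw [hφA x E hE, zero_mul]
          · rw [Set.indicator_of_notMem hE, mul_zero]
        simp [this]
      rw [h3] at h2
      exact h2
    have h2 : hm.toLp = 0 := by
      rw [← norm_eq_zero, ← hU, h1, norm_zero]
    have h3 : (A.indicator fun _ : ℝ => (1 : ℂ)) =ᵐ[μ] 0 := by
      have h5 := hm.coeFn_toLp
      rw [h2] at h5
      exact h5.symm.trans (Lp.coeFn_zero _ _ _)
    have h6 := ae_iff.1 (show ∀ᵐ E ∂μ, A.indicator (fun _ : ℝ => (1 : ℂ)) E = 0 from h3)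
    refine measure_mono_null (fun E hE => ?_) h6
    simp [hE]

end BgkA

end Pool.Agent.L0h56.ST
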