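import Pool.Agent.L0h56.ST.Tc

/-!
Derivatives of the conditional expectation with respect to complex displacements.
-/

set_option autoImplicit false
set_option linter.unusedSectionVars false
set_option linter.unusedVariables false

open scoped BigOperators Topology
open Complex MeasureTheory Pool.Agent.L0h56.CS Pool.Agent.L0h56.SL Pool.Agent.L0h56.SL.M

namespace Pool.Agent.L0h56.ST.M

/-- the uniform measure on the circle -/
noncomputable def nu : Measure ℝ :=
  ENNReal.ofReal ((2 * Real.pi)⁻¹) • volume.restrict (Set.Ioc 0 (2 * Real.pi))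

instance nu_prob : IsProbabilityMeasure nu := by
  constructor
  unfold nu
  have hpi := Real.pi_pos
  rw [Measure.smul_apply, Measure.restrict_apply_univ, Real.volume_Ioc, sub_zero, smul_eq_mul,
    ← ENNReal.ofReal_mul (by positivity), inv_mul_cancel₀ (by positivity), ENNReal.ofReal_one]

theorem int_nu (f : ℝ → ℂ) :
    ∫ θ, f θ ∂nu = (2 * Real.pi : ℂ)⁻¹ * ∫ θ in (0 : ℝ)..2 * Real.pi, f θ := by
  have hpi := Real.pi_pos
  unfold nu
  rw [integral_smul_measure, ENNReal.toReal_ofReal (by positivity),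
    intervalIntegral.integral_of_le (by positivity), Complex.real_smul]
  push_cast
  rfl

variable {ι : Type} [Fintype ι] [DecidableEq ι]

theorem sgn_sum (b : ι → ℂ) (S : Finset ι) : ∀ v : ℂ,
    ∑ T ∈ S.powerset, ‖v + ∑ x ∈ S, (((if x ∈ T then 1 else -1 : ℝ)) : ℂ) * b x‖ ^ 2 =
      2 ^ S.card * (‖v‖ ^ 2 + ∑ x ∈ S, ‖b x‖ ^ 2) := by
  induction S using Finset.induction_on with
  | empty => intro v; simp
  | insert x₀ S' hx ih =>
    intro v
    rw [Finset.sum_powerset_insert hx, Finset.card_insert_of_notMem hx, Finset.sum_insert hx]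
    have e1 : ∀ T ∈ S'.powerset,
        ‖v + ∑ x ∈ insert x₀ S', (((if x ∈ T then 1 else -1 : ℝ)) : ℂ) * b x‖ ^ 2 =
        ‖(v - b x₀) + ∑ x ∈ S', (((if x ∈ T then 1 else -1 : ℝ)) : ℂ) * b x‖ ^ 2 := by
      intro T hT
      have hT' : x₀ ∉ T := fun h => hx (Finset.mem_powerset.1 hT h)
      rw [Finset.sum_insert hx, if_neg hT']
      congr 2
      push_cast
      ring
    have e2 : ∀ T ∈ S'.powerset,
        ‖v + ∑ x ∈ insert x₀ S', (((if x ∈ insert x₀ T then 1 else -1 : ℝ)) : ℂ) * b x‖ ^ 2 =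
        ‖(v + b x₀) + ∑ x ∈ S', (((if x ∈ T then 1 else -1 : ℝ)) : ℂ) * b x‖ ^ 2 := by
      intro T hT
      rw [Finset.sum_insert hx, if_pos (Finset.mem_insert_self _ _)]
      have : ∑ x ∈ S', (((if x ∈ insert x₀ T then 1 else -1 : ℝ)) : ℂ) * b x =
          ∑ x ∈ S', (((if x ∈ T then 1 else -1 : ℝ)) : ℂ) * b x := by
        refine Finset.sum_congr rfl fun x hxS => ?_
        have hne : x ≠ x₀ := fun h => hx (h ▸ hxS)
        simp [Finset.mem_insert, hne]
      rw [this]
      congr 2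
      push_cast
      ring
    rw [Finset.sum_congr rfl e1, Finset.sum_congr rfl e2, ih, ih]
    have h := parallelogram_law_with_norm ℝ v (b x₀)
    have h' : ‖v - b x₀‖ ^ 2 + ‖v + b x₀‖ ^ 2 = 2 * (‖v‖ ^ 2 + ‖b x₀‖ ^ 2) := by nlinarith
    rw [pow_succ]
    linear_combination (2 : ℝ) ^ S'.card * h'

/-- the purely imaginary displacement -/
noncomputable def T0 (S : Finset ι) (L : ℝ) (x : ι) : ℂ := if x ∈ S then -(I * L) else 0

theorem T0_im {S : Finset ι} {L : ℝ} (hL : 0 ≤ L) (x : ι) : (T0 S L x).im ≤ 0 := by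
  unfold T0
  split_ifs
  · simp [hL]
  · simp

theorem T0_re (S : Finset ι) (L : ℝ) (x : ι) : (T0 S L x).re = 0 := by
  unfold T0
  split_ifs <;> simp

section

variable (K : ι → ι → ℝ) (V : ι → ℝ) (c : ℝ) (η : ι → ℝ) (a : ι) (B S : Finset ι)

/-- the expected derivative -/
noncomputable def bb (L : ℝ) (x : ι) (ω₁ ω₂ : ι → ℝ) : ℂ :=
  ∫ ω₃, -(2 * I) * (L : ℂ) * (vf c (ω₂ x) : ℂ) *
    Gc K V c η a (mix B ω₁ (mix (B ∪ S) ω₂ ω₃)) (T0 S L) x ^ 2 ∂(PI c ι)

variable {K V c η a B S}

theorem meas_bb (hc : 0 < c) (L : ℝ) (x : ι) {Ω : Type*} [MeasurableSpace Ω] {w₁ w₂ : Ω → ι → ℝ}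
    (h₁ : Measurable w₁) (h₂ : Measurable w₂) :
    Measurable fun s => bb K V c η a B S L x (w₁ s) (w₂ s) := by
  have hP := PI_prob (ι := ι) hc
  unfold bb
  refine meas_int (PI c ι) (f := fun s ω₃ => -(2 * I) * (L : ℂ) * (vf c (w₂ s x) : ℂ) *
    Gc K V c η a (mix B (w₁ s) (mix (B ∪ S) (w₂ s) ω₃)) (T0 S L) x ^ 2) ?_
  refine Measurable.mul ?_ (Measurable.pow_const ?_ 2)
  · refine measurable_const.mul (Complex.measurable_ofReal.comp ((vf_cont c).measurable.comp ?_))
    exact (measurable_pi_apply x).comp (h₂.comp measurable_fst)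
  · refine meas_Gc K V c η a (Ω := Ω × (ι → ℝ)) (w := fun z => mix B (w₁ z.1) (mix (B ∪ S) (w₂ z.1) z.2))
      (fun x => ?_) (t := fun z => T0 S L) (fun x => measurable_const) x
    exact (measurable_pi_apply x).comp (meas_mix_of B (h₁.comp measurable_fst)
      (meas_mix_of (B ∪ S) (h₂.comp measurable_fst) measurable_snd))

variable (hK : ∀ x y, K x y = K y x) (hη : ∀ x, 0 < η x) (hc : 0 < c)

include hK hη hc

theorem bb_le {L : ℝ} (hL : 0 ≤ L) (x : ι) (ω₁ ω₂ : ι → ℝ) :
    ‖bb K V c η a B S L x ω₁ ω₂‖ ≤ L / (2 * η x) := by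
  have hP := PI_prob (ι := ι) hc
  have hηx := hη x
  have h := norm_integral_le_of_norm_le_const (μ := PI c ι)
    (f := fun ω₃ => -(2 * I) * (L : ℂ) * (vf c (ω₂ x) : ℂ) *
      Gc K V c η a (mix B ω₁ (mix (B ∪ S) ω₂ ω₃)) (T0 S L) x ^ 2) (C := L / (2 * η x))
    (Filter.Eventually.of_forall fun ω₃ => by
      have h1 := eta_sq_le hK hη (V := V) (c := c) a (T0_im (S := S) hL)
        (mix B ω₁ (mix (B ∪ S) ω₂ ω₃)) x
      have h2 := vf_le_one c (ω₂ x)
      have h3 := vf_nonneg c (ω₂ x)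
      rw [norm_mul, norm_mul, norm_mul, norm_neg, norm_mul, Complex.norm_I, Complex.norm_real,
        Complex.norm_real, norm_pow, Real.norm_of_nonneg hL, Real.norm_of_nonneg h3,
        Complex.norm_ofNat]
      calc 2 * 1 * L * vf c (ω₂ x) * ‖Gc K V c η a (mix B ω₁ (mix (B ∪ S) ω₂ ω₃)) (T0 S L) x‖ ^ 2
          ≤ 2 * 1 * L * 1 * (1 / (4 * η x)) := by gcongr
        _ = _ := by field_simp; ring)
  unfold bb
  simpa using h

/-- the derivative as a circle mean -/
theorem der_id {L : ℝ} (hL : 0 < L) {e : ι → ℝ} (he : ∀ x, |e x| ≤ 1) (ω₁ ω₂ : ι → ℝ)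
    (hBS : Disjoint B S) :
    ∑ x ∈ S, (e x : ℂ) * bb K V c η a B S L x ω₁ ω₂ =
      ∫ θ : ℝ, Complex.exp (-(θ * I)) * (Ph K V c η a B S (fun x =>
        ((if x ∈ S then L * e x * Real.cos θ else 0 : ℝ) : ℂ) -
          I * ((if x ∈ S then L * (1 - e x * Real.sin θ) else 0 : ℝ) : ℂ)) ω₁ ω₂ -
        cz K V c η a B ω₁) ∂nu := by
  have hP := PI_prob (ι := ι) hc
  set c₀ := cz K V c η a B ω₁ with hc0
  have hc₀ : ‖c₀‖ ≤ 1 := cz_le hK hη hc ω₁
  set Ω : (ι → ℝ) → ι → ℝ := fun ω₃ => mix B ω₁ (mix (B ∪ S) ω₂ ω₃) with hΩ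
  have hΩm : Measurable Ω := meas_mix_of B measurable_const
    (meas_mix_of (B ∪ S) measurable_const measurable_id)
  set b : ι → ℂ := fun x => if x ∈ S then (L : ℂ) * (e x : ℂ) else 0 with hb
  set τ : ℂ → ι → ℂ := fun z x => T0 S L x + z * b x with hτdef
  have hτ : ∀ z : ℂ, ‖z‖ ≤ 1 → ∀ x, (τ z x).im ≤ 0 := by
    intro z hz x
    rw [hτdef, hb]
    unfold T0
    dsimp only
    by_cases hx : x ∈ S
    · simp only [hx, if_true]
      have h1 : |z.im| ≤ 1 := (Complex.abs_im_le_norm z).trans hz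
      have h2 : e x * z.im ≤ 1 := by
        calc e x * z.im ≤ |e x * z.im| := le_abs_self _
          _ = |e x| * |z.im| := abs_mul _ _
          _ ≤ 1 * 1 := mul_le_mul (he x) h1 (abs_nonneg _) zero_le_one
          _ = 1 := one_mul 1
      simp
      nlinarith
    · simp only [hx, if_false]
      simp
  have hτ1 : ∀ θ : ℝ, τ (Complex.exp (θ * I)) = fun x =>
        ((if x ∈ S then L * e x * Real.cos θ else 0 : ℝ) : ℂ) -
          I * ((if x ∈ S then L * (1 - e x * Real.sin θ) else 0 : ℝ) : ℂ) := by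
    intro θ
    funext x
    rw [hτdef, hb]
    unfold T0
    dsimp only
    by_cases hx : x ∈ S
    · simp only [hx, if_true]
      rw [Complex.exp_mul_I]
      push_cast
      ring
    · simp only [hx, if_false]
      simp
  have hτ0 : τ 0 = T0 S L := by
    funext x
    rw [hτdef]
    simp
  have hnorm : ∀ θ : ℝ, ‖Complex.exp (θ * I)‖ ≤ 1 := fun θ => by
    rw [Complex.norm_exp_ofReal_mul_I]
  have hnorm' : ∀ θ : ℝ, ‖Complex.exp (-(θ * I))‖ = 1 := fun θ => by
    have := Complex.norm_exp_ofReal_mul_I (-θ)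
    rw [← this]
    congr 2
    push_cast
    ring
  -- one configuration
  have hone : ∀ ω₃ : ι → ℝ, ∑ x ∈ S, (e x : ℂ) * (-(2 * I) * (L : ℂ) * (vf c (ω₂ x) : ℂ) *
      Gc K V c η a (Ω ω₃) (T0 S L) x ^ 2) =
      ∫ θ : ℝ, Complex.exp (-(θ * I)) * (Rc K V c η a (Ω ω₃) (τ (Complex.exp (θ * I))) - c₀) ∂nu := by
    intro ω₃
    have hf : ∀ z : ℂ, ‖z‖ ≤ 1 → DifferentiableAt ℂ (fun z => Rc K V c η a (Ω ω₃) (τ z) - c₀) z := by
      intro z hz
      refine DifferentiableAt.sub_const ?_ c₀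
      refine Rc_diff hK hη a (Ω ω₃) (τ := τ) (z := z) (hτ z hz) fun x => ?_
      rw [hτdef]
      exact (differentiableAt_const _).add (differentiableAt_id.mul (differentiableAt_const _))
    rw [int_nu, ← circle_der hf]
    have hd := (Rc_deriv hK (V := V) (c := c) hη a (Ω ω₃) (τ0 := T0 S L) (b := b) (T0_im hL.le)).sub_const c₀
    rw [hd.deriv]
    rw [hb]
    simp only [ite_mul, zero_mul, Finset.sum_ite_mem, Finset.univ_inter]
    refine Finset.sum_congr rfl fun x hx => ?_
    have hxB : x ∉ B := fun h => Finset.disjoint_left.1 hBS h hx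
    have e3 : Ω ω₃ x = ω₂ x := by
      rw [hΩ]
      unfold mix
      simp only [hxB, if_false, Finset.mem_union_right B hx, if_true]
    rw [e3]
    ring
  -- integrate
  have hGm : ∀ x, Measurable fun ω₃ => Gc K V c η a (Ω ω₃) (T0 S L) x := fun x =>
    meas_Gc K V c η a (w := Ω) (fun y => (measurable_pi_apply y).comp hΩm) (t := fun _ => T0 S L)
      (fun y => measurable_const) x
  have hGi : ∀ x, Integrable (fun ω₃ => -(2 * I) * (L : ℂ) * (vf c (ω₂ x) : ℂ) *
      Gc K V c η a (Ω ω₃) (T0 S L) x ^ 2) (PI c ι) := by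
    intro x
    refine Integrable.const_mul ?_ _
    refine Integrable.of_bound ((hGm x).pow_const 2).aestronglyMeasurable (1 / (4 * η x))
      (Filter.Eventually.of_forall fun ω₃ => ?_)
    rw [norm_pow]
    exact eta_sq_le hK hη a (T0_im hL.le) (Ω ω₃) x
  have hL1 : ∑ x ∈ S, (e x : ℂ) * bb K V c η a B S L x ω₁ ω₂ = ∫ ω₃, ∑ x ∈ S, (e x : ℂ) *
      (-(2 * I) * (L : ℂ) * (vf c (ω₂ x) : ℂ) * Gc K V c η a (Ω ω₃) (T0 S L) x ^ 2) ∂(PI c ι) := by
    rw [integral_finsetSum _ fun x _ => (hGi x).const_mul _]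
    refine Finset.sum_congr rfl fun x _ => ?_
    rw [integral_const_mul]
    rfl
  rw [hL1]
  simp only [hone]
  rw [integral_integral_swap]
  · refine integral_congr_ae (Filter.Eventually.of_forall fun θ => ?_)
    dsimp only
    rw [integral_const_mul]
    congr 1
    have hi : Integrable (fun ω₃ => Rc K V c η a (Ω ω₃) (τ (Complex.exp (θ * I)))) (PI c ι) := by
      refine Integrable.of_bound ?_ 1
        (Filter.Eventually.of_forall fun ω₃ => Rc_le hK hη a (hτ _ (hnorm θ)) _)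
      exact (meas_Rc K V c η a (w := Ω) (fun x => (measurable_pi_apply x).comp hΩm)
        (t := fun _ => τ (Complex.exp (θ * I))) fun x => measurable_const).aestronglyMeasurable
    rw [integral_sub hi (integrable_const _), integral_const, hτ1 θ]
    simp only [probReal_univ, one_smul]
    rfl
  · refine Integrable.of_bound ?_ 2 (Filter.Eventually.of_forall fun z => ?_)
    · refine Measurable.aestronglyMeasurable ?_
      refine Measurable.mul ?_ (Measurable.sub_const ?_ c₀)
      · refine Complex.measurable_exp.comp (Measurable.neg ?_)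
        exact (Complex.measurable_ofReal.comp measurable_snd).mul measurable_const
      · refine meas_Rc K V c η a (Ω := (ι → ℝ) × ℝ) (w := fun z => Ω z.1)
          (fun x => (measurable_pi_apply x).comp (hΩm.comp measurable_fst))
          (t := fun z x => τ (Complex.exp (z.2 * I)) x) fun x => ?_
        rw [hτdef]
        refine measurable_const.add (Measurable.mul ?_ measurable_const)
        exact Complex.measurable_exp.comp
          ((Complex.measurable_ofReal.comp measurable_snd).mul measurable_const)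
    · simp only [Function.uncurry]
      rw [norm_mul, hnorm', one_mul]
      have h1 := Rc_le hK (V := V) (c := c) hη a (hτ _ (hnorm z.2)) (Ω z.1)
      exact (norm_sub_le _ _).trans (by linarith)

/-- the derivatives are small in mean square -/
theorem b_sum {L : ℝ} (hL : 0 < L) (hBS : Disjoint B S) (ω₁ : ι → ℝ) {Q : ℝ}
    (hQ : ∀ (u w : ι → ℝ), (∀ x, x ∉ S → u x = 0) → (∀ x, x ∉ S → w x = 0) → (∀ x, |u x| ≤ L) →
      (∀ x, 0 ≤ w x) → (∀ x, w x ≤ 2 * L) →
      ∫ ω₂, ‖Ph K V c η a B S (fun x => (u x : ℂ) - I * (w x : ℂ)) ω₁ ω₂ - cz K V c η a B ω₁‖ ^ 2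
        ∂(PI c ι) ≤ Q) :
    ∫ ω₂, ∑ x ∈ S, ‖bb K V c η a B S L x ω₁ ω₂‖ ^ 2 ∂(PI c ι) ≤ Q := by
  have hP := PI_prob (ι := ι) hc
  have hsg : ∀ (T : Finset ι) (x : ι), |(if x ∈ T then (1 : ℝ) else -1)| ≤ 1 := by
    intro T x
    split_ifs <;> simp
  -- one choice of signs
  have hone : ∀ e : ι → ℝ, (∀ x, |e x| ≤ 1) →
      ∫ ω₂, ‖∑ x ∈ S, (e x : ℂ) * bb K V c η a B S L x ω₁ ω₂‖ ^ 2 ∂(PI c ι) ≤ Q := by
    intro e he
    set u : ℝ → ι → ℝ := fun θ x => if x ∈ S then L * e x * Real.cos θ else 0 with hu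
    set w : ℝ → ι → ℝ := fun θ x => if x ∈ S then L * (1 - e x * Real.sin θ) else 0 with hw
    set F : (ι → ℝ) → ℝ → ℂ := fun ω₂ θ => Ph K V c η a B S (fun x =>
        (u θ x : ℂ) - I * (w θ x : ℂ)) ω₁ ω₂ - cz K V c η a B ω₁ with hF
    have hes : ∀ θ x, |e x * Real.sin θ| ≤ 1 := fun θ x => by
      rw [abs_mul]
      calc |e x| * |Real.sin θ| ≤ 1 * 1 :=
            mul_le_mul (he x) (Real.abs_sin_le_one θ) (abs_nonneg _) zero_le_one
        _ = 1 := one_mul 1
    have hw0 : ∀ θ x, 0 ≤ w θ x := fun θ x => by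
      rw [hw]
      dsimp only
      split_ifs
      · have := (abs_le.1 (hes θ x)).2
        exact mul_nonneg hL.le (by linarith)
      · exact le_rfl
    have hw2 : ∀ θ x, w θ x ≤ 2 * L := fun θ x => by
      rw [hw]
      dsimp only
      split_ifs
      · have := (abs_le.1 (hes θ x)).1
        nlinarith
      · linarith
    have huL : ∀ θ x, |u θ x| ≤ L := fun θ x => by
      rw [hu]
      dsimp only
      split_ifs
      · rw [mul_assoc, abs_mul, abs_of_pos hL, abs_mul]
        have : |e x| * |Real.cos θ| ≤ 1 * 1 :=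
          mul_le_mul (he x) (Real.abs_cos_le_one θ) (abs_nonneg _) zero_le_one
        nlinarith
      · rw [abs_zero]; exact hL.le
    have hF2 : ∀ ω₂ θ, ‖F ω₂ θ‖ ≤ 2 := by
      intro ω₂ θ
      refine diff_le hK hη hc (fun x => ?_) ω₁ ω₂
      simp [hw0 θ x]
    have hFm : Measurable (Function.uncurry F) := by
      refine Measurable.sub_const ?_ _
      refine meas_Ph hc (Ω := (ι → ℝ) × ℝ) (t := fun z x => (u z.2 x : ℂ) - I * (w z.2 x : ℂ))
        (fun x => ?_) (w₁ := fun _ => ω₁) (w₂ := fun z => z.1) measurable_const measurable_fst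
      refine Measurable.sub (Complex.measurable_ofReal.comp ?_)
        (measurable_const.mul (Complex.measurable_ofReal.comp ?_))
      · rw [hu]
        dsimp only
        by_cases hx : x ∈ S
        · simp only [hx, if_true]
          exact measurable_const.mul (Real.measurable_cos.comp measurable_snd)
        · simp only [hx, if_false]
          exact measurable_const
      · rw [hw]
        dsimp only
        by_cases hx : x ∈ S
        · simp only [hx, if_true]
          exact measurable_const.mul (measurable_const.sub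
            (measurable_const.mul (Real.measurable_sin.comp measurable_snd)))
        · simp only [hx, if_false]
          exact measurable_const
    have hnorm' : ∀ θ : ℝ, ‖Complex.exp (-(θ * I))‖ = 1 := fun θ => by
      have := Complex.norm_exp_ofReal_mul_I (-θ)
      rw [← this]
      congr 2
      push_cast
      ring
    have hint : Integrable (Function.uncurry fun ω₂ θ => ‖F ω₂ θ‖ ^ 2) ((PI c ι).prod nu) := by
      refine Integrable.of_bound (hFm.norm.pow_const 2).aestronglyMeasurable 4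
        (Filter.Eventually.of_forall fun z => ?_)
      have h := hF2 z.1 z.2
      simp only [Function.uncurry]
      rw [Real.norm_of_nonneg (sq_nonneg _)]
      have h0 := norm_nonneg (F z.1 z.2)
      nlinarith
    calc ∫ ω₂, ‖∑ x ∈ S, (e x : ℂ) * bb K V c η a B S L x ω₁ ω₂‖ ^ 2 ∂(PI c ι)
        ≤ ∫ ω₂, ∫ θ, ‖F ω₂ θ‖ ^ 2 ∂nu ∂(PI c ι) := by
          refine integral_mono_of_nonneg (Filter.Eventually.of_forall fun _ => sq_nonneg _)
            hint.integral_prod_left (Filter.Eventually.of_forall fun ω₂ => ?_)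
          dsimp only
          rw [der_id hK hη hc hL he ω₁ ω₂ hBS]
          have hFθ : Measurable (F ω₂) := hFm.of_uncurry_left
          have hm : Measurable fun θ : ℝ => Complex.exp (-(θ * I)) * F ω₂ θ := by
            refine Measurable.mul ?_ hFθ
            exact Complex.measurable_exp.comp
              (Complex.measurable_ofReal.mul measurable_const).neg
          have hb2 : ∀ θ : ℝ, ‖Complex.exp (-(θ * I)) * F ω₂ θ‖ = ‖F ω₂ θ‖ := fun θ => by
            rw [norm_mul, hnorm', one_mul]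
          refine (sq_int_le (μ := nu) hm (M := 2) fun θ => ?_).trans (le_of_eq ?_)
          · rw [hb2]; exact hF2 _ _
          · simp only [hb2]
      _ = ∫ θ, ∫ ω₂, ‖F ω₂ θ‖ ^ 2 ∂(PI c ι) ∂nu := integral_integral_swap hint
      _ ≤ ∫ θ : ℝ, Q ∂nu := by
          refine integral_mono_of_nonneg (Filter.Eventually.of_forall fun _ =>
            integral_nonneg fun _ => sq_nonneg _) (integrable_const _)
            (Filter.Eventually.of_forall fun θ => ?_)
          exact hQ (u θ) (w θ) (fun x hx => by rw [hu]; simp [hx]) (fun x hx => by rw [hw]; simp [hx])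
            (huL θ) (hw0 θ) (hw2 θ)
      _ = Q := by simp
  have hbi : ∀ e : ι → ℝ, Integrable (fun ω₂ => ‖∑ x ∈ S, (e x : ℂ) *
      bb K V c η a B S L x ω₁ ω₂‖ ^ 2) (PI c ι) := by
    intro e
    have hbm : ∀ x, Measurable fun ω₂ : ι → ℝ => bb K V c η a B S L x ω₁ ω₂ := fun x =>
      meas_bb (K := K) (V := V) (η := η) (a := a) (B := B) (S := S) hc L x (Ω := ι → ℝ)
        (w₁ := fun _ => ω₁) (w₂ := fun s => s) measurable_const measurable_id
    have hm : Measurable fun ω₂ : ι → ℝ => ∑ x ∈ S, (e x : ℂ) * bb K V c η a B S L x ω₁ ω₂ := by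
      refine Finset.measurable_fun_sum S fun x _ => ?_
      exact (hbm x).const_mul (e x : ℂ)
    refine Integrable.of_bound (hm.norm.pow_const 2).aestronglyMeasurable
      ((∑ x ∈ S, ‖(e x : ℂ)‖ * (L / (2 * η x))) ^ 2) (Filter.Eventually.of_forall fun ω₂ => ?_)
    rw [Real.norm_of_nonneg (sq_nonneg _)]
    refine pow_le_pow_left₀ (norm_nonneg _) ((norm_sum_le _ _).trans ?_) 2
    refine Finset.sum_le_sum fun x _ => ?_
    rw [norm_mul]
    exact mul_le_mul_of_nonneg_left (bb_le hK hη hc hL.le x ω₁ ω₂) (norm_nonneg _)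
  have hid : ∀ ω₂, ∑ x ∈ S, ‖bb K V c η a B S L x ω₁ ω₂‖ ^ 2 = ((2 : ℝ) ^ S.card)⁻¹ *
      ∑ T ∈ S.powerset, ‖∑ x ∈ S, (((if x ∈ T then 1 else -1 : ℝ)) : ℂ) *
        bb K V c η a B S L x ω₁ ω₂‖ ^ 2 := by
    intro ω₂
    have h := sgn_sum (fun x => bb K V c η a B S L x ω₁ ω₂) S 0
    simp only [zero_add, norm_zero] at h
    rw [h]
    field_simp
    ring
  simp only [hid]
  rw [integral_const_mul, integral_finsetSum _ fun T _ => hbi _]
  have h1 : ∑ T ∈ S.powerset, ∫ ω₂, ‖∑ x ∈ S, (((if x ∈ T then 1 else -1 : ℝ)) : ℂ) *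
        bb K V c η a B S L x ω₁ ω₂‖ ^ 2 ∂(PI c ι) ≤ 2 ^ S.card * Q := by
    calc _ ≤ ∑ T ∈ S.powerset, Q := Finset.sum_le_sum fun T _ => hone _ (hsg T)
      _ = _ := by rw [Finset.sum_const, Finset.card_powerset, nsmul_eq_mul]; push_cast; ring
  calc _ ≤ ((2 : ℝ) ^ S.card)⁻¹ * (2 ^ S.card * Q) := mul_le_mul_of_nonneg_left h1 (by positivity)
    _ = Q := by field_simp

end

end Pool.Agent.L0h56.ST.M
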