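import Pool.Agent.L0h56.ST.Def
import Pool.Agent.H4R2.LO.Ap

/-!
Module M3: from the transmission amplitude to fractional moments of the Green function.
-/

set_option autoImplicit false
set_option linter.unusedSectionVars false
set_option linter.unusedVariables false

open scoped BigOperators ENNReal
open Complex MeasureTheory Filter Topology Pool.Agent.L0h56.CS Pool.Agent.L0h56.SL

namespace Pool.Agent.L0h56.ST

namespace Cmp

variable {ι : Type} [Fintype ι] [DecidableEq ι]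

/-- the determinant of the rank two perturbation -/
noncomputable def Dt (K : ι → ι → ℝ) (p : ι → ℂ) (a b : ι) (u v : ℂ) : ℂ :=
  1 + u * CS.Gr K p a a + v * CS.Gr K p b b +
    u * v * (CS.Gr K p a a * CS.Gr K p b b - CS.Gr K p a b ^ 2)

/-- rank two perturbation -/
theorem two {K : ι → ι → ℝ} (hK : ∀ x y, K x y = K y x) {p : ι → ℂ} (hp : ∀ x, (p x).im < 0)
    (a b : ι) (hab : a ≠ b) (u v : ℂ) (hu : u.im ≤ 0) (hv : v.im ≤ 0) :
    Dt K p a b u v ≠ 0 ∧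
    CS.Gr K (Function.update (Function.update p a (p a + u)) b (p b + v)) a b =
      CS.Gr K p a b / Dt K p a b u v := by
  have h1 : (p a + u).im < 0 := by rw [add_im]; have := hp a; linarith
  set p1 := Function.update p a (p a + u) with hp1
  have hp1' : ∀ x, (p1 x).im < 0 := by
    intro x
    by_cases hx : x = a
    · subst hx; rw [hp1, Function.update_self]; exact h1
    · rw [hp1, Function.update_of_ne hx]; exact hp x
  have hb : p1 b = p b := by rw [hp1, Function.update_of_ne hab.symm]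
  have h2 : (p1 b + v).im < 0 := by rw [hb, add_im]; have := hp b; linarith
  have n1 := CS.one_add_ne hK hp a u h1
  have n2 := CS.one_add_ne hK hp1' b v h2
  have e1 := CS.Gr_update hK hp a u h1 a b
  have e2 := CS.Gr_update hK hp a u h1 b b
  have e3 := CS.Gr_update hK hp1' b v h2 a b
  rw [← hp1] at e1 e2
  rw [hb] at e3
  have hs : CS.Gr K p b a = CS.Gr K p a b := CS.Gr_symm hK p b a
  rw [hs] at e2
  unfold Dt
  set α := CS.Gr K p a a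
  set β := CS.Gr K p a b
  set γ := CS.Gr K p b b
  have hD : 1 + u * α + v * γ + u * v * (α * γ - β ^ 2) =
      (1 + u * α) * (1 + v * CS.Gr K p1 b b) := by
    rw [e2]
    field_simp
    ring
  refine ⟨?_, ?_⟩
  · rw [hD]
    exact mul_ne_zero n1 n2
  · rw [hD, e3, eq_div_iff (mul_ne_zero n1 n2)]
    have e4 : CS.Gr K p1 a b * (1 + u * α) = β := by
      rw [e1]
      field_simp
      ring
    have e5 : (CS.Gr K p1 a b - v * CS.Gr K p1 a b * CS.Gr K p1 b b / (1 + v * CS.Gr K p1 b b)) *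
        (1 + v * CS.Gr K p1 b b) = CS.Gr K p1 a b := by
      field_simp
      ring
    calc _ = ((CS.Gr K p1 a b - v * CS.Gr K p1 a b * CS.Gr K p1 b b /
          (1 + v * CS.Gr K p1 b b)) * (1 + v * CS.Gr K p1 b b)) * (1 + u * α) := by ring
      _ = _ := by rw [e5, e4]

/-- no leads -/
noncomputable def pe (E η : ℝ) (ω : ι → ℝ) (x : ι) : ℂ := ((-E + ω x : ℝ) : ℂ) - η * I

/-- with leads at `a` and `b` -/
noncomputable def pl (E η : ℝ) (a b : ι) (ω : ι → ℝ) (x : ι) : ℂ :=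
  ((-E + ω x : ℝ) : ℂ) - η * I - (if x = a then I else 0) - (if x = b then I else 0)

/-- set the values at `a` and `b` to zero -/
def zz (a b : ι) (ω : ι → ℝ) : ι → ℝ := Function.update (Function.update ω a 0) b 0

theorem zz_upd (a b : ι) (ω : ι → ℝ) (s t : ℝ) :
    zz a b (Function.update (Function.update ω a s) b t) = zz a b ω := by
  funext x
  unfold zz
  by_cases hb : x = b
  · subst hb; simp
  · by_cases ha : x = a
    · subst ha; simp [hb]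
    · simp [ha, hb]

theorem pe_im (E : ℝ) {η : ℝ} (hη : 0 < η) (ω : ι → ℝ) (x : ι) : (pe E η ω x).im < 0 := by
  unfold pe
  simp [hη]

theorem pl_im (E η : ℝ) (a b : ι) (ω : ι → ℝ) (x : ι) : (pl E η a b ω x).im ≤ -η := by
  unfold pl
  split_ifs <;> (simp; try linarith)

theorem pe_eq (E η : ℝ) (a b : ι) (hab : a ≠ b) (ω : ι → ℝ) :
    pe E η ω = Function.update (Function.update (pe E η (zz a b ω)) a
      (pe E η (zz a b ω) a + (ω a : ℂ))) b (pe E η (zz a b ω) b + (ω b : ℂ)) := by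
  funext x
  unfold pe zz
  by_cases hb : x = b
  · subst hb
    simp
    ring
  · by_cases ha : x = a
    · subst ha
      simp [hb]
      ring
    · simp [ha, hb]

theorem pl_eq (E η : ℝ) (a b : ι) (hab : a ≠ b) (ω : ι → ℝ) :
    pl E η a b ω = Function.update (Function.update (pe E η (zz a b ω)) a
      (pe E η (zz a b ω) a + ((ω a : ℂ) - I))) b (pe E η (zz a b ω) b + ((ω b : ℂ) - I)) := by
  funext x
  unfold pl pe zz
  by_cases hb : x = b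
  · subst hb
    simp [hab.symm]
    ring
  · by_cases ha : x = a
    · subst ha
      simp [hb]
      ring
    · simp [ha, hb]

noncomputable def Dv (K : ι → ι → ℝ) (E η : ℝ) (a b : ι) (ω : ι → ℝ) : ℂ :=
  Dt K (pe E η (zz a b ω)) a b (ω a) (ω b)

noncomputable def Dl (K : ι → ι → ℝ) (E η : ℝ) (a b : ι) (ω : ι → ℝ) : ℂ :=
  Dt K (pe E η (zz a b ω)) a b ((ω a : ℂ) - I) ((ω b : ℂ) - I)

theorem ge_eq {K : ι → ι → ℝ} (hK : ∀ x y, K x y = K y x) (E : ℝ) {η : ℝ} (hη : 0 < η) (a b : ι)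
    (hab : a ≠ b) (ω : ι → ℝ) : Dv K E η a b ω ≠ 0 ∧
    CS.Gr K (pe E η ω) a b = CS.Gr K (pe E η (zz a b ω)) a b / Dv K E η a b ω := by
  have h := two hK (pe_im E hη (zz a b ω)) a b hab (ω a) (ω b) (by simp) (by simp)
  rw [← pe_eq E η a b hab ω] at h
  exact h

theorem gl_eq {K : ι → ι → ℝ} (hK : ∀ x y, K x y = K y x) (E : ℝ) {η : ℝ} (hη : 0 < η) (a b : ι)
    (hab : a ≠ b) (ω : ι → ℝ) : Dl K E η a b ω ≠ 0 ∧
    CS.Gr K (pl E η a b ω) a b = CS.Gr K (pe E η (zz a b ω)) a b / Dl K E η a b ω := by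
  have h := two hK (pe_im E hη (zz a b ω)) a b hab ((ω a : ℂ) - I) ((ω b : ℂ) - I)
    (by simp) (by simp)
  rw [← pl_eq E η a b hab ω] at h
  exact h

/-! ### anticoncentration -/

theorem anti {x y : ℝ≥0∞} (h : x ≤ y) {s : ℝ} (hs : 0 ≤ s) : y ^ (-s) ≤ x ^ (-s) := by
  rw [ENNReal.rpow_neg, ENNReal.rpow_neg, ENNReal.inv_le_inv]
  exact ENNReal.rpow_le_rpow h hs

theorem half_lt : ∫⁻ y in Set.Icc (0 : ℝ) 1, ‖y‖ₑ ^ (-(2 / 7) : ℝ) < ∞ := by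
  have h1 : ∫⁻ y in Set.Icc (0 : ℝ) 1, ‖y‖ₑ ^ (-(2 / 7) : ℝ) =
      ∫⁻ y in Set.Ioc (0 : ℝ) 1, ENNReal.ofReal (y ^ (-(2 / 7) : ℝ)) := by
    rw [setLIntegral_congr Ioc_ae_eq_Icc.symm]
    refine setLIntegral_congr_fun measurableSet_Ioc fun y hy => ?_
    rw [Real.enorm_eq_ofReal_abs, abs_of_pos hy.1, ENNReal.ofReal_rpow_of_pos hy.1]
  have h2 : IntegrableOn (fun y : ℝ => y ^ (-(2 / 7) : ℝ)) (Set.Ioc (0 : ℝ) 1) := by
    have := intervalIntegral.intervalIntegrable_rpow' (a := 0) (b := 1) (r := (-(2 / 7) : ℝ))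
      (by norm_num)
    rw [intervalIntegrable_iff_integrableOn_Ioc_of_le zero_le_one] at this
    exact this
  rw [h1, ← ofReal_integral_eq_lintegral_ofReal h2]
  · exact ENNReal.ofReal_lt_top
  · filter_upwards [ae_restrict_mem measurableSet_Ioc] with y hy
    exact Real.rpow_nonneg hy.1.le _

noncomputable def c1 : ℝ≥0∞ := 2 * (∫⁻ y in Set.Icc (0 : ℝ) 1, ‖y‖ₑ ^ (-(2 / 7) : ℝ)) + 2

theorem c1_ne : c1 ≠ ∞ := by
  unfold c1
  have := half_lt.ne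
  exact ENNReal.add_ne_top.2 ⟨ENNReal.mul_ne_top (by norm_num) this, by norm_num⟩

theorem one_var (x : ℝ) : ∫⁻ w, ‖w + x‖ₑ ^ (-(2 / 7) : ℝ) ∂(unif 1) ≤ c1 := by
  set f : ℝ → ℝ≥0∞ := fun y => ‖y‖ₑ ^ (-(2 / 7) : ℝ) with hf
  have hfm : Measurable f := measurable_enorm.pow_const _
  set g : ℝ → ℝ≥0∞ := (Set.Icc (0 : ℝ) 1).indicator f with hg
  have hgm : Measurable g := hfm.indicator measurableSet_Icc
  have hgi : ∫⁻ y, g y = ∫⁻ y in Set.Icc (0 : ℝ) 1, f y := lintegral_indicator measurableSet_Icc _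
  have hpt : ∀ y, f y ≤ g y + g (-y) + 1 := by
    intro y
    by_cases h1 : y ∈ Set.Icc (0 : ℝ) 1
    · have : g y = f y := Set.indicator_of_mem h1 _
      rw [this, add_assoc]
      exact le_self_add
    · by_cases h2 : -y ∈ Set.Icc (0 : ℝ) 1
      · have : g (-y) = f y := by
          rw [hg, Set.indicator_of_mem h2]
          simp only [hf, enorm_neg]
        rw [this]
        exact le_add_right le_add_self
      · have h3 : 1 ≤ |y| := by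
          by_contra h4
          push Not at h4
          rw [abs_lt] at h4
          rcases le_total 0 y with h5 | h5
          · exact h1 ⟨h5, h4.2.le⟩
          · exact h2 ⟨by linarith, by linarith⟩
        have h6 : f y ≤ 1 := by
          simp only [hf]
          apply ENNReal.rpow_le_one_of_one_le_of_neg _ (by norm_num)
          rw [Real.enorm_eq_ofReal_abs, ENNReal.one_le_ofReal]
          exact h3
        exact h6.trans le_add_self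
  calc ∫⁻ w, f (w + x) ∂(unif 1)
      ≤ ∫⁻ w in Set.Icc (-1 : ℝ) 1, f (w + x) := by
        unfold unif
        rw [lintegral_smul_measure, smul_eq_mul]
        calc _ ≤ 1 * ∫⁻ w in Set.Icc (-1 : ℝ) 1, f (w + x) := by
              gcongr
              rw [ENNReal.ofReal_le_one]
              norm_num
          _ = _ := one_mul _
    _ ≤ ∫⁻ w in Set.Icc (-1 : ℝ) 1, ((g (w + x) + g (-(w + x))) + 1) :=
        lintegral_mono fun w => hpt (w + x)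
    _ = (∫⁻ w in Set.Icc (-1 : ℝ) 1, (g (w + x) + g (-(w + x)))) + 2 := by
        rw [lintegral_add_right _ measurable_const, lintegral_const,
          Measure.restrict_apply MeasurableSet.univ, Set.univ_inter, Real.volume_Icc]
        norm_num
    _ ≤ (∫⁻ w, (g (w + x) + g (-(w + x)))) + 2 := by
        gcongr
        exact Measure.restrict_le_self
    _ = c1 := by
        have h1 : ∫⁻ w, g (w + x) = ∫⁻ y, g y := lintegral_add_right_eq_self g x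
        have h2 : ∫⁻ w, g (-(w + x)) = ∫⁻ y, g y := by
          rw [lintegral_add_right_eq_self (fun y => g (-y)) x]
          exact lintegral_neg_eq_self g
        have hgx : Measurable (fun w => g (w + x)) := hgm.comp (measurable_id.add_const x)
        rw [lintegral_add_left hgx, h1, h2, hgi]
        unfold c1
        ring

theorem unif_ae : ∀ᵐ w ∂(unif 1), |w| ≤ 1 := by
  unfold unif
  apply Measure.ae_smul_measure
  filter_upwards [ae_restrict_mem measurableSet_Icc] with w hw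
  exact abs_le.2 ⟨by linarith [hw.1], hw.2⟩

theorem c1_ne_zero : c1 ≠ 0 := by
  unfold c1
  positivity

/-- the first half of the one variable estimate -/
theorem lemA1 (α β : ℂ) : ∫⁻ w, ‖β + (w : ℂ) * α‖ₑ ^ (-(2 / 7) : ℝ) ∂(unif 1) ≤
    c1 * ‖α‖ₑ ^ (-(2 / 7) : ℝ) := by
  by_cases hα : α = 0
  · rw [hα, enorm_zero, ENNReal.zero_rpow_of_neg (by norm_num), ENNReal.mul_top c1_ne_zero]
    exact le_top
  · have hpt : ∀ w : ℝ, ‖β + (w : ℂ) * α‖ₑ ^ (-(2 / 7) : ℝ) ≤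
        ‖w + (β / α).re‖ₑ ^ (-(2 / 7) : ℝ) * ‖α‖ₑ ^ (-(2 / 7) : ℝ) := by
      intro w
      have h1 : β + (w : ℂ) * α = ((w : ℂ) + β / α) * α := by
        field_simp
        ring
      rw [h1, enorm_mul, ENNReal.mul_rpow_of_ne_top (by simp) (by simp)]
      refine mul_le_mul' (anti ?_ (by norm_num)) le_rfl
      have h2 : |((w : ℂ) + β / α).re| ≤ ‖(w : ℂ) + β / α‖ := Complex.abs_re_le_norm _
      rw [add_re, ofReal_re] at h2
      rw [Real.enorm_eq_ofReal_abs, ← ofReal_norm]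
      exact ENNReal.ofReal_le_ofReal h2
    calc ∫⁻ w, ‖β + (w : ℂ) * α‖ₑ ^ (-(2 / 7) : ℝ) ∂(unif 1)
        ≤ ∫⁻ w, ‖w + (β / α).re‖ₑ ^ (-(2 / 7) : ℝ) * ‖α‖ₑ ^ (-(2 / 7) : ℝ) ∂(unif 1) :=
          lintegral_mono fun w => hpt w
      _ = (∫⁻ w, ‖w + (β / α).re‖ₑ ^ (-(2 / 7) : ℝ) ∂(unif 1)) * ‖α‖ₑ ^ (-(2 / 7) : ℝ) := by
          rw [lintegral_mul_const]
          exact ((measurable_id.add_const _).enorm).pow_const _
      _ ≤ _ := by
          gcongr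
          exact one_var _

noncomputable def k0 : ℝ≥0∞ := (2⁻¹ : ℝ≥0∞) ^ (-(2 / 7) : ℝ)

noncomputable def c2 : ℝ≥0∞ := (c1 + 1) * (k0 + 1)

theorem k0_ne : k0 ≠ ∞ := by
  unfold k0
  rw [ENNReal.rpow_neg]
  simp

theorem c2_ne : c2 ≠ ∞ := by
  unfold c2
  exact ENNReal.mul_ne_top (ENNReal.add_ne_top.2 ⟨c1_ne, by simp⟩)
    (ENNReal.add_ne_top.2 ⟨k0_ne, by simp⟩)

theorem c1_le_c2 : c1 ≤ c2 := by
  unfold c2
  calc c1 ≤ (c1 + 1) * 1 := by rw [mul_one]; exact le_self_add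
    _ ≤ _ := by gcongr; exact le_add_self

theorem k0_le_c2 : k0 ≤ c2 := by
  unfold c2
  calc k0 ≤ 1 * (k0 + 1) := by rw [one_mul]; exact le_self_add
    _ ≤ _ := by gcongr; exact le_add_self

theorem c1k0_le_c2 : c1 * k0 ≤ c2 := by
  unfold c2
  gcongr
  · exact le_self_add
  · exact le_self_add

/-- the one variable estimate -/
theorem lemA (α β : ℂ) : ∫⁻ w, ‖β + (w : ℂ) * α‖ₑ ^ (-(2 / 7) : ℝ) ∂(unif 1) ≤
      c2 * ‖α‖ₑ ^ (-(2 / 7) : ℝ) ∧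
    ∫⁻ w, ‖β + (w : ℂ) * α‖ₑ ^ (-(2 / 7) : ℝ) ∂(unif 1) ≤ c2 * ‖β‖ₑ ^ (-(2 / 7) : ℝ) := by
  have hu := unif_prob 1 one_pos
  have h1 := lemA1 α β
  refine ⟨h1.trans (by gcongr; exact c1_le_c2), ?_⟩
  have hhalf : (2⁻¹ * ‖β‖ₑ) ^ (-(2 / 7) : ℝ) = k0 * ‖β‖ₑ ^ (-(2 / 7) : ℝ) := by
    rw [ENNReal.mul_rpow_of_ne_top (by simp) (by simp)]
    rfl
  have h2e : (2⁻¹ : ℝ≥0∞) = ENNReal.ofReal (2⁻¹) := by
    rw [ENNReal.ofReal_inv_of_pos (by norm_num)]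
    norm_num
  rcases le_total ‖α‖ (‖β‖ / 2) with h | h
  · have hpt : ∀ᵐ w : ℝ ∂(unif 1), ‖β + (w : ℂ) * α‖ₑ ^ (-(2 / 7) : ℝ) ≤
        k0 * ‖β‖ₑ ^ (-(2 / 7) : ℝ) := by
      filter_upwards [unif_ae] with w hw
      rw [← hhalf]
      apply anti _ (by norm_num)
      rw [h2e, ← ofReal_norm, ← ofReal_norm, ← ENNReal.ofReal_mul (by norm_num)]
      apply ENNReal.ofReal_le_ofReal
      have h3 : ‖β‖ ≤ ‖β + (w : ℂ) * α‖ + ‖(w : ℂ) * α‖ := by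
        have := norm_sub_le (β + (w : ℂ) * α) ((w : ℂ) * α)
        simpa using this
      rw [norm_mul, Complex.norm_real, Real.norm_eq_abs] at h3
      have h4 : |w| * ‖α‖ ≤ 1 * ‖α‖ := by gcongr
      linarith
    calc _ ≤ ∫⁻ _w : ℝ, k0 * ‖β‖ₑ ^ (-(2 / 7) : ℝ) ∂(unif 1) := lintegral_mono_ae hpt
      _ = k0 * ‖β‖ₑ ^ (-(2 / 7) : ℝ) := by rw [lintegral_const, measure_univ, mul_one]
      _ ≤ _ := by gcongr; exact k0_le_c2
  · refine h1.trans ?_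
    calc c1 * ‖α‖ₑ ^ (-(2 / 7) : ℝ) ≤ c1 * (2⁻¹ * ‖β‖ₑ) ^ (-(2 / 7) : ℝ) := by
          refine mul_le_mul' le_rfl (anti ?_ (by norm_num))
          rw [h2e, ← ofReal_norm, ← ofReal_norm,
            ← ENNReal.ofReal_mul (by norm_num)]
          apply ENNReal.ofReal_le_ofReal
          linarith
      _ = (c1 * k0) * ‖β‖ₑ ^ (-(2 / 7) : ℝ) := by rw [hhalf, mul_assoc]
      _ ≤ _ := by gcongr; exact c1k0_le_c2

/-- the two variable estimate -/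
theorem lemB (d0 d1 d2 d3 : ℂ) (e : ℂ) (he : e = d0 ∨ e = d1 ∨ e = d2 ∨ e = d3) :
    ∫⁻ u, ∫⁻ v, ‖(d0 + (u : ℂ) * d1) + (v : ℂ) * (d2 + (u : ℂ) * d3)‖ₑ ^ (-(2 / 7) : ℝ)
      ∂(unif 1) ∂(unif 1) ≤ c2 * (c2 * ‖e‖ₑ ^ (-(2 / 7) : ℝ)) := by
  have key : ∀ f0 f1 : ℂ, ∫⁻ u, c2 * ‖f0 + (u : ℂ) * f1‖ₑ ^ (-(2 / 7) : ℝ) ∂(unif 1) =
      c2 * ∫⁻ u, ‖f0 + (u : ℂ) * f1‖ₑ ^ (-(2 / 7) : ℝ) ∂(unif 1) := by
    intro f0 f1
    rw [lintegral_const_mul]
    have : Measurable fun u : ℝ => f0 + (u : ℂ) * f1 := by fun_prop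
    exact this.enorm.pow_const _
  have hA : ∫⁻ u, ∫⁻ v, ‖(d0 + (u : ℂ) * d1) + (v : ℂ) * (d2 + (u : ℂ) * d3)‖ₑ ^ (-(2 / 7) : ℝ)
      ∂(unif 1) ∂(unif 1) ≤ c2 * ∫⁻ u, ‖d0 + (u : ℂ) * d1‖ₑ ^ (-(2 / 7) : ℝ) ∂(unif 1) := by
    rw [← key]
    exact lintegral_mono fun u => (lemA (d2 + (u : ℂ) * d3) (d0 + (u : ℂ) * d1)).2
  have hB : ∫⁻ u, ∫⁻ v, ‖(d0 + (u : ℂ) * d1) + (v : ℂ) * (d2 + (u : ℂ) * d3)‖ₑ ^ (-(2 / 7) : ℝ)
      ∂(unif 1) ∂(unif 1) ≤ c2 * ∫⁻ u, ‖d2 + (u : ℂ) * d3‖ₑ ^ (-(2 / 7) : ℝ) ∂(unif 1) := by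
    rw [← key]
    exact lintegral_mono fun u => (lemA (d2 + (u : ℂ) * d3) (d0 + (u : ℂ) * d1)).1
  rcases he with rfl | rfl | rfl | rfl
  · exact hA.trans (by gcongr; exact (lemA d1 e).2)
  · exact hA.trans (by gcongr; exact (lemA e d0).1)
  · exact hB.trans (by gcongr; exact (lemA d3 e).2)
  · exact hB.trans (by gcongr; exact (lemA e d2).1)

theorem lemC (d0 d1 d2 d3 : ℂ) (h0 : d0 ≠ 0) :
    ∫⁻ u, ∫⁻ v, (‖(d0 + ((u : ℂ) - I) * d1) + ((v : ℂ) - I) * (d2 + ((u : ℂ) - I) * d3)‖ₑ *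
      ‖(d0 + (u : ℂ) * d1) + (v : ℂ) * (d2 + (u : ℂ) * d3)‖ₑ⁻¹) ^ (2 / 7 : ℝ)
      ∂(unif 1) ∂(unif 1) ≤ (9 : ℝ≥0∞) ^ (2 / 7 : ℝ) * (c2 * c2) := by
  obtain ⟨e, he, hm⟩ : ∃ e, (e = d0 ∨ e = d1 ∨ e = d2 ∨ e = d3) ∧
      (‖d0‖ ≤ ‖e‖ ∧ ‖d1‖ ≤ ‖e‖ ∧ ‖d2‖ ≤ ‖e‖ ∧ ‖d3‖ ≤ ‖e‖) := by
    rcases le_total ‖d0‖ ‖d1‖ with h1 | h1 <;> rcases le_total ‖d2‖ ‖d3‖ with h2 | h2
    · rcases le_total ‖d1‖ ‖d3‖ with h3 | h3
      · exact ⟨d3, by tauto, h1.trans h3, h3, h2, le_rfl⟩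
      · exact ⟨d1, by tauto, h1, le_rfl, h2.trans h3, h3⟩
    · rcases le_total ‖d1‖ ‖d2‖ with h3 | h3
      · exact ⟨d2, by tauto, h1.trans h3, h3, le_rfl, h2⟩
      · exact ⟨d1, by tauto, h1, le_rfl, h3, h2.trans h3⟩
    · rcases le_total ‖d0‖ ‖d3‖ with h3 | h3
      · exact ⟨d3, by tauto, h3, h1.trans h3, h2, le_rfl⟩
      · exact ⟨d0, by tauto, le_rfl, h1, h2.trans h3, h3⟩
    · rcases le_total ‖d0‖ ‖d2‖ with h3 | h3
      · exact ⟨d2, by tauto, h3, h1.trans h3, le_rfl, h2⟩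
      · exact ⟨d0, by tauto, le_rfl, h1, h3, h2.trans h3⟩
  obtain ⟨m0, m1, m2, m3⟩ := hm
  have hepos : 0 < ‖e‖ := (norm_pos_iff.2 h0).trans_le m0
  have he0 : ‖e‖ₑ ≠ 0 := by
    rw [enorm_ne_zero]
    exact norm_pos_iff.1 hepos
  have hui : ∀ u : ℝ, |u| ≤ 1 → ‖(u : ℂ) - I‖ ≤ 2 := by
    intro u hu
    calc ‖(u : ℂ) - I‖ ≤ ‖(u : ℂ)‖ + ‖I‖ := norm_sub_le _ _
      _ ≤ 1 + 1 := by
          rw [Complex.norm_real, Real.norm_eq_abs, Complex.norm_I]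
          linarith
      _ = 2 := by norm_num
  have hN : ∀ u v : ℝ, |u| ≤ 1 → |v| ≤ 1 →
      ‖(d0 + ((u : ℂ) - I) * d1) + ((v : ℂ) - I) * (d2 + ((u : ℂ) - I) * d3)‖ₑ ≤ 9 * ‖e‖ₑ := by
    intro u v hu hv
    have h9 : (9 : ℝ≥0∞) = ENNReal.ofReal 9 := by norm_num
    rw [h9, ← ofReal_norm, ← ofReal_norm, ← ENNReal.ofReal_mul (by norm_num)]
    apply ENNReal.ofReal_le_ofReal
    have k1 := hui u hu
    have k2 := hui v hv
    have h1 : ‖d0 + ((u : ℂ) - I) * d1‖ ≤ 3 * ‖e‖ := by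
      calc ‖d0 + ((u : ℂ) - I) * d1‖ ≤ ‖d0‖ + ‖((u : ℂ) - I) * d1‖ := norm_add_le _ _
        _ = ‖d0‖ + ‖(u : ℂ) - I‖ * ‖d1‖ := by rw [norm_mul]
        _ ≤ ‖e‖ + 2 * ‖e‖ := by gcongr
        _ = 3 * ‖e‖ := by ring
    have h2 : ‖d2 + ((u : ℂ) - I) * d3‖ ≤ 3 * ‖e‖ := by
      calc ‖d2 + ((u : ℂ) - I) * d3‖ ≤ ‖d2‖ + ‖((u : ℂ) - I) * d3‖ := norm_add_le _ _
        _ = ‖d2‖ + ‖(u : ℂ) - I‖ * ‖d3‖ := by rw [norm_mul]
        _ ≤ ‖e‖ + 2 * ‖e‖ := by gcongr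
        _ = 3 * ‖e‖ := by ring
    calc _ ≤ ‖d0 + ((u : ℂ) - I) * d1‖ + ‖((v : ℂ) - I) * (d2 + ((u : ℂ) - I) * d3)‖ :=
          norm_add_le _ _
      _ = ‖d0 + ((u : ℂ) - I) * d1‖ + ‖(v : ℂ) - I‖ * ‖d2 + ((u : ℂ) - I) * d3‖ := by
          rw [norm_mul]
      _ ≤ 3 * ‖e‖ + 2 * (3 * ‖e‖) := by gcongr
      _ = 9 * ‖e‖ := by ring
  have hpt : ∀ u : ℝ, |u| ≤ 1 → ∀ v : ℝ, |v| ≤ 1 →
      (‖(d0 + ((u : ℂ) - I) * d1) + ((v : ℂ) - I) * (d2 + ((u : ℂ) - I) * d3)‖ₑ *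
      ‖(d0 + (u : ℂ) * d1) + (v : ℂ) * (d2 + (u : ℂ) * d3)‖ₑ⁻¹) ^ (2 / 7 : ℝ) ≤
      (9 * ‖e‖ₑ) ^ (2 / 7 : ℝ) *
        ‖(d0 + (u : ℂ) * d1) + (v : ℂ) * (d2 + (u : ℂ) * d3)‖ₑ ^ (-(2 / 7) : ℝ) := by
    intro u hu v hv
    rw [ENNReal.mul_rpow_of_nonneg _ _ (by norm_num), ENNReal.inv_rpow, ← ENNReal.rpow_neg]
    exact mul_le_mul' (ENNReal.rpow_le_rpow (hN u v hu hv) (by norm_num)) le_rfl
  have hmeas : Measurable fun q : ℝ × ℝ =>
      ‖(d0 + (q.1 : ℂ) * d1) + (q.2 : ℂ) * (d2 + (q.1 : ℂ) * d3)‖ₑ ^ (-(2 / 7) : ℝ) := by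
    have : Measurable fun q : ℝ × ℝ =>
      (d0 + (q.1 : ℂ) * d1) + (q.2 : ℂ) * (d2 + (q.1 : ℂ) * d3) := by fun_prop
    exact this.enorm.pow_const _
  calc _ ≤ ∫⁻ u : ℝ, ∫⁻ v : ℝ, (9 * ‖e‖ₑ) ^ (2 / 7 : ℝ) *
        ‖(d0 + (u : ℂ) * d1) + (v : ℂ) * (d2 + (u : ℂ) * d3)‖ₑ ^ (-(2 / 7) : ℝ)
        ∂(unif 1) ∂(unif 1) := by
        refine lintegral_mono_ae ?_
        filter_upwards [unif_ae] with u hu
        refine lintegral_mono_ae ?_
        filter_upwards [unif_ae] with v hv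
        exact hpt u hu v hv
    _ = (9 * ‖e‖ₑ) ^ (2 / 7 : ℝ) * ∫⁻ u : ℝ, ∫⁻ v : ℝ,
        ‖(d0 + (u : ℂ) * d1) + (v : ℂ) * (d2 + (u : ℂ) * d3)‖ₑ ^ (-(2 / 7) : ℝ)
        ∂(unif 1) ∂(unif 1) := by
        have hu := unif_prob 1 one_pos
        exact H4R2.LO.Ap.const_out (unif 1) _ _ hmeas
    _ ≤ (9 * ‖e‖ₑ) ^ (2 / 7 : ℝ) * (c2 * (c2 * ‖e‖ₑ ^ (-(2 / 7) : ℝ))) := by
        gcongr
        exact lemB d0 d1 d2 d3 e he
    _ = (9 : ℝ≥0∞) ^ (2 / 7 : ℝ) * (c2 * c2) * (‖e‖ₑ ^ (2 / 7 : ℝ) * ‖e‖ₑ ^ (-(2 / 7) : ℝ)) := by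
        rw [ENNReal.mul_rpow_of_nonneg _ _ (by norm_num)]
        ring
    _ = _ := by
        rw [← ENNReal.rpow_add _ _ he0 (by simp)]
        norm_num

noncomputable def c3 : ℝ≥0∞ := (9 : ℝ≥0∞) ^ (2 / 7 : ℝ) * (c2 * c2)

theorem c3_ne : c3 ≠ ∞ := by
  unfold c3
  exact ENNReal.mul_ne_top (ENNReal.rpow_ne_top_of_nonneg (by norm_num) (by norm_num))
    (ENNReal.mul_ne_top c2_ne c2_ne)

theorem meas_zz (a b : ι) : Measurable fun ω : ι → ℝ => zz a b ω := by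
  unfold zz
  refine measurable_pi_iff.2 fun x => ?_
  by_cases hb : x = b
  · subst hb; simp
  · by_cases ha : x = a
    · subst ha; simp [hb]
    · simp only [Function.update_of_ne hb, Function.update_of_ne ha]
      exact measurable_pi_apply x

theorem meas_g0 (K : ι → ι → ℝ) (E η : ℝ) (a b x y : ι) :
    Measurable fun ω : ι → ℝ => CS.Gr K (pe E η (zz a b ω)) x y := by
  apply CS.measurable_Gr
  intro z
  unfold pe
  have h1 : Measurable fun ω : ι → ℝ => zz a b ω z := (measurable_pi_apply z).comp (meas_zz a b)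
  fun_prop

theorem meas_Dv (K : ι → ι → ℝ) (E η : ℝ) (a b : ι) : Measurable (Dv K E η a b) := by
  have h1 := meas_g0 K E η a b a a
  have h2 := meas_g0 K E η a b b b
  have h3 := meas_g0 K E η a b a b
  unfold Dv Dt
  fun_prop

theorem meas_Dl (K : ι → ι → ℝ) (E η : ℝ) (a b : ι) : Measurable (Dl K E η a b) := by
  have h1 := meas_g0 K E η a b a a
  have h2 := meas_g0 K E η a b b b
  have h3 := meas_g0 K E η a b a b
  unfold Dl Dt
  fun_prop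

theorem ratio (K : ι → ι → ℝ) (E η : ℝ) (a b : ι) (hab : a ≠ b) :
    ∫⁻ ω, (‖Dl K E η a b ω‖ₑ * ‖Dv K E η a b ω‖ₑ⁻¹) ^ (2 / 7 : ℝ) ∂(PI 1 ι) ≤ c3 := by
  have hu := unif_prob 1 one_pos
  have hm : Measurable fun ω => (‖Dl K E η a b ω‖ₑ * ‖Dv K E η a b ω‖ₑ⁻¹) ^ (2 / 7 : ℝ) :=
    ((meas_Dl K E η a b).enorm.mul (meas_Dv K E η a b).enorm.inv).pow_const _
  rw [H4R2.LO.Ap.resample2 (unif 1) a b _ hm]
  calc _ ≤ ∫⁻ _V, c3 ∂(PI 1 ι) := by
        refine lintegral_mono fun V => ?_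
        have h := lemC 1 (CS.Gr K (pe E η (zz a b V)) a a) (CS.Gr K (pe E η (zz a b V)) b b)
          (CS.Gr K (pe E η (zz a b V)) a a * CS.Gr K (pe E η (zz a b V)) b b -
            CS.Gr K (pe E η (zz a b V)) a b ^ 2) one_ne_zero
        refine le_trans (le_of_eq ?_) h
        refine lintegral_congr fun u => lintegral_congr fun v => ?_
        unfold Dl Dv Dt
        simp only [zz_upd, Function.update_self, Function.update_of_ne hab]
        congr 3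
        · ring
        · congr 1
          ring
    _ = c3 := by
        rw [lintegral_const, measure_univ, mul_one]

/-- entries of the Green function are bounded -/
theorem norm_entry {K : ι → ι → ℝ} (hK : ∀ x y, K x y = K y x) {p : ι → ℂ} {η : ℝ} (hη : 0 < η)
    (hp : ∀ x, (p x).im ≤ -η) (a b : ι) : ‖CS.Gr K p a b‖ ≤ 1 / η := by
  have hp' : ∀ x, (p x).im < 0 := fun x => by have := hp x; linarith
  have h1 := CS.norm_le_of hK hη hp _ _ (CS.col_eq hK hp' b)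
  have h2 : ∑ x, ‖(Pi.single b 1 : ι → ℂ) x‖ ^ 2 = 1 := by
    rw [Finset.sum_eq_single b]
    · simp
    · intro x _ hx
      simp [hx]
    · intro h
      exact absurd (Finset.mem_univ b) h
  rw [h2] at h1
  have h3 : ‖CS.Gr K p a b‖ ^ 2 ≤ ∑ x, ‖CS.Gr K p x b‖ ^ 2 :=
    Finset.single_le_sum (f := fun x => ‖CS.Gr K p x b‖ ^ 2) (fun _ _ => sq_nonneg _)
      (Finset.mem_univ a)
  have h4 : (η * ‖CS.Gr K p a b‖) ^ 2 ≤ 1 ^ 2 := by
    rw [mul_pow, one_pow]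
    calc η ^ 2 * ‖CS.Gr K p a b‖ ^ 2 ≤ η ^ 2 * ∑ x, ‖CS.Gr K p x b‖ ^ 2 := by gcongr
      _ ≤ 1 := h1
  have h5 : η * ‖CS.Gr K p a b‖ ≤ 1 := le_of_sq_le_sq h4 (by norm_num)
  rw [le_div_iff₀ hη]
  linarith

/-- the bound at positive absorption -/
theorem at_eta (K : ι → ι → ℝ) (hK : ∀ x y, K x y = K y x) (E : ℝ) {η : ℝ} (hη : 0 < η)
    (a b : ι) (hab : a ≠ b) (τ : ℝ)
    (h : ∫ ω, ‖CS.Gr K (pl E η a b ω) a b‖ ^ 2 ∂(PI 1 ι) ≤ τ) :
    ∫⁻ ω, ‖CS.Gr K (pe E η ω) a b‖ₑ ^ (1 / 4 : ℝ) ∂(PI 1 ι) ≤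
      (ENNReal.ofReal τ) ^ (1 / 8 : ℝ) * c3 ^ (7 / 8 : ℝ) := by
  have hu := unif_prob 1 one_pos
  have hml : Measurable fun ω : ι → ℝ => CS.Gr K (pl E η a b ω) a b := by
    apply CS.measurable_Gr
    intro z
    unfold pl
    fun_prop
  set F : (ι → ℝ) → ℝ≥0∞ := fun ω => ‖CS.Gr K (pl E η a b ω) a b‖ₑ ^ (1 / 4 : ℝ) with hF
  set G : (ι → ℝ) → ℝ≥0∞ := fun ω =>
    (‖Dl K E η a b ω‖ₑ * ‖Dv K E η a b ω‖ₑ⁻¹) ^ (1 / 4 : ℝ) with hG
  have hFm : Measurable F := hml.enorm.pow_const _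
  have hGm : Measurable G :=
    ((meas_Dl K E η a b).enorm.mul (meas_Dv K E η a b).enorm.inv).pow_const _
  have hpt : ∀ ω, ‖CS.Gr K (pe E η ω) a b‖ₑ ^ (1 / 4 : ℝ) = (F * G) ω := by
    intro ω
    obtain ⟨n1, e1⟩ := ge_eq hK E hη a b hab ω
    obtain ⟨n2, e2⟩ := gl_eq hK E hη a b hab ω
    simp only [Pi.mul_apply, hF, hG]
    rw [← ENNReal.mul_rpow_of_nonneg _ _ (by norm_num), ← mul_assoc, ← enorm_mul, e1, e2,
      div_mul_cancel₀ _ n2, div_eq_mul_inv, enorm_mul, enorm_inv n1]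
  have hH := ENNReal.lintegral_mul_le_Lp_mul_Lq (PI 1 ι) (p := 8) (q := 8 / 7)
    (by constructor <;> norm_num) hFm.aemeasurable hGm.aemeasurable
  have hF8 : ∫⁻ ω, F ω ^ (8 : ℝ) ∂(PI 1 ι) ≤ ENNReal.ofReal τ := by
    have e1 : ∀ ω, F ω ^ (8 : ℝ) = ENNReal.ofReal (‖CS.Gr K (pl E η a b ω) a b‖ ^ 2) := by
      intro ω
      simp only [hF]
      rw [← ENNReal.rpow_mul, ← ofReal_norm, ENNReal.ofReal_rpow_of_nonneg (norm_nonneg _)
        (by norm_num)]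
      norm_num
    simp only [e1]
    rw [← ofReal_integral_eq_lintegral_ofReal]
    · exact ENNReal.ofReal_le_ofReal h
    · refine Integrable.of_bound ((hml.norm.pow_const 2).aestronglyMeasurable) ((1 / η) ^ 2) ?_
      refine Eventually.of_forall fun ω => ?_
      rw [Real.norm_of_nonneg (by positivity)]
      exact pow_le_pow_left₀ (norm_nonneg _) (norm_entry hK hη (pl_im E η a b ω) a b) 2
    · exact Eventually.of_forall fun ω => by simp only [Pi.zero_apply]; positivity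
  have hG8 : ∫⁻ ω, G ω ^ (8 / 7 : ℝ) ∂(PI 1 ι) ≤ c3 := by
    refine le_trans (le_of_eq ?_) (ratio K E η a b hab)
    refine lintegral_congr fun ω => ?_
    simp only [hG]
    rw [← ENNReal.rpow_mul]
    norm_num
  calc ∫⁻ ω, ‖CS.Gr K (pe E η ω) a b‖ₑ ^ (1 / 4 : ℝ) ∂(PI 1 ι) =
        ∫⁻ ω, (F * G) ω ∂(PI 1 ι) := lintegral_congr hpt
    _ ≤ _ := hH
    _ ≤ (ENNReal.ofReal τ) ^ (1 / 8 : ℝ) * c3 ^ (1 / (8 / 7) : ℝ) := by
        gcongr
    _ = _ := by norm_num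

theorem cont_MM (K : ι → ι → ℝ) : Continuous fun q : ι → ℂ => CS.MM K q := by
  refine continuous_matrix fun i j => ?_
  simp only [CS.MM_apply]
  by_cases h : i = j
  · simp only [h, if_true]
    exact continuous_const.add (continuous_apply _)
  · simp only [if_neg h]
    exact continuous_const

theorem MM_zero (K : Matrix ι ι ℝ) (E : ℝ) (ω : ι → ℝ) :
    CS.MM (fun x y => K x y) (pe E 0 ω) = (H4R2.LO.Hm K 1 ω E).map (Complex.ofRealHom) := by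
  ext i j
  rw [CS.MM_apply]
  unfold H4R2.LO.Hm pe
  rw [Matrix.map_apply, Matrix.add_apply, Matrix.diagonal_apply]
  by_cases h : i = j
  · subst h
    simp
    ring
  · simp [h]

theorem gr_tendsto (K : Matrix ι ι ℝ) (E : ℝ) (a b : ι) (ω : ι → ℝ)
    (hdet : (H4R2.LO.Hm K 1 ω E).det ≠ 0) (s : ℕ → ℝ) (hs : Tendsto s atTop (𝓝 0)) :
    Tendsto (fun n => CS.Gr (fun x y => K x y) (pe E (s n) ω) a b) atTop
      (𝓝 ((H4R2.LO.Gr K 1 ω E a b : ℝ) : ℂ)) := by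
  have e : ∀ p : ι → ℂ, CS.Gr (fun x y => K x y) p a b =
      (CS.MM (fun x y => K x y) p).det⁻¹ * (CS.MM (fun x y => K x y) p).adjugate a b := by
    intro p
    unfold CS.Gr
    rw [Matrix.inv_def, Matrix.smul_apply, Ring.inverse_eq_inv', smul_eq_mul]
  have e0 : ((H4R2.LO.Gr K 1 ω E a b : ℝ) : ℂ) =
      (CS.MM (fun x y => K x y) (pe E 0 ω)).det⁻¹ *
        (CS.MM (fun x y => K x y) (pe E 0 ω)).adjugate a b := by
    rw [MM_zero]
    unfold H4R2.LO.Gr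
    rw [Matrix.inv_def, Matrix.smul_apply, Ring.inverse_eq_inv', smul_eq_mul]
    have h1 : ((H4R2.LO.Hm K 1 ω E).map (Complex.ofRealHom)).det =
        (((H4R2.LO.Hm K 1 ω E).det : ℝ) : ℂ) := (RingHom.map_det Complex.ofRealHom _).symm
    have h2 : ((H4R2.LO.Hm K 1 ω E).map (Complex.ofRealHom)).adjugate a b =
        (((H4R2.LO.Hm K 1 ω E).adjugate a b : ℝ) : ℂ) := by
      have := RingHom.map_adjugate Complex.ofRealHom (H4R2.LO.Hm K 1 ω E)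
      rw [RingHom.mapMatrix_apply, RingHom.mapMatrix_apply] at this
      rw [← this]
      rfl
    rw [h1, h2]
    push_cast
    rfl
  have hd0 : (CS.MM (fun x y => K x y) (pe E 0 ω)).det ≠ 0 := by
    rw [MM_zero]
    have h1 : ((H4R2.LO.Hm K 1 ω E).map (Complex.ofRealHom)).det =
        (((H4R2.LO.Hm K 1 ω E).det : ℝ) : ℂ) := (RingHom.map_det Complex.ofRealHom _).symm
    rw [h1]
    exact_mod_cast hdet
  have hpc : Continuous fun η : ℝ => pe E η ω := by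
    refine continuous_pi fun x => ?_
    unfold pe
    fun_prop
  have hM : Continuous fun η : ℝ => CS.MM (fun x y => K x y) (pe E η ω) :=
    (cont_MM (fun x y => K x y)).comp hpc
  have t1 : Tendsto (fun n => (CS.MM (fun x y => K x y) (pe E (s n) ω)).det) atTop
      (𝓝 (CS.MM (fun x y => K x y) (pe E 0 ω)).det) :=
    (hM.matrix_det.tendsto 0).comp hs
  have t2 : Tendsto (fun n => (CS.MM (fun x y => K x y) (pe E (s n) ω)).adjugate a b) atTop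
      (𝓝 ((CS.MM (fun x y => K x y) (pe E 0 ω)).adjugate a b)) :=
    ((hM.matrix_adjugate.matrix_elem a b).tendsto 0).comp hs
  rw [e0]
  simp only [e]
  exact (t1.inv₀ hd0).mul t2

end Cmp

theorem stCmp : StCmp := by
  refine ⟨max 1 ((Cmp.c3 ^ (7 / 8 : ℝ)).toReal), le_max_left _ _, ?_⟩
  intro ι _ _ K hK hd E a b hab τ hτ ⟨η0, hη0, h⟩
  have hu := unif_prob 1 one_pos
  have hKs : ∀ x y, K x y = K y x := fun x y => hK.apply y x
  set s : ℕ → ℝ := fun n => η0 / (n + 1) with hs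
  have hs0 : ∀ n, 0 < s n := fun n => by simp only [hs]; positivity
  have hs1 : ∀ n, s n ≤ η0 := by
    intro n
    simp only [hs]
    rw [div_le_iff₀ (by positivity)]
    nlinarith [(Nat.cast_nonneg n : (0 : ℝ) ≤ n)]
  have hst : Tendsto s atTop (𝓝 0) := by
    have := tendsto_one_div_add_atTop_nhds_zero_nat (𝕜 := ℝ)
    have h2 := this.const_mul η0
    rw [mul_zero] at h2
    refine h2.congr fun n => ?_
    simp only [hs]
    ring
  have hpt : ∀ ω : ι → ℝ, ‖H4R2.LO.Gr K 1 ω E a b‖ₑ ^ (1 / 4 : ℝ) ≤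
      liminf (fun n => ‖CS.Gr (fun x y => K x y) (Cmp.pe E (s n) ω) a b‖ₑ ^ (1 / 4 : ℝ)) atTop := by
    intro ω
    by_cases hdet : (H4R2.LO.Hm K 1 ω E).det = 0
    · have : H4R2.LO.Gr K 1 ω E a b = 0 := by
        unfold H4R2.LO.Gr
        rw [Matrix.inv_def, hdet, Ring.inverse_zero, zero_smul]
        rfl
      rw [this, enorm_zero, ENNReal.zero_rpow_of_pos (by norm_num)]
      exact bot_le
    · have h1 := Cmp.gr_tendsto K E a b ω hdet s hst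
      have h2 : Tendsto (fun n => ‖CS.Gr (fun x y => K x y) (Cmp.pe E (s n) ω) a b‖ₑ ^
          (1 / 4 : ℝ)) atTop (𝓝 (‖((H4R2.LO.Gr K 1 ω E a b : ℝ) : ℂ)‖ₑ ^ (1 / 4 : ℝ))) :=
        (ENNReal.continuous_rpow_const.tendsto _).comp ((continuous_enorm.tendsto _).comp h1)
      rw [h2.liminf_eq]
      apply le_of_eq
      congr 1
      rw [← ofReal_norm, ← ofReal_norm, Complex.norm_real]
  calc ∫⁻ ω, ‖H4R2.LO.Gr K 1 ω E a b‖ₑ ^ (1 / 4 : ℝ) ∂(PI 1 ι)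
      ≤ ∫⁻ ω, liminf (fun n => ‖CS.Gr (fun x y => K x y) (Cmp.pe E (s n) ω) a b‖ₑ ^
        (1 / 4 : ℝ)) atTop ∂(PI 1 ι) := lintegral_mono hpt
    _ ≤ liminf (fun n => ∫⁻ ω, ‖CS.Gr (fun x y => K x y) (Cmp.pe E (s n) ω) a b‖ₑ ^
        (1 / 4 : ℝ) ∂(PI 1 ι)) atTop := by
        apply lintegral_liminf_le
        intro n
        have hm : Measurable fun ω : ι → ℝ =>
            CS.Gr (fun x y => K x y) (Cmp.pe E (s n) ω) a b := by
          apply CS.measurable_Gr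
          intro z
          unfold Cmp.pe
          fun_prop
        exact hm.enorm.pow_const _
    _ ≤ (ENNReal.ofReal τ) ^ (1 / 8 : ℝ) * Cmp.c3 ^ (7 / 8 : ℝ) := by
        refine liminf_le_of_le ?_ ?_
        · isBoundedDefault
        · intro c hc
          obtain ⟨n, hn⟩ := hc.exists
          refine hn.trans ?_
          exact Cmp.at_eta _ hKs E (hs0 n) a b hab τ (h (s n) (hs0 n) (hs1 n))
    _ ≤ ENNReal.ofReal (max 1 ((Cmp.c3 ^ (7 / 8 : ℝ)).toReal) * τ ^ (1 / 8 : ℝ)) := by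
        rw [ENNReal.ofReal_mul (by positivity), mul_comm,
          ENNReal.ofReal_rpow_of_nonneg hτ (by norm_num)]
        gcongr
        have h1 : Cmp.c3 ^ (7 / 8 : ℝ) ≠ ∞ :=
          ENNReal.rpow_ne_top_of_nonneg (by norm_num) Cmp.c3_ne
        calc Cmp.c3 ^ (7 / 8 : ℝ) = ENNReal.ofReal ((Cmp.c3 ^ (7 / 8 : ℝ)).toReal) :=
              (ENNReal.ofReal_toReal h1).symm
          _ ≤ _ := ENNReal.ofReal_le_ofReal (le_max_right _ _)

end Pool.Agent.L0h56.ST
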