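import Pool.Agent.L0h56.ST.Def
import Pool.Agent.H4R2.LO.Wg
import Pool.Agent.H4R2.LO.La
import Pool.Agent.H4R2.LO.Var
import Pool.Agent.H4R2.LO.Weg2

/-!
# Decay of fractional moments implies decay of all generalised eigenfunctions (helper71)

Generalisation of `H4R2.LO.{Weg2, Box, Gef}` from `Z^d` to countable sets with a position function.
-/

set_option autoImplicit false
set_option linter.unusedSectionVars false

open scoped BigOperators ENNReal
open MeasureTheory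

namespace Pool.Agent.L0h56.ST.Dec

open Pool.Agent.H4R2.LO (Hm Gr Near Reg)

variable {X : Type} [DecidableEq X]

/-- restriction of the matrix -/
def AM (A : X → X → ℝ) (Λ : Finset X) : Matrix Λ Λ ℝ := Matrix.of fun i j : Λ => A i j

/-- restriction of the potential -/
def rX (Λ : Finset X) (ω : X → ℝ) : Λ → ℝ := fun i => ω i

theorem rX_map (μ : Measure ℝ) [IsProbabilityMeasure μ] (Λ : Finset X) :
    (Measure.infinitePi fun _ : X => μ).map (rX Λ) = Measure.pi fun _ : Λ => μ :=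
  Measure.infinitePi_map_restrict (fun _ : X => μ)

theorem meas_rX (Λ : Finset X) : Measurable (rX Λ) :=
  measurable_pi_lambda _ fun i => measurable_pi_apply i.1

/-- the hypotheses on the graph -/
structure Hyp (A : X → X → ℝ) (nb : X → Finset X) (pos : X → ℤ) (sec : ℤ → Finset X) (D : ℕ)
    (P : ℝ) (p : ℕ) : Prop where
  sym : ∀ x y, A x y = A y x
  nbr : ∀ x y, A x y ≠ 0 → y ∈ nb x
  diag : ∀ x, A x x = 0
  one : ∀ x y, |A x y| ≤ 1
  card : ∀ x, (nb x).card ≤ D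
  msec : ∀ t x, x ∈ sec t ↔ pos x = t
  step : ∀ x y, A x y ≠ 0 → |pos x - pos y| ≤ 1
  poly : ∀ t : ℤ, ((sec t).card : ℝ) ≤ P * (1 + |(t : ℝ)|) ^ p

theorem AM_symm (A : X → X → ℝ) (hsym : ∀ x y, A x y = A y x) (Λ : Finset X) :
    (AM A Λ).IsSymm := by
  ext i j
  exact hsym _ _

/-- two boxes cannot be resonant at a common energy -/
theorem weg2 (A : X → X → ℝ) (hsym : ∀ x y, A x y = A y x) (hdi : ∀ x, A x x = 0)
    (μ : Measure ℝ) [IsProbabilityMeasure μ] (D : ℝ) (hD : 0 < D)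
    (hμ : μ ≤ ENNReal.ofReal D • (volume : Measure ℝ)) (lam : ℝ) (hlam : 0 < lam)
    (Λ₁ Λ₂ : Finset X) (hdis : Disjoint Λ₁ Λ₂) (a δ : ℝ) (hδ : 0 < δ) (hδ' : δ ≤ 1) :
    (Measure.infinitePi fun _ : X => μ) {ω | ∃ E ∈ Set.Icc a (a + 1),
        Near (Hm (AM A Λ₁) lam (rX Λ₁ ω) E) δ ∧ Near (Hm (AM A Λ₂) lam (rX Λ₂ ω) E) δ} ≤
      ENNReal.ofReal (3 * (16 * D / lam) ^ 2 * δ * Λ₁.card * Λ₂.card) := by
  obtain ⟨P, hP⟩ : ∃ P : Measure (X → ℝ), P = Measure.infinitePi fun _ : X => μ :=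
    ⟨_, rfl⟩
  rw [← hP]
  have hrs : ∀ Λ : Finset X, Measurable (rX Λ) := fun Λ => meas_rX Λ
  have hlaw : ∀ (Λ : Finset X) (S : Set (Λ → ℝ)), MeasurableSet S →
      P (rX Λ ⁻¹' S) = (Measure.pi fun _ : Λ => μ) S := by
    intro Λ S hS
    rw [← rX_map μ Λ, Measure.map_apply (hrs Λ) hS, hP]
  have hind : ∀ (S : Set (Λ₁ → ℝ)) (S' : Set (Λ₂ → ℝ)), MeasurableSet S → MeasurableSet S' →
      P (rX Λ₁ ⁻¹' S ∩ rX Λ₂ ⁻¹' S') =
        (Measure.pi fun _ : Λ₁ => μ) S * (Measure.pi fun _ : Λ₂ => μ) S' := by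
    intro S S' hS hS'
    have h1 : ProbabilityTheory.iIndepFun (fun (i : X) (ω : X → ℝ) => ω i)
        (Measure.infinitePi fun _ : X => μ) :=
      ProbabilityTheory.iIndepFun_infinitePi (P := fun _ : X => μ)
        (X := fun _ : X => (id : ℝ → ℝ)) (fun _ => measurable_id)
    have h2 := h1.indepFun_finset Λ₁ Λ₂ hdis (fun i => measurable_pi_apply i)
    have h3 := h2.measure_inter_preimage_eq_mul S S' hS hS'
    rw [← hP] at h3
    have h4 : P (rX Λ₁ ⁻¹' S ∩ rX Λ₂ ⁻¹' S') = P (rX Λ₁ ⁻¹' S) * P (rX Λ₂ ⁻¹' S') := h3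
    rw [h4, hlaw Λ₁ S hS, hlaw Λ₂ S' hS']
  -- the grid
  obtain ⟨K, hK⟩ : ∃ K : ℕ, K = ⌊1 / δ⌋₊ + 1 := ⟨_, rfl⟩
  have hdiag : ∀ Λ : Finset X, ∀ i : Λ, AM A Λ i i = 0 := fun Λ i => hdi _
  have hex : ∀ (Λ : Finset X) (k : ℕ), ∃ S : Set (Λ → ℝ), MeasurableSet S ∧
      (∀ V, Near (Hm (AM A Λ) lam V (a + k * δ)) (2 * δ) → V ∈ S) ∧
      (Measure.pi fun _ : Λ => μ) S ≤ ENNReal.ofReal (16 * D / lam * δ * Λ.card) := by
    intro Λ k
    obtain ⟨S, h1, h2, h3⟩ := Pool.Agent.H4R2.LO.Wg.wegner μ D hD hμ (AM A Λ) (AM_symm A hsym Λ)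
      (hdiag Λ) lam hlam (a + k * δ) (2 * δ) (by positivity)
    refine ⟨S, h1, h2, h3.trans (le_of_eq ?_)⟩
    rw [Fintype.card_coe]
    congr 1
    ring
  choose S1 m1 n1 p1 using hex Λ₁
  choose S2 m2 n2 p2 using hex Λ₂
  have hsub : {ω | ∃ E ∈ Set.Icc a (a + 1),
        Near (Hm (AM A Λ₁) lam (rX Λ₁ ω) E) δ ∧ Near (Hm (AM A Λ₂) lam (rX Λ₂ ω) E) δ} ⊆
      ⋃ k ∈ Finset.range K, (rX Λ₁ ⁻¹' (S1 k) ∩ rX Λ₂ ⁻¹' (S2 k)) := by
    rintro ω ⟨E, ⟨hE1, hE2⟩, hn1, hn2⟩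
    obtain ⟨k, hk⟩ : ∃ k : ℕ, k = ⌊(E - a) / δ⌋₊ := ⟨_, rfl⟩
    have hq : 0 ≤ (E - a) / δ := div_nonneg (by linarith) hδ.le
    have hk1 : (k : ℝ) * δ ≤ E - a := by
      have := Nat.floor_le hq
      rw [← hk, le_div_iff₀ hδ] at this
      exact this
    have hk2 : E - a ≤ (k + 1) * δ := by
      have := (Nat.lt_floor_add_one ((E - a) / δ)).le
      rw [← hk, div_le_iff₀ hδ] at this
      exact this
    have hkK : k < K := by
      rw [hK, hk]
      apply Nat.lt_succ_of_le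
      apply Nat.floor_le_floor
      apply div_le_div_of_nonneg_right _ hδ.le
      linarith
    have habs : |E - (a + k * δ)| ≤ δ := by
      rw [abs_le]
      constructor <;> linarith
    rw [Set.mem_iUnion₂]
    exact ⟨k, Finset.mem_range.2 hkK,
      n1 k _ (Pool.Agent.H4R2.LO.Var.near_shift _ _ _ _ _ _ hn1 habs),
      n2 k _ (Pool.Agent.H4R2.LO.Var.near_shift _ _ _ _ _ _ hn2 habs)⟩
  have hc1 : 0 ≤ 16 * D / lam * δ * Λ₁.card := by positivity
  have hc2 : 0 ≤ 16 * D / lam * δ * Λ₂.card := by positivity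
  calc P {ω | ∃ E ∈ Set.Icc a (a + 1),
        Near (Hm (AM A Λ₁) lam (rX Λ₁ ω) E) δ ∧ Near (Hm (AM A Λ₂) lam (rX Λ₂ ω) E) δ}
      ≤ P (⋃ k ∈ Finset.range K, (rX Λ₁ ⁻¹' (S1 k) ∩ rX Λ₂ ⁻¹' (S2 k))) := measure_mono hsub
    _ ≤ ∑ k ∈ Finset.range K, P (rX Λ₁ ⁻¹' (S1 k) ∩ rX Λ₂ ⁻¹' (S2 k)) :=
        measure_biUnion_finset_le _ _
    _ ≤ ∑ k ∈ Finset.range K, ENNReal.ofReal
          ((16 * D / lam * δ * Λ₁.card) * (16 * D / lam * δ * Λ₂.card)) := by
        apply Finset.sum_le_sum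
        intro k _
        rw [hind _ _ (m1 k) (m2 k), ENNReal.ofReal_mul hc1]
        exact mul_le_mul' (p1 k) (p2 k)
    _ = ENNReal.ofReal (K * ((16 * D / lam * δ * Λ₁.card) * (16 * D / lam * δ * Λ₂.card))) := by
        rw [Finset.sum_const, Finset.card_range, nsmul_eq_mul,
          ENNReal.ofReal_mul (Nat.cast_nonneg K), ENNReal.ofReal_natCast]
    _ ≤ _ := by
        apply ENNReal.ofReal_le_ofReal
        have hK2 : (K : ℝ) * δ ≤ 3 := by
          have h1 : (⌊1 / δ⌋₊ : ℝ) ≤ 1 / δ := Nat.floor_le (by positivity)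
          rw [le_div_iff₀ hδ] at h1
          rw [hK]
          push_cast
          linarith
        have h5 : (K : ℝ) * ((16 * D / lam * δ * Λ₁.card) * (16 * D / lam * δ * Λ₂.card)) =
            ((K : ℝ) * δ) * ((16 * D / lam) ^ 2 * δ * Λ₁.card * Λ₂.card) := by ring
        have h6 : 3 * (16 * D / lam) ^ 2 * δ * Λ₁.card * Λ₂.card =
            3 * ((16 * D / lam) ^ 2 * δ * Λ₁.card * Λ₂.card) := by ring
        rw [h5, h6]
        exact mul_le_mul_of_nonneg_right hK2 (by positivity)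

/-! ### boxes -/

/-- the box of radius `l` around `x` -/
noncomputable def bX (pos : X → ℤ) (sec : ℤ → Finset X) (x : X) (l : ℕ) : Finset X :=
  (Finset.Icc (pos x - l) (pos x + l)).biUnion sec

theorem mem_bX (pos : X → ℤ) (sec : ℤ → Finset X) (hsec : ∀ t x, x ∈ sec t ↔ pos x = t) (x z : X)
    (l : ℕ) : z ∈ bX pos sec x l ↔ |pos z - pos x| ≤ l := by
  unfold bX
  rw [Finset.mem_biUnion, abs_le]
  constructor
  · rintro ⟨t, ht, hz⟩
    rw [Finset.mem_Icc] at ht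
    rw [hsec] at hz
    omega
  · intro h
    exact ⟨pos z, Finset.mem_Icc.2 (by omega), (hsec _ _).2 rfl⟩

theorem card_bX (pos : X → ℤ) (sec : ℤ → Finset X) (P : ℝ) (p : ℕ)
    (hP : ∀ t : ℤ, ((sec t).card : ℝ) ≤ P * (1 + |(t : ℝ)|) ^ p) (x : X) (l : ℕ) :
    ((bX pos sec x l).card : ℝ) ≤ (2 * l + 1) * (|P| * (1 + |(pos x : ℝ)| + l) ^ p) := by
  have h1 : ((bX pos sec x l).card : ℝ) ≤ ∑ t ∈ Finset.Icc (pos x - l) (pos x + l),
      ((sec t).card : ℝ) := by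
    exact_mod_cast Finset.card_biUnion_le
  refine h1.trans ?_
  have h2 : ∀ t ∈ Finset.Icc (pos x - l) (pos x + l), ((sec t).card : ℝ) ≤
      |P| * (1 + |(pos x : ℝ)| + l) ^ p := by
    intro t ht
    rw [Finset.mem_Icc] at ht
    refine (hP t).trans ?_
    have h3 : |(t : ℝ)| ≤ |(pos x : ℝ)| + l := by
      have h4 : |(t : ℝ) - pos x| ≤ l := by
        rw [abs_le]
        constructor
        · have : (pos x : ℝ) - l ≤ t := by exact_mod_cast ht.1
          linarith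
        · have : (t : ℝ) ≤ pos x + l := by exact_mod_cast ht.2
          linarith
      have h5 := abs_sub_abs_le_abs_sub (t : ℝ) (pos x)
      linarith
    calc P * (1 + |(t : ℝ)|) ^ p ≤ |P| * (1 + |(t : ℝ)|) ^ p :=
          mul_le_mul_of_nonneg_right (le_abs_self P) (by positivity)
      _ ≤ |P| * (1 + |(pos x : ℝ)| + l) ^ p := by
          apply mul_le_mul_of_nonneg_left _ (abs_nonneg P)
          apply pow_le_pow_left₀ (by positivity)
          linarith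
  refine (Finset.sum_le_sum h2).trans (le_of_eq ?_)
  rw [Finset.sum_const, nsmul_eq_mul, Int.card_Icc]
  have : (pos x + (l : ℤ) + 1 - (pos x - l)).toNat = 2 * l + 1 := by omega
  rw [this]
  push_cast
  ring

/-- the boundary term -/
noncomputable def bt (A : X → X → ℝ) (nb : X → Finset X) (Λ : Finset X) (ψ : X → ℂ) (i : X) : ℂ :=
  -∑ y ∈ (nb i).filter (fun y => y ∉ Λ), (A i y : ℂ) * ψ y

theorem row (A : X → X → ℝ) (nb : X → Finset X) (hnb : ∀ x y, A x y ≠ 0 → y ∈ nb x) (lam : ℝ)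
    (ω : X → ℝ) (E : ℝ) (ψ : X → ℂ)
    (hψ : ∀ x, SL.HK A nb (fun x => lam * ω x) ψ x = (E : ℂ) * ψ x) (Λ : Finset X) (i : Λ) :
    ∑ k : Λ, ((Hm (AM A Λ) lam (rX Λ ω) E i k : ℝ) : ℂ) * ψ k.1 = bt A nb Λ ψ i.1 := by
  have h1 := hψ i.1
  unfold SL.HK at h1
  have h2 : ∀ k : Λ, ((Hm (AM A Λ) lam (rX Λ ω) E i k : ℝ) : ℂ) * ψ k.1 =
      (A i.1 k.1 : ℂ) * ψ k.1 +
      (if k = i then ((lam * ω i.1 - E : ℝ) : ℂ) * ψ i.1 else 0) := by
    intro k
    have h0 : Hm (AM A Λ) lam (rX Λ ω) E i k =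
        A i.1 k.1 + (if i = k then lam * ω i.1 - E else 0) := by
      unfold Hm
      rw [Matrix.add_apply, Matrix.diagonal_apply]
      rfl
    rw [h0]
    by_cases hk : i = k
    · subst hk
      simp
      ring
    · rw [if_neg hk, if_neg (fun h => hk h.symm)]
      simp
  rw [Finset.sum_congr rfl fun k _ => h2 k, Finset.sum_add_distrib]
  have h3 : ∑ k : Λ, (if k = i then ((lam * ω i.1 - E : ℝ) : ℂ) * ψ i.1 else 0) =
      ((lam * ω i.1 - E : ℝ) : ℂ) * ψ i.1 := by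
    rw [Finset.sum_ite_eq' Finset.univ i]
    simp
  rw [h3]
  have h4 : ∑ k : Λ, (A i.1 k.1 : ℂ) * ψ k.1 =
      ∑ y ∈ (nb i.1).filter (fun y => y ∈ Λ), (A i.1 y : ℂ) * ψ y := by
    rw [Finset.sum_coe_sort Λ (fun k => (A i.1 k : ℂ) * ψ k)]
    symm
    have h5 : (nb i.1).filter (fun y => y ∈ Λ) ⊆ Λ := by
      intro y hy
      exact (Finset.mem_filter.1 hy).2
    apply Finset.sum_subset h5
    intro y hy hy'
    have : A i.1 y = 0 := by
      by_contra h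
      exact hy' (Finset.mem_filter.2 ⟨hnb _ _ h, hy⟩)
    rw [this]
    simp
  have h6 : ∑ y ∈ nb i.1, (A i.1 y : ℂ) * ψ y =
      ∑ y ∈ (nb i.1).filter (fun y => y ∈ Λ), (A i.1 y : ℂ) * ψ y +
      ∑ y ∈ (nb i.1).filter (fun y => y ∉ Λ), (A i.1 y : ℂ) * ψ y :=
    (Finset.sum_filter_add_sum_filter_not _ _ _).symm
  rw [h4]
  unfold bt
  rw [h6] at h1
  push_cast at h1 ⊢
  linear_combination h1

/-- the restriction of a generalised eigenfunction to a box -/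
theorem box_formula (A : X → X → ℝ) (nb : X → Finset X) (pos : X → ℤ) (sec : ℤ → Finset X) (D : ℕ)
    (P : ℝ) (p : ℕ) (H : Hyp A nb pos sec D P p) (lam : ℝ) (ω : X → ℝ) (E : ℝ) (ψ : X → ℂ)
    (hψ : ∀ x, SL.HK A nb (fun x => lam * ω x) ψ x = (E : ℂ) * ψ x) (x : X) (l : ℕ)
    (hx : x ∈ bX pos sec x l)
    (hdet : IsUnit (Hm (AM A (bX pos sec x l)) lam (rX (bX pos sec x l) ω) E).det) (θ M : ℝ)
    (hM : 0 ≤ M)
    (hG : ∀ u : bX pos sec x l, |pos u.1 - pos x| = l →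
      |Gr (AM A (bX pos sec x l)) lam (rX (bX pos sec x l) ω) E ⟨x, hx⟩ u| ≤ Real.exp (-θ))
    (hψM : ∀ y, |pos y - pos x| ≤ l + 1 → ‖ψ y‖ ≤ M) :
    ‖ψ x‖ ≤ (bX pos sec x l).card * D * Real.exp (-θ) * M := by
  have hrow := row A nb H.nbr lam ω E ψ hψ (bX pos sec x l)
  set Hh := Hm (AM A (bX pos sec x l)) lam (rX (bX pos sec x l) ω) E with hH
  have hGH : Gr (AM A (bX pos sec x l)) lam (rX (bX pos sec x l) ω) E * Hh = 1 := by
    unfold Gr
    rw [← hH]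
    exact Matrix.nonsing_inv_mul Hh hdet
  set G := Gr (AM A (bX pos sec x l)) lam (rX (bX pos sec x l) ω) E with hGdef
  have hψx : ψ x = ∑ i : bX pos sec x l, ((G ⟨x, hx⟩ i : ℝ) : ℂ) * bt A nb (bX pos sec x l) ψ i.1 := by
    have h1 : ∑ i : bX pos sec x l, ((G ⟨x, hx⟩ i : ℝ) : ℂ) * bt A nb (bX pos sec x l) ψ i.1 =
        ∑ k : bX pos sec x l, (((G * Hh) ⟨x, hx⟩ k : ℝ) : ℂ) * ψ k.1 := by
      rw [Finset.sum_congr rfl fun i _ => by rw [← hrow i]]
      simp only [Finset.mul_sum]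
      rw [Finset.sum_comm]
      apply Finset.sum_congr rfl
      intro k _
      rw [Matrix.mul_apply]
      push_cast
      rw [Finset.sum_mul]
      apply Finset.sum_congr rfl
      intro i _
      ring
    rw [h1, hGH]
    rw [Finset.sum_eq_single ⟨x, hx⟩]
    · simp
    · intro k _ hk
      rw [Matrix.one_apply_ne (Ne.symm hk)]
      simp
    · intro h
      exact absurd (Finset.mem_univ _) h
  rw [hψx]
  have hbd : ∀ i : bX pos sec x l, ‖((G ⟨x, hx⟩ i : ℝ) : ℂ) * bt A nb (bX pos sec x l) ψ i.1‖ ≤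
      Real.exp (-θ) * (D * M) := by
    intro i
    have hi : |pos i.1 - pos x| ≤ l := (mem_bX pos sec H.msec x i.1 l).1 i.2
    rcases lt_or_eq_of_le hi with hlt | heq
    · have h0 : bt A nb (bX pos sec x l) ψ i.1 = 0 := by
        unfold bt
        rw [neg_eq_zero]
        apply Finset.sum_eq_zero
        intro y hy
        rw [Finset.mem_filter, mem_bX pos sec H.msec] at hy
        have : A i.1 y = 0 := by
          by_contra h
          have h1 := H.step _ _ h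
          apply hy.2
          rw [abs_le] at h1 ⊢
          rw [abs_lt] at hlt
          omega
        rw [this]
        simp
      rw [h0, mul_zero, norm_zero]
      positivity
    · rw [norm_mul]
      have h1 : ‖((G ⟨x, hx⟩ i : ℝ) : ℂ)‖ ≤ Real.exp (-θ) := by
        rw [Complex.norm_real, Real.norm_eq_abs]
        exact hG i heq
      have h2 : ‖bt A nb (bX pos sec x l) ψ i.1‖ ≤ D * M := by
        unfold bt
        rw [norm_neg]
        refine (norm_sum_le _ _).trans ?_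
        calc ∑ y ∈ (nb i.1).filter (fun y => y ∉ bX pos sec x l), ‖(A i.1 y : ℂ) * ψ y‖
            ≤ ∑ _y ∈ (nb i.1).filter (fun y => y ∉ bX pos sec x l), M := by
              apply Finset.sum_le_sum
              intro y _
              by_cases hA : A i.1 y = 0
              · rw [hA]
                simpa using hM
              · rw [norm_mul, Complex.norm_real, Real.norm_eq_abs]
                have h3 : ‖ψ y‖ ≤ M := by
                  apply hψM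
                  have h4 := H.step _ _ hA
                  rw [abs_le] at h4 hi ⊢
                  omega
                calc |A i.1 y| * ‖ψ y‖ ≤ 1 * M :=
                      mul_le_mul (H.one _ _) h3 (norm_nonneg _) zero_le_one
                  _ = M := one_mul M
          _ = ((nb i.1).filter (fun y => y ∉ bX pos sec x l)).card * M := by
              rw [Finset.sum_const, nsmul_eq_mul]
          _ ≤ D * M := by
              apply mul_le_mul_of_nonneg_right _ hM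
              exact_mod_cast (Finset.card_filter_le _ _).trans (H.card i.1)
      exact mul_le_mul h1 h2 (norm_nonneg _) (Real.exp_pos _).le
  refine (norm_sum_le _ _).trans ((Finset.sum_le_sum fun i _ => hbd i).trans ?_)
  rw [Finset.sum_const, Finset.card_univ, Fintype.card_coe, nsmul_eq_mul]
  apply le_of_eq
  ring


/-! ### one box, two boxes -/

theorem isUnit_of_not_near {ι : Type*} [Fintype ι] [DecidableEq ι] (M : Matrix ι ι ℝ) (δ : ℝ)
    (h : ¬ Near M δ) : IsUnit M.det := by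
  by_contra hu
  apply h
  have h0 : M.det = 0 := by
    by_contra h1
    exact hu (isUnit_iff_ne_zero.mpr h1)
  obtain ⟨v, hv, hv'⟩ := Matrix.exists_mulVec_eq_zero_iff.mpr h0
  refine ⟨v, hv, ?_⟩
  rw [hv']
  have : (0 : ℝ) ≤ δ ^ 2 * ∑ i, v i ^ 2 :=
    mul_nonneg (sq_nonneg _) (Finset.sum_nonneg fun i _ => sq_nonneg _)
  simpa using this

/-- the box around `x` is good at energy `E` -/
def GoodB (A : X → X → ℝ) (pos : X → ℤ) (sec : ℤ → Finset X) (lam : ℝ) (ω : X → ℝ) (E θ : ℝ)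
    (x : X) (l : ℕ) : Prop :=
  ∃ hx : x ∈ bX pos sec x l,
    ¬ Near (Hm (AM A (bX pos sec x l)) lam (rX (bX pos sec x l) ω) E) (Real.exp (-θ)) ∧
    ∀ u : bX pos sec x l, |pos u.1 - pos x| = l →
      |Gr (AM A (bX pos sec x l)) lam (rX (bX pos sec x l) ω) E ⟨x, hx⟩ u| ≤ Real.exp (-θ)

/-- one box -/
theorem single (A : X → X → ℝ) (nb : X → Finset X) (pos : X → ℤ) (sec : ℤ → Finset X) (D : ℕ)
    (P : ℝ) (p : ℕ) (H : Hyp A nb pos sec D P p) (μ : Measure ℝ) [IsProbabilityMeasure μ]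
    (lam C0 θ : ℝ) (x : X) (l : ℕ) (hdec : ∀ (E : ℝ) (z u : bX pos sec x l), z.1 = x →
      |pos u.1 - pos x| = l →
      ∫⁻ V, ‖Gr (AM A (bX pos sec x l)) lam V E z u‖ₑ ^ (1 / 4 : ℝ)
        ∂(Measure.pi fun _ : bX pos sec x l => μ) ≤ ENNReal.ofReal (C0 * Real.exp (-(6 * θ))))
    (a : ℝ) (hθ : 2 ≤ θ) :
    ∃ S : Set (X → ℝ), (Measure.infinitePi fun _ : X => μ) S ≤
        ENNReal.ofReal (Real.exp (5 * θ) * (bX pos sec x l).card * (|C0| * Real.exp (-(6 * θ)))) ∧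
      ∀ ω, ω ∉ S → ∀ E ∈ Set.Icc a (a + 1),
        ¬ Near (Hm (AM A (bX pos sec x l)) lam (rX (bX pos sec x l) ω) E) (Real.exp (-θ)) →
        GoodB A pos sec lam ω E θ x l := by
  classical
  have hx : x ∈ bX pos sec x l := by
    rw [mem_bX pos sec H.msec, sub_self, abs_zero]
    exact Int.natCast_nonneg l
  set Bd : Finset (bX pos sec x l) := Finset.univ.filter fun u => |pos u.1 - pos x| = l with hBd
  obtain ⟨S', hS', hS'm, hS'g⟩ := Pool.Agent.H4R2.LO.Var.var1 μ (AM A (bX pos sec x l))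
    (AM_symm A H.sym _) lam (⟨x, hx⟩ : bX pos sec x l) Bd a θ
    hθ (ENNReal.ofReal (|C0| * Real.exp (-(6 * θ)))) (by
      intro E _ u hu
      have hu' : |pos u.1 - pos x| = l := by simpa [hBd] using hu
      refine (hdec E ⟨x, hx⟩ u rfl hu').trans ?_
      apply ENNReal.ofReal_le_ofReal
      exact mul_le_mul_of_nonneg_right (le_abs_self _) (Real.exp_pos _).le)
  refine ⟨rX (bX pos sec x l) ⁻¹' S', ?_, ?_⟩
  · rw [← Measure.map_apply (meas_rX _) hS', rX_map]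
    refine hS'm.trans ?_
    have hc : (Bd.card : ℝ≥0∞) ≤ ENNReal.ofReal ((bX pos sec x l).card) := by
      have h1 : Bd.card ≤ (bX pos sec x l).card := by
        calc Bd.card ≤ (Finset.univ : Finset (bX pos sec x l)).card :=
              Finset.card_le_card (Finset.filter_subset _ _)
          _ = (bX pos sec x l).card := by rw [Finset.card_univ, Fintype.card_coe]
      rw [ENNReal.ofReal_natCast]
      exact_mod_cast h1
    have e1 : ENNReal.ofReal (Real.exp (5 * θ) * (bX pos sec x l).card *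
        (|C0| * Real.exp (-(6 * θ)))) =
        ENNReal.ofReal (Real.exp (5 * θ)) * ENNReal.ofReal ((bX pos sec x l).card) *
          ENNReal.ofReal (|C0| * Real.exp (-(6 * θ))) := by
      rw [ENNReal.ofReal_mul (p := Real.exp (5 * θ) * (bX pos sec x l).card) (by positivity),
        ENNReal.ofReal_mul (p := Real.exp (5 * θ)) (by positivity)]
    rw [e1]
    gcongr
  · intro ω hω E hE hN
    exact ⟨hx, hN, fun u hu => hS'g _ hω E hE hN u (by simpa [hBd] using hu)⟩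

/-- bound for the number of points in boxes -/
noncomputable def NN (P : ℝ) (p : ℕ) (R0 : ℝ) (l : ℕ) : ℝ :=
  (4 * l + 5) * (|P| * (5 + R0 + 4 * l) ^ p)

theorem NN_nonneg (P : ℝ) (p : ℕ) (R0 : ℝ) (h0 : 0 ≤ R0) (l : ℕ) : 0 ≤ NN P p R0 l := by
  unfold NN
  positivity

theorem card_le_NN (A : X → X → ℝ) (nb : X → Finset X) (pos : X → ℤ) (sec : ℤ → Finset X) (D : ℕ)
    (P : ℝ) (p : ℕ) (H : Hyp A nb pos sec D P p) (x0 y : X) (l r : ℕ)
    (h : |(pos y : ℝ)| + r ≤ |(pos x0 : ℝ)| + 4 * l + 4) (hr : r ≤ 2 * l + 2) :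
    ((bX pos sec y r).card : ℝ) ≤ NN P p |(pos x0 : ℝ)| l := by
  refine (card_bX pos sec P p H.poly y r).trans ?_
  unfold NN
  have h1 : (2 * (r : ℝ) + 1) ≤ 4 * l + 5 := by
    have : (r : ℝ) ≤ 2 * l + 2 := by exact_mod_cast hr
    linarith
  apply mul_le_mul h1 _ (by positivity) (by positivity)
  apply mul_le_mul_of_nonneg_left _ (abs_nonneg P)
  apply pow_le_pow_left₀ (by positivity)
  linarith

/-- all pairs of boxes -/
theorem pair (A : X → X → ℝ) (nb : X → Finset X) (pos : X → ℤ) (sec : ℤ → Finset X) (D : ℕ)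
    (P : ℝ) (p : ℕ) (H : Hyp A nb pos sec D P p) (μ : Measure ℝ) [IsProbabilityMeasure μ]
    (B : ℝ) (hμ : Reg B μ) (lam : ℝ) (hlam : 0 < lam) (C0 θ : ℝ) (x0 : X) (l : ℕ)
    (hx0l : |pos x0| ≤ l)
    (hdec : ∀ (Λ : Finset X), (∀ z ∈ Λ, |pos z| ≤ 10 * (l + 1)) → ∀ (E : ℝ) (x y : Λ),
      (l : ℤ) ≤ |pos x - pos y| →
      ∫⁻ V, ‖Gr (AM A Λ) lam V E x y‖ₑ ^ (1 / 4 : ℝ) ∂(Measure.pi fun _ : Λ => μ) ≤
        ENNReal.ofReal (C0 * Real.exp (-(6 * θ))))
    (a : ℝ) (hθ : 2 ≤ θ) :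
    ∃ S : Set (X → ℝ), (Measure.infinitePi fun _ : X => μ) S ≤
        ENNReal.ofReal ((2 * |C0| + 3 * (16 * B / lam) ^ 2) *
          ((1 + NN P p |(pos x0 : ℝ)| l) ^ 3 * Real.exp (-θ))) ∧
      ∀ ω, ω ∉ S → ∀ E ∈ Set.Icc a (a + 1), ∀ y, 2 * (l : ℤ) + 1 ≤ |pos y - pos x0| →
        |pos y - pos x0| ≤ 2 * (l : ℤ) + 2 →
        GoodB A pos sec lam ω E θ x0 l ∨ GoodB A pos sec lam ω E θ y l := by
  classical
  obtain ⟨N, hN⟩ : ∃ N : ℝ, N = NN P p |(pos x0 : ℝ)| l := ⟨_, rfl⟩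
  have hN0 : 0 ≤ N := by rw [hN]; exact NN_nonneg _ _ _ (abs_nonneg _) _
  rw [← hN]
  have hsingle : ∀ y : X, ∃ S : Set (X → ℝ), |pos y - pos x0| ≤ 2 * (l : ℤ) + 2 →
      (Measure.infinitePi fun _ : X => μ) S ≤
        ENNReal.ofReal (Real.exp (5 * θ) * (bX pos sec y l).card *
          (|C0| * Real.exp (-(6 * θ)))) ∧
      ∀ ω, ω ∉ S → ∀ E ∈ Set.Icc a (a + 1),
        ¬ Near (Hm (AM A (bX pos sec y l)) lam (rX (bX pos sec y l) ω) E) (Real.exp (-θ)) →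
        GoodB A pos sec lam ω E θ y l := by
    intro y
    by_cases hy : |pos y - pos x0| ≤ 2 * (l : ℤ) + 2
    · obtain ⟨S, h1, h2⟩ := single A nb pos sec D P p H μ lam C0 θ y l (by
        intro E z u hz hu
        apply hdec
        · intro w hw
          rw [mem_bX pos sec H.msec] at hw
          rw [abs_le] at hw hy hx0l ⊢
          omega
        · rw [hz, abs_sub_comm]
          exact hu.ge) a hθ
      exact ⟨S, fun _ => ⟨h1, h2⟩⟩
    · exact ⟨∅, fun h => absurd h hy⟩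
  choose S1 hS1 using hsingle
  set W : X → Set (X → ℝ) := fun y => {ω | ∃ E ∈ Set.Icc a (a + 1),
        Near (Hm (AM A (bX pos sec x0 l)) lam (rX (bX pos sec x0 l) ω) E) (Real.exp (-θ)) ∧
        Near (Hm (AM A (bX pos sec y l)) lam (rX (bX pos sec y l) ω) E) (Real.exp (-θ))} with hW
  have hx00 : |pos x0 - pos x0| ≤ 2 * (l : ℤ) + 2 := by
    rw [sub_self, abs_zero]
    omega
  have hcx : ((bX pos sec x0 l).card : ℝ) ≤ N := by
    rw [hN]
    apply card_le_NN A nb pos sec D P p H x0 x0 l l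
    · have : (0 : ℝ) ≤ l := Nat.cast_nonneg _
      linarith
    · omega
  have hcy : ∀ y, |pos y - pos x0| ≤ 2 * (l : ℤ) + 2 → ((bX pos sec y l).card : ℝ) ≤ N := by
    intro y hy
    rw [hN]
    apply card_le_NN A nb pos sec D P p H x0 y l l
    · have h1 : |(pos y : ℝ) - pos x0| ≤ 2 * l + 2 := by exact_mod_cast hy
      have h2 := abs_sub_abs_le_abs_sub (pos y : ℝ) (pos x0)
      have : (0 : ℝ) ≤ l := Nat.cast_nonneg _
      linarith
    · omega
  have hWm : ∀ y, 2 * (l : ℤ) + 1 ≤ |pos y - pos x0| → |pos y - pos x0| ≤ 2 * (l : ℤ) + 2 →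
      (Measure.infinitePi fun _ : X => μ) (W y) ≤
      ENNReal.ofReal (3 * (16 * B / lam) ^ 2 * Real.exp (-θ) * N * N) := by
    intro y hy hy2
    have hdis : Disjoint (bX pos sec x0 l) (bX pos sec y l) := by
      rw [Finset.disjoint_left]
      intro z hz hz'
      rw [mem_bX pos sec H.msec] at hz hz'
      rw [le_abs] at hy
      rw [abs_le] at hz hz'
      omega
    have := weg2 A H.sym H.diag μ B hμ.1 hμ.2.1 lam hlam (bX pos sec x0 l) (bX pos sec y l) hdis a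
      (Real.exp (-θ)) (Real.exp_pos _) (by rw [Real.exp_le_one_iff]; linarith)
    refine this.trans (ENNReal.ofReal_le_ofReal ?_)
    have h1 := hcy y hy2
    gcongr
  set F : Finset X := (bX pos sec x0 (2 * l + 2)).filter fun y => 2 * (l : ℤ) + 1 ≤ |pos y - pos x0|
    with hF
  have hFm : ∀ y, y ∈ F ↔ |pos y - pos x0| ≤ 2 * (l : ℤ) + 2 ∧ 2 * (l : ℤ) + 1 ≤ |pos y - pos x0| := by
    intro y
    rw [hF, Finset.mem_filter, mem_bX pos sec H.msec]
    push_cast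
    exact Iff.rfl
  have hFc : (F.card : ℝ) ≤ N := by
    have h1 : F.card ≤ (bX pos sec x0 (2 * l + 2)).card :=
      Finset.card_le_card (Finset.filter_subset _ _)
    have h2 : (F.card : ℝ) ≤ ((bX pos sec x0 (2 * l + 2)).card : ℝ) := by exact_mod_cast h1
    refine h2.trans ?_
    rw [hN]
    apply card_le_NN A nb pos sec D P p H x0 x0 l (2 * l + 2)
    · have : (0 : ℝ) ≤ l := Nat.cast_nonneg _
      push_cast
      linarith
    · omega
  refine ⟨⋃ y ∈ F, (S1 x0 ∪ S1 y) ∪ W y, ?_, ?_⟩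
  · set e := Real.exp (-θ) with he
    have he0 : 0 < e := Real.exp_pos _
    have e1 : ∀ c : ℝ, Real.exp (5 * θ) * c * (|C0| * Real.exp (-(6 * θ))) = |C0| * c * e := by
      intro c
      have : e = Real.exp (5 * θ) * Real.exp (-(6 * θ)) := by
        rw [he, ← Real.exp_add]
        congr 1
        ring
      rw [this]
      ring
    have hS1b : ∀ y, |pos y - pos x0| ≤ 2 * (l : ℤ) + 2 →
        (Measure.infinitePi fun _ : X => μ) (S1 y) ≤ ENNReal.ofReal (|C0| * N * e) := by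
      intro y hy
      refine (hS1 y hy).1.trans ?_
      rw [e1]
      apply ENNReal.ofReal_le_ofReal
      have := hcy y hy
      gcongr
    set p1 : ℝ := |C0| * N * e with hp1
    set p2 : ℝ := 3 * (16 * B / lam) ^ 2 * e * N * N with hp2
    have hp1' : 0 ≤ p1 := by positivity
    have hp2' : 0 ≤ p2 := by positivity
    calc (Measure.infinitePi fun _ : X => μ) (⋃ y ∈ F, (S1 x0 ∪ S1 y) ∪ W y)
        ≤ ∑ y ∈ F, (Measure.infinitePi fun _ : X => μ) ((S1 x0 ∪ S1 y) ∪ W y) :=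
          measure_biUnion_finset_le _ _
      _ ≤ ∑ y ∈ F, ENNReal.ofReal (p1 + p1 + p2) := by
          apply Finset.sum_le_sum
          intro y hy
          obtain ⟨hy1, hy2⟩ := (hFm y).1 hy
          refine (measure_union_le _ _).trans ?_
          rw [ENNReal.ofReal_add (by positivity) hp2', ENNReal.ofReal_add hp1' hp1']
          gcongr
          · refine (measure_union_le _ _).trans ?_
            exact add_le_add (hS1b x0 hx00) (hS1b y hy1)
          · exact hWm y hy2 hy1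
      _ = ENNReal.ofReal (F.card * (p1 + p1 + p2)) := by
          rw [Finset.sum_const, nsmul_eq_mul, ENNReal.ofReal_mul (by positivity)]
          simp
      _ ≤ _ := by
          apply ENNReal.ofReal_le_ofReal
          have hK20 : 0 ≤ 3 * (16 * B / lam) ^ 2 := by positivity
          set K2 : ℝ := 3 * (16 * B / lam) ^ 2 with hK2
          have hC0 : 0 ≤ |C0| := abs_nonneg _
          have h2 : N ^ 2 ≤ (1 + N) ^ 3 := by nlinarith [sq_nonneg N, mul_nonneg hN0 (sq_nonneg N)]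
          have h3 : N ^ 3 ≤ (1 + N) ^ 3 := pow_le_pow_left₀ hN0 (by linarith) 3
          calc (F.card : ℝ) * (p1 + p1 + p2) ≤ N * (p1 + p1 + p2) :=
                mul_le_mul_of_nonneg_right hFc (by positivity)
            _ = (2 * |C0|) * e * N ^ 2 + K2 * e * N ^ 3 := by
                rw [hp1, hp2]; ring
            _ ≤ (2 * |C0|) * e * (1 + N) ^ 3 + K2 * e * (1 + N) ^ 3 := by gcongr
            _ = _ := by ring
  · intro ω hω E hE y hy1 hy2
    have hyF : y ∈ F := (hFm y).2 ⟨hy2, hy1⟩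
    have hω' : ω ∉ (S1 x0 ∪ S1 y) ∪ W y := by
      intro h
      exact hω (Set.mem_iUnion₂.mpr ⟨y, hyF, h⟩)
    have h1 : ω ∉ S1 x0 := fun h => hω' (Or.inl (Or.inl h))
    have h2 : ω ∉ S1 y := fun h => hω' (Or.inl (Or.inr h))
    have h3 : ω ∉ W y := fun h => hω' (Or.inr h)
    by_cases hNr : Near (Hm (AM A (bX pos sec x0 l)) lam (rX (bX pos sec x0 l) ω) E) (Real.exp (-θ))
    · right
      apply (hS1 y hy2).2 ω h2 E hE
      intro hN'
      exact h3 ⟨E, hE, hNr, hN'⟩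
    · left
      exact (hS1 x0 hx00).2 ω h1 E hE hNr

/-! ### sums -/

theorem summ (m s : ℝ) (hm : 0 < m) (hs : 0 < s) (q : ℕ) :
    Summable fun l : ℕ => ((l : ℝ) + 1) ^ q * Real.exp (-(m * (l : ℝ) ^ s)) := by
  have h1 : (fun x : ℝ => Real.exp (-m * x)) =o[Filter.atTop] fun x : ℝ => x ^ (-((q : ℝ) + 2) / s) :=
    isLittleO_exp_neg_mul_rpow_atTop hm _
  have ht : Filter.Tendsto (fun l : ℕ => (l : ℝ) ^ s) Filter.atTop Filter.atTop :=
    (tendsto_rpow_atTop hs).comp tendsto_natCast_atTop_atTop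
  have h2 := (h1.comp_tendsto ht).isBigO
  have h3 : (fun l : ℕ => ((l : ℝ) + 1) ^ q) =O[Filter.atTop] fun l : ℕ => (l : ℝ) ^ q := by
    rw [Asymptotics.isBigO_iff]
    refine ⟨2 ^ q, ?_⟩
    filter_upwards [Filter.eventually_ge_atTop 1] with l hl
    have hl' : (1 : ℝ) ≤ l := by exact_mod_cast hl
    rw [Real.norm_of_nonneg (by positivity), Real.norm_of_nonneg (by positivity), ← mul_pow]
    exact pow_le_pow_left₀ (by positivity) (by linarith) _
  have h4 := h3.mul h2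
  have h5 : (fun l : ℕ => (l : ℝ) ^ q * ((fun x : ℝ => x ^ (-((q : ℝ) + 2) / s)) ∘
      fun l : ℕ => (l : ℝ) ^ s) l) =O[Filter.atTop] fun l : ℕ => ((l : ℝ) ^ 2)⁻¹ := by
    rw [Asymptotics.isBigO_iff]
    refine ⟨1, ?_⟩
    filter_upwards [Filter.eventually_ge_atTop 1] with l hl
    have hl' : (0 : ℝ) < l := by exact_mod_cast hl
    apply le_of_eq
    rw [one_mul]
    congr 1
    simp only [Function.comp_apply]
    rw [← Real.rpow_mul hl'.le]
    have : s * (-((q : ℝ) + 2) / s) = -((q : ℝ) + 2) := by field_simp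
    rw [this, Real.rpow_neg hl'.le, Real.rpow_add hl', Real.rpow_natCast]
    have h2' : (l : ℝ) ^ (2 : ℝ) = (l : ℝ) ^ 2 := by norm_num
    rw [h2']
    field_simp
  apply summable_of_isBigO_nat (Real.summable_nat_pow_inv.2 (by norm_num : 1 < 2))
  refine (h4.trans h5).congr_left ?_
  intro l
  simp only [Function.comp_apply]
  congr 2
  ring

theorem bdd (m s : ℝ) (hm : 0 < m) (hs : 0 < s) (q : ℕ) :
    ∃ K : ℝ, 0 ≤ K ∧ ∀ l : ℕ, ((l : ℝ) + 1) ^ q * Real.exp (-(m * (l : ℝ) ^ s)) ≤ K := by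
  have h := summ m s hm hs q
  refine ⟨∑' l : ℕ, ((l : ℝ) + 1) ^ q * Real.exp (-(m * (l : ℝ) ^ s)),
    tsum_nonneg fun n => by positivity, fun l => ?_⟩
  exact h.le_tsum l fun n _ => by positivity

theorem NN_le (P : ℝ) (p : ℕ) (R0 : ℝ) (h0 : 0 ≤ R0) (l : ℕ) :
    NN P p R0 l ≤ 5 * |P| * (5 + R0) ^ p * ((l : ℝ) + 1) ^ (p + 1) := by
  unfold NN
  have hl : (0 : ℝ) ≤ l := Nat.cast_nonneg _
  have h1 : 4 * (l : ℝ) + 5 ≤ 5 * (l + 1) := by linarith
  have h2 : 5 + R0 + 4 * (l : ℝ) ≤ (5 + R0) * (l + 1) := by nlinarith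
  calc (4 * (l : ℝ) + 5) * (|P| * (5 + R0 + 4 * l) ^ p)
      ≤ (5 * (l + 1)) * (|P| * ((5 + R0) * (l + 1)) ^ p) := by gcongr
    _ = _ := by rw [mul_pow, pow_succ]; ring

/-- almost surely, eventually one of the two boxes is good -/
theorem evt (A : X → X → ℝ) (nb : X → Finset X) (pos : X → ℤ) (sec : ℤ → Finset X) (D : ℕ)
    (P : ℝ) (p : ℕ) (H : Hyp A nb pos sec D P p) (μ : Measure ℝ) [IsProbabilityMeasure μ]
    (B : ℝ) (hμ : Reg B μ) (lam : ℝ) (hlam : 0 < lam) (C0 m s : ℝ) (hm : 0 < m) (hs : 0 < s)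
    (hdec : ∀ (l : ℕ) (Λ : Finset X), (∀ z ∈ Λ, |pos z| ≤ 10 * (l + 1)) → ∀ (E : ℝ) (x y : Λ),
      (l : ℤ) ≤ |pos x - pos y| →
      ∫⁻ V, ‖Gr (AM A Λ) lam V E x y‖ₑ ^ (1 / 4 : ℝ) ∂(Measure.pi fun _ : Λ => μ) ≤
        ENNReal.ofReal (C0 * Real.exp (-(6 * (m * (l : ℝ) ^ s)))))
    (x0 : X) (a : ℝ) :
    ∀ᵐ ω ∂(Measure.infinitePi fun _ : X => μ), ∀ᶠ l : ℕ in Filter.atTop,
      ∀ E ∈ Set.Icc a (a + 1), ∀ y, 2 * (l : ℤ) + 1 ≤ |pos y - pos x0| →
        |pos y - pos x0| ≤ 2 * (l : ℤ) + 2 →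
        GoodB A pos sec lam ω E (m * (l : ℝ) ^ s) x0 l ∨
          GoodB A pos sec lam ω E (m * (l : ℝ) ^ s) y l := by
  classical
  have hex : ∀ l : ℕ, ∃ S : Set (X → ℝ), (Measure.infinitePi fun _ : X => μ) S ≤
        ENNReal.ofReal ((2 * |C0| + 3 * (16 * B / lam) ^ 2) *
          ((1 + NN P p |(pos x0 : ℝ)| l) ^ 3 * Real.exp (-(m * (l : ℝ) ^ s)))) ∧
      (2 ≤ m * (l : ℝ) ^ s → |pos x0| ≤ l →
      ∀ ω, ω ∉ S → ∀ E ∈ Set.Icc a (a + 1), ∀ y, 2 * (l : ℤ) + 1 ≤ |pos y - pos x0| →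
        |pos y - pos x0| ≤ 2 * (l : ℤ) + 2 →
        GoodB A pos sec lam ω E (m * (l : ℝ) ^ s) x0 l ∨
          GoodB A pos sec lam ω E (m * (l : ℝ) ^ s) y l) := by
    intro l
    by_cases hl : 2 ≤ m * (l : ℝ) ^ s ∧ |pos x0| ≤ l
    · obtain ⟨S, h1, h2⟩ := pair A nb pos sec D P p H μ B hμ lam hlam C0 (m * (l : ℝ) ^ s) x0 l
        hl.2 (hdec l) a hl.1
      exact ⟨S, h1, fun _ _ => h2⟩
    · exact ⟨∅, by simp, fun h h' => absurd ⟨h, h'⟩ hl⟩
  choose S hS hSg using hex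
  obtain ⟨cN, hcN⟩ : ∃ cN : ℝ, cN = 5 * |P| * (5 + |(pos x0 : ℝ)|) ^ p := ⟨_, rfl⟩
  have hcN0 : 0 ≤ cN := by rw [hcN]; positivity
  have hsum : (∑' l, (Measure.infinitePi fun _ : X => μ) (S l)) ≠ ⊤ := by
    have hS' : ∀ l, (Measure.infinitePi fun _ : X => μ) (S l) ≤
        ENNReal.ofReal ((2 * |C0| + 3 * (16 * B / lam) ^ 2) * (1 + cN) ^ 3 *
          (((l : ℝ) + 1) ^ (3 * (p + 1)) * Real.exp (-(m * (l : ℝ) ^ s)))) := by
      intro l
      refine (hS l).trans (ENNReal.ofReal_le_ofReal ?_)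
      have h1 := NN_le P p |(pos x0 : ℝ)| (abs_nonneg _) l
      rw [← hcN] at h1
      have h2 := NN_nonneg P p |(pos x0 : ℝ)| (abs_nonneg _) l
      have h3 : (1 : ℝ) ≤ ((l : ℝ) + 1) ^ (p + 1) := by
        apply one_le_pow₀
        have : (0 : ℝ) ≤ l := Nat.cast_nonneg _
        linarith
      have h4 : 1 + NN P p |(pos x0 : ℝ)| l ≤ (1 + cN) * ((l : ℝ) + 1) ^ (p + 1) := by
        rw [add_mul, one_mul]
        linarith
      have h5 : (1 + NN P p |(pos x0 : ℝ)| l) ^ 3 ≤ (1 + cN) ^ 3 * ((l : ℝ) + 1) ^ (3 * (p + 1)) := by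
        calc (1 + NN P p |(pos x0 : ℝ)| l) ^ 3 ≤ ((1 + cN) * ((l : ℝ) + 1) ^ (p + 1)) ^ 3 :=
              pow_le_pow_left₀ (by positivity) h4 3
          _ = _ := by rw [mul_pow, ← pow_mul, mul_comm (p + 1) 3]
      calc (2 * |C0| + 3 * (16 * B / lam) ^ 2) *
            ((1 + NN P p |(pos x0 : ℝ)| l) ^ 3 * Real.exp (-(m * (l : ℝ) ^ s)))
          ≤ (2 * |C0| + 3 * (16 * B / lam) ^ 2) *
            (((1 + cN) ^ 3 * ((l : ℝ) + 1) ^ (3 * (p + 1))) * Real.exp (-(m * (l : ℝ) ^ s))) := by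
            gcongr
        _ = _ := by ring
    refine ne_top_of_le_ne_top ?_ (ENNReal.tsum_le_tsum hS')
    exact ((summ m s hm hs _).mul_left _).tsum_ofReal_ne_top
  filter_upwards [ae_eventually_notMem hsum] with ω hω
  have h2 : ∀ᶠ l : ℕ in Filter.atTop, 2 ≤ m * (l : ℝ) ^ s := by
    have : Filter.Tendsto (fun l : ℕ => m * (l : ℝ) ^ s) Filter.atTop Filter.atTop :=
      ((tendsto_rpow_atTop hs).comp tendsto_natCast_atTop_atTop).const_mul_atTop hm
    exact this.eventually_ge_atTop 2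
  have h3 : ∀ᶠ l : ℕ in Filter.atTop, |pos x0| ≤ (l : ℤ) := by
    filter_upwards [Filter.eventually_ge_atTop (pos x0).natAbs] with l hl
    rw [abs_le]
    constructor <;> omega
  filter_upwards [hω, h2, h3] with l h4 h5 h6
  exact hSg l h5 h6 ω h4

/-- the deterministic part -/
theorem deter (A : X → X → ℝ) (nb : X → Finset X) (pos : X → ℤ) (sec : ℤ → Finset X) (D : ℕ)
    (P : ℝ) (p : ℕ) (H : Hyp A nb pos sec D P p) (lam : ℝ) (m s : ℝ) (hm : 0 < m) (hs : 0 < s)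
    (hs1 : s ≤ 1) (ω : X → ℝ) (E : ℝ) (ψ : X → ℂ)
    (hP : ∃ (C : ℝ) (k : ℕ), ∀ x, ‖ψ x‖ ≤ C * (1 + |(pos x : ℝ)|) ^ k)
    (hψ : ∀ x, SL.HK A nb (fun x => lam * ω x) ψ x = (E : ℂ) * ψ x) (x0 : X) (hx0 : ψ x0 ≠ 0)
    (hev : ∀ᶠ l : ℕ in Filter.atTop,
      ∀ y, 2 * (l : ℤ) + 1 ≤ |pos y - pos x0| → |pos y - pos x0| ≤ 2 * (l : ℤ) + 2 →
        GoodB A pos sec lam ω E (m * (l : ℝ) ^ s) x0 l ∨
          GoodB A pos sec lam ω E (m * (l : ℝ) ^ s) y l) :
    ∃ C : ℝ, ∀ x, ‖ψ x‖ ≤ C * Real.exp (-(m / 8 * |(pos x : ℝ)| ^ s)) := by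
  obtain ⟨C1, k, hC1⟩ := hP
  have hC1' : ∀ x, ‖ψ x‖ ≤ |C1| * (1 + |(pos x : ℝ)|) ^ k := fun x =>
    (hC1 x).trans (mul_le_mul_of_nonneg_right (le_abs_self _) (by positivity))
  obtain ⟨R0, hR0⟩ : ∃ R0 : ℝ, R0 = |(pos x0 : ℝ)| := ⟨_, rfl⟩
  have hR00 : 0 ≤ R0 := by rw [hR0]; exact abs_nonneg _
  obtain ⟨cN, hcN⟩ : ∃ cN : ℝ, cN = 5 * |P| * (5 + R0) ^ p := ⟨_, rfl⟩
  have hcN0 : 0 ≤ cN := by rw [hcN]; positivity
  obtain ⟨K0, hK0, hK0'⟩ := bdd (m / 2) s (by positivity) hs (p + 1 + k)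
  obtain ⟨K1, hK1⟩ : ∃ K1 : ℝ, K1 = cN * D * |C1| * (4 + R0) ^ k * K0 := ⟨_, rfl⟩
  have hK10 : 0 ≤ K1 := by rw [hK1]; positivity
  have hbox : ∀ (y : X) (l : ℕ), |(pos y : ℝ)| ≤ R0 + 2 * l + 2 →
      GoodB A pos sec lam ω E (m * (l : ℝ) ^ s) y l →
      ‖ψ y‖ ≤ K1 * Real.exp (-(m / 2 * (l : ℝ) ^ s)) := by
    rintro y l hy ⟨hyb, hnear, hG⟩
    have hl : (0 : ℝ) ≤ l := Nat.cast_nonneg _
    have h1 := box_formula A nb pos sec D P p H lam ω E ψ hψ y l hyb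
      (isUnit_of_not_near _ _ hnear) (m * (l : ℝ) ^ s) (|C1| * (R0 + 4 + 3 * l) ^ k) (by positivity)
      hG (by
        intro z hz
        refine (hC1' z).trans ?_
        apply mul_le_mul_of_nonneg_left _ (abs_nonneg _)
        apply pow_le_pow_left₀ (by positivity)
        have h1 : |(pos z : ℝ) - pos y| ≤ l + 1 := by exact_mod_cast hz
        have h2 := abs_sub_abs_le_abs_sub (pos z : ℝ) (pos y)
        linarith)
    have h2 : ((bX pos sec y l).card : ℝ) ≤ cN * ((l : ℝ) + 1) ^ (p + 1) := by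
      refine (card_le_NN A nb pos sec D P p H x0 y l l ?_ (by omega)).trans ?_
      · rw [← hR0]; linarith
      · rw [← hR0, hcN]
        exact NN_le P p R0 hR00 l
    have h3 : R0 + 4 + 3 * (l : ℝ) ≤ (4 + R0) * (l + 1) := by nlinarith
    have h4 : Real.exp (-(m * (l : ℝ) ^ s)) =
        Real.exp (-(m / 2 * (l : ℝ) ^ s)) * Real.exp (-(m / 2 * (l : ℝ) ^ s)) := by
      rw [← Real.exp_add]
      congr 1
      ring
    refine h1.trans ?_
    have h5 := hK0' l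
    calc ((bX pos sec y l).card : ℝ) * D * Real.exp (-(m * (l : ℝ) ^ s)) *
          (|C1| * (R0 + 4 + 3 * l) ^ k)
        ≤ (cN * ((l : ℝ) + 1) ^ (p + 1)) * D * Real.exp (-(m * (l : ℝ) ^ s)) *
          (|C1| * ((4 + R0) * (l + 1)) ^ k) := by gcongr
      _ = cN * D * |C1| * (4 + R0) ^ k * (((l : ℝ) + 1) ^ (p + 1 + k) *
          Real.exp (-(m / 2 * (l : ℝ) ^ s))) * Real.exp (-(m / 2 * (l : ℝ) ^ s)) := by
          rw [h4, mul_pow, pow_add]
          ring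
      _ ≤ cN * D * |C1| * (4 + R0) ^ k * K0 * Real.exp (-(m / 2 * (l : ℝ) ^ s)) := by gcongr
      _ = K1 * Real.exp (-(m / 2 * (l : ℝ) ^ s)) := by rw [hK1]
  -- the box around x0 is eventually bad
  have hlim : Filter.Tendsto (fun l : ℕ => K1 * Real.exp (-(m / 2 * (l : ℝ) ^ s))) Filter.atTop
      (nhds 0) := by
    have h1 : Filter.Tendsto (fun l : ℕ => Real.exp (-(m / 2 * (l : ℝ) ^ s))) Filter.atTop
        (nhds 0) := by
      apply Real.tendsto_exp_neg_atTop_nhds_zero.comp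
      exact ((tendsto_rpow_atTop hs).comp tendsto_natCast_atTop_atTop).const_mul_atTop
        (by positivity)
    simpa using h1.const_mul K1
  have hpos : 0 < ‖ψ x0‖ := norm_pos_iff.mpr hx0
  have hbad : ∀ᶠ l : ℕ in Filter.atTop, ¬ GoodB A pos sec lam ω E (m * (l : ℝ) ^ s) x0 l := by
    filter_upwards [hlim.eventually_lt_const hpos] with l hl hgood
    have h1 := hbox x0 l (by
      rw [← hR0]
      have : (0 : ℝ) ≤ l := Nat.cast_nonneg _
      linarith) hgood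
    linarith
  obtain ⟨l0, hl0⟩ := Filter.eventually_atTop.mp (hev.and hbad)
  -- far points
  have hfar : ∀ y : X, 2 * (l0 : ℤ) + 1 ≤ |pos y - pos x0| →
      ‖ψ y‖ ≤ K1 * Real.exp (m / 8 * (R0 + 2) ^ s) * Real.exp (-(m / 8 * |(pos y : ℝ)| ^ s)) := by
    intro y hy
    obtain ⟨dn, hdn⟩ : ∃ dn : ℕ, dn = (pos y - pos x0).natAbs := ⟨_, rfl⟩
    have hdn' : (dn : ℤ) = |pos y - pos x0| := by rw [hdn]; exact Int.natCast_natAbs _
    obtain ⟨l, hl⟩ : ∃ l : ℕ, l = (dn - 1) / 2 := ⟨_, rfl⟩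
    have hl1 : 2 * (l : ℤ) + 1 ≤ |pos y - pos x0| := by omega
    have hl2 : |pos y - pos x0| ≤ 2 * (l : ℤ) + 2 := by omega
    have hl3 : l0 ≤ l := by omega
    obtain ⟨h1, h2⟩ := hl0 l hl3
    have h3 : GoodB A pos sec lam ω E (m * (l : ℝ) ^ s) y l := (h1 y hl1 hl2).resolve_left h2
    have hl2' : |(pos y : ℝ) - pos x0| ≤ 2 * l + 2 := by exact_mod_cast hl2
    have h5 := abs_sub_abs_le_abs_sub (pos y : ℝ) (pos x0)
    have h9 : |(pos y : ℝ)| ≤ R0 + 2 * l + 2 := by rw [hR0]; linarith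
    have h8 := hbox y l h9 h3
    refine h8.trans ?_
    rw [mul_assoc, ← Real.exp_add]
    apply mul_le_mul_of_nonneg_left _ hK10
    apply Real.exp_le_exp.mpr
    have hlr : (0 : ℝ) ≤ l := Nat.cast_nonneg _
    have h10 : |(pos y : ℝ)| ^ s ≤ (2 * (l : ℝ) + (R0 + 2)) ^ s :=
      Real.rpow_le_rpow (abs_nonneg _) (by linarith) hs.le
    have h11 : (2 * (l : ℝ) + (R0 + 2)) ^ s ≤ (2 * (l : ℝ)) ^ s + (R0 + 2) ^ s :=
      Real.rpow_add_le_add_rpow (by positivity) (by positivity) hs.le hs1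
    have h12 : (2 * (l : ℝ)) ^ s ≤ 2 * (l : ℝ) ^ s := by
      rw [Real.mul_rpow (by norm_num) hlr]
      apply mul_le_mul_of_nonneg_right _ (Real.rpow_nonneg hlr s)
      calc (2 : ℝ) ^ s ≤ 2 ^ (1 : ℝ) := Real.rpow_le_rpow_of_exponent_le (by norm_num) hs1
        _ = 2 := Real.rpow_one 2
    have h13 : 0 ≤ (l : ℝ) ^ s := Real.rpow_nonneg hlr s
    have h14 : |(pos y : ℝ)| ^ s ≤ 2 * (l : ℝ) ^ s + (R0 + 2) ^ s := by linarith
    have h15 := mul_le_mul_of_nonneg_left h14 (by positivity : (0 : ℝ) ≤ m / 8)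
    nlinarith [mul_nonneg hm.le h13]
  -- near points
  obtain ⟨R, hR⟩ : ∃ R : ℝ, R = R0 + (2 * l0 + 1) := ⟨_, rfl⟩
  have hRR : 0 ≤ R := by rw [hR]; positivity
  have hnear : ∀ y : X, |pos y - pos x0| < 2 * (l0 : ℤ) + 1 →
      ‖ψ y‖ ≤ |C1| * (1 + R) ^ k * Real.exp (m / 8 * R ^ s) *
        Real.exp (-(m / 8 * |(pos y : ℝ)| ^ s)) := by
    intro y hy
    have hy' : |(pos y : ℝ) - pos x0| ≤ 2 * l0 + 1 := by exact_mod_cast hy.le
    have h5 := abs_sub_abs_le_abs_sub (pos y : ℝ) (pos x0)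
    have hyR : |(pos y : ℝ)| ≤ R := by rw [hR, hR0]; linarith
    have h1 := hC1' y
    have h2 : (1 + |(pos y : ℝ)|) ^ k ≤ (1 + R) ^ k := by
      apply pow_le_pow_left₀ (by positivity)
      linarith
    have h3 : 1 ≤ Real.exp (m / 8 * R ^ s) * Real.exp (-(m / 8 * |(pos y : ℝ)| ^ s)) := by
      rw [← Real.exp_add]
      apply Real.one_le_exp
      have h4 : |(pos y : ℝ)| ^ s ≤ R ^ s := Real.rpow_le_rpow (abs_nonneg _) hyR hs.le
      have : 0 ≤ m / 8 * (R ^ s - |(pos y : ℝ)| ^ s) := by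
        apply mul_nonneg (by positivity)
        linarith
      linarith
    calc ‖ψ y‖ ≤ |C1| * (1 + |(pos y : ℝ)|) ^ k := h1
      _ ≤ |C1| * (1 + R) ^ k := mul_le_mul_of_nonneg_left h2 (abs_nonneg _)
      _ = |C1| * (1 + R) ^ k * 1 := by ring
      _ ≤ |C1| * (1 + R) ^ k * (Real.exp (m / 8 * R ^ s) *
            Real.exp (-(m / 8 * |(pos y : ℝ)| ^ s))) :=
          mul_le_mul_of_nonneg_left h3 (by positivity)
      _ = _ := by ring
  refine ⟨K1 * Real.exp (m / 8 * (R0 + 2) ^ s) + |C1| * (1 + R) ^ k * Real.exp (m / 8 * R ^ s),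
    fun y => ?_⟩
  rw [add_mul]
  by_cases hy : 2 * (l0 : ℤ) + 1 ≤ |pos y - pos x0|
  · have := hfar y hy
    have h2 : 0 ≤ |C1| * (1 + R) ^ k * Real.exp (m / 8 * R ^ s) *
        Real.exp (-(m / 8 * |(pos y : ℝ)| ^ s)) := by
      positivity
    linarith
  · have := hnear y (not_le.mp hy)
    have h2 : 0 ≤ K1 * Real.exp (m / 8 * (R0 + 2) ^ s) *
        Real.exp (-(m / 8 * |(pos y : ℝ)| ^ s)) := by
      positivity
    linarith

end Pool.Agent.L0h56.ST.Dec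

namespace Pool.Agent.L0h56.ST

/-- module M6 -/
theorem stDec : StDec := by
  intro X _ _ A nb hsym hnb hdiag hone D hD pos sec hsec hstep P p hP μ _ B hμ lam hlam C0 m s hm
    hs hs1 hdec
  have H : Dec.Hyp A nb pos sec D P p := ⟨hsym, hnb, hdiag, hone, hD, hsec, hstep, hP⟩
  have hall : ∀ᵐ ω ∂(Measure.infinitePi fun _ : X => μ), ∀ (x0 : X) (n : ℤ),
      ∀ᶠ l : ℕ in Filter.atTop, ∀ E ∈ Set.Icc (n : ℝ) (n + 1), ∀ y,
        2 * (l : ℤ) + 1 ≤ |pos y - pos x0| → |pos y - pos x0| ≤ 2 * (l : ℤ) + 2 →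
        Dec.GoodB A pos sec lam ω E (m * (l : ℝ) ^ s) x0 l ∨
          Dec.GoodB A pos sec lam ω E (m * (l : ℝ) ^ s) y l := by
    rw [ae_all_iff]
    intro x0
    rw [ae_all_iff]
    intro n
    exact Dec.evt A nb pos sec D P p H μ B hμ lam hlam C0 m s hm hs hdec x0 n
  filter_upwards [hall] with ω hω E ψ hPb hψ
  by_cases h0 : ψ = 0
  · exact ⟨0, fun x => by simp [h0]⟩
  obtain ⟨x0, hx0⟩ := Function.ne_iff.mp h0
  apply Dec.deter A nb pos sec D P p H lam m s hm hs hs1 ω E ψ hPb hψ x0 hx0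
  filter_upwards [hω x0 ⌊E⌋] with l hl y hy1 hy2
  exact hl E ⟨Int.floor_le E, (Int.lt_floor_add_one E).le⟩ y hy1 hy2

end Pool.Agent.L0h56.ST
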