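import Pool.Agent.L0h56.SL.Def
import Pool.Agent.H4R2.LO.Defs

/-!
Definitions and module statements for: localization length polynomial in the width, for the Anderson
model with uniformly distributed potential on strips (and on regions of slowly growing width).
-/

set_option autoImplicit false
set_option linter.unusedSectionVars false
set_option linter.unusedVariables false

open scoped BigOperators ENNReal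
open Complex MeasureTheory Pool.Agent.L0h56.CS Pool.Agent.L0h56.SL

namespace Pool.Agent.L0h56.ST

section

variable {ι : Type} [Fintype ι] [DecidableEq ι]

/-- the diagonal: background `V`, potential `ω`, complex displacement `τ` (with speed `vf`), absorption
`η x` at `x` and a lead at `a` -/
noncomputable def dd (V : ι → ℝ) (c : ℝ) (η : ι → ℝ) (a : ι) (ω : ι → ℝ) (τ : ι → ℂ) (x : ι) : ℂ :=
  ((V x + ω x : ℝ) : ℂ) + τ x * (vf c (ω x) : ℂ) - (η x : ℂ) * I - (if x = a then I else 0)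

/-- the column of the Green function -/
noncomputable def Gc (K : ι → ι → ℝ) (V : ι → ℝ) (c : ℝ) (η : ι → ℝ) (a : ι) (ω : ι → ℝ) (τ : ι → ℂ)
    (x : ι) : ℂ := CS.Gr K (dd V c η a ω τ) x a

/-- the reflection amplitude -/
noncomputable def Rc (K : ι → ι → ℝ) (V : ι → ℝ) (c : ℝ) (η : ι → ℝ) (a : ι) (ω : ι → ℝ)
    (τ : ι → ℂ) : ℂ := 1 + 2 * I * Gc K V c η a ω τ a

/-- the variance of the slab `S` around `B` -/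
noncomputable def Vs (K : ι → ι → ℝ) (V : ι → ℝ) (c : ℝ) (η : ι → ℝ) (a : ι) (B S : Finset ι) : ℝ :=
  ∫ ω₁, ∫ ω₂, ‖∫ ω₃, Rc K V c η a (mix B ω₁ (mix (B ∪ S) ω₂ ω₃)) 0 ∂(PI c ι) -
    ∫ ω', Rc K V c η a (mix B ω₁ ω') 0 ∂(PI c ι)‖ ^ 2 ∂(PI c ι) ∂(PI c ι)

end

/-! ### The modules -/

/-- **M0.** Basic facts on the reflection amplitude. -/
def StEnv : Prop := ∀ (ι : Type) [Fintype ι] [DecidableEq ι] (K : ι → ι → ℝ),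
  (∀ x y, K x y = K y x) → ∀ (V : ι → ℝ) (c : ℝ) (η : ι → ℝ), (∀ x, 0 < η x) → ∀ a : ι,
    (Measurable fun ω : ι → ℝ => Rc K V c η a ω 0) ∧
    (∀ x, Measurable fun ω : ι → ℝ => Gc K V c η a ω 0 x) ∧
    ∀ ω : ι → ℝ, ‖Rc K V c η a ω 0‖ ≤ 1 ∧
      1 - ‖Rc K V c η a ω 0‖ ^ 2 = 4 * ∑ x, η x * ‖Gc K V c η a ω 0 x‖ ^ 2

/-- **M1.** The slab inequality. -/
def StSlab : Prop := ∀ κ : ℝ, 0 < κ → κ < 1 → ∀ c : ℝ, 0 < c → ∃ M0 C : ℝ, 0 < M0 ∧ 0 < C ∧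
  ∀ (ι : Type) [Fintype ι] [DecidableEq ι] (K : ι → ι → ℝ), (∀ x y, K x y = K y x) →
    ∀ D : ℝ, 0 < D → (∀ x, ∑ y, |K x y| ≤ D) → ∀ (V η : ι → ℝ), (∀ x, 0 < η x) → ∀ (a : ι)
    (B S : Finset ι), Disjoint B S → a ∈ B → ∀ η0 : ℝ, (∀ x ∈ B ∪ S, η x ≤ η0) →
    ∀ (n : ℕ), 1 ≤ n → S.card ≤ n → ∀ L : ℝ, 0 < L →
    L ^ 2 * n ≤ M0 ^ 2 → ∀ v0 : ℝ, 0 < v0 → ∀ (m : ℕ) (Bad : Set (ι → ℝ)), MeasurableSet Bad →
    (∀ ω, ω ∉ Bad → ∃ d : ι → ℕ, IsLev K B S c v0 ω m d) →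
    ∫ ω, (1 - ‖Rc K V c η a ω 0‖ ^ 2) ∂(PI c ι) ≤ C * Real.sqrt n * (Vs K V c η a B S) ^ (κ / 2) +
      8 * Real.sqrt (att D L v0 m) + 4 * att D L v0 m + 5 * (PI c ι).real Bad +
      4 * η0 * (Real.pi / c + 1) * (B.card + S.card)

/-- **M2.** The transmission through a long strip is small. -/
def StTrans : Prop := ∀ D : ℕ, 1 ≤ D → ∃ C : ℝ, 1 ≤ C ∧ ∀ Q : ℝ, 1 ≤ Q →
  ∀ (ι : Type) [Fintype ι] [DecidableEq ι] (K : ι → ι → ℝ), (∀ x y, K x y = K y x) →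
    (∀ x, (Finset.univ.filter fun y => K x y ≠ 0).card ≤ D) → (∀ x, ∑ y, |K x y| ≤ Q) →
    ∀ pos : ι → ℤ, (∀ x y, K x y ≠ 0 → |pos x - pos y| ≤ 1) →
    (∀ t : ℤ, ((Finset.univ.filter fun x => pos x = t).card : ℝ) ≤ Q) →
    ∀ (V : ι → ℝ) (a b : ι) (L : ℝ), C * Q ^ 50 ≤ L → L ≤ (|pos a - pos b| : ℤ) →
    ∃ η0 : ℝ, 0 < η0 ∧ ∀ η : ℝ, 0 < η → η ≤ η0 →
      ∫ ω, ‖CS.Gr K (fun x => ((V x + ω x : ℝ) : ℂ) - η * I - (if x = a then I else 0) -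
        (if x = b then I else 0)) a b‖ ^ 2 ∂(PI 1 ι) ≤ C * L ^ (-(1 / 4 : ℝ))

/-- **M3.** From the transmission amplitude to fractional moments of the Green function. -/
def StCmp : Prop := ∃ C : ℝ, 1 ≤ C ∧ ∀ (ι : Type) [Fintype ι] [DecidableEq ι] (K : Matrix ι ι ℝ),
  K.IsSymm → (∀ i, K i i = 0) → ∀ (E : ℝ) (a b : ι), a ≠ b → ∀ τ : ℝ, 0 ≤ τ →
  (∃ η0 : ℝ, 0 < η0 ∧ ∀ η : ℝ, 0 < η → η ≤ η0 →
    ∫ ω, ‖CS.Gr (fun x y => K x y) (fun x => ((-E + ω x : ℝ) : ℂ) - η * I -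
      (if x = a then I else 0) - (if x = b then I else 0)) a b‖ ^ 2 ∂(PI 1 ι) ≤ τ) →
  ∫⁻ ω, ‖H4R2.LO.Gr K 1 ω E a b‖ₑ ^ (1 / 4 : ℝ) ∂(PI 1 ι) ≤ ENNReal.ofReal (C * τ ^ (1 / 8 : ℝ))

/-- **M4.** The iteration of fractional moments, with spheres of at most `N` points. -/
def StFm : Prop := ∀ (ι : Type) [Fintype ι] [DecidableEq ι] (μ : Measure ℝ) [IsProbabilityMeasure μ]
  (B : ℝ), H4R2.LO.Reg B μ → ∀ A : Matrix ι ι ℝ, A.IsSymm → (∀ i, A i i = 0) →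
  (∀ i j, |A i j| ≤ 1) → ∀ lam : ℝ, 0 < lam → ∀ (E : ℝ) (δ : ι → ι → ℕ), (∀ i, δ i i = 0) →
  (∀ i j, δ i j = δ j i) → (∀ i j k, δ i k ≤ δ i j + δ j k) → (∀ i j, A i j ≠ 0 → δ i j ≤ 1) →
  ∀ L N D : ℕ, (∀ i m, (Finset.univ.filter fun j => δ i j = m).card ≤ N) →
  (∀ i, (Finset.univ.filter fun j => A i j ≠ 0).card ≤ D) → ∀ ε : ℝ≥0∞,
  (∀ (Ω : Finset ι) (x u : ι), x ∈ Ω → u ∈ Ω → δ x u = L →
    ∫⁻ V, ‖H4R2.LO.Gr (H4R2.LO.cut A Ω) lam V E x u‖ₑ ^ (1 / 4 : ℝ)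
      ∂(Measure.pi fun _ : ι => μ) ≤ ε) →
  ∀ (k : ℕ) (x y : ι), k * (L + 2) ≤ δ x y →
    ∫⁻ V, ‖H4R2.LO.Gr A lam V E x y‖ₑ ^ (1 / 4 : ℝ) ∂(Measure.pi fun _ : ι => μ) ≤
      ((((N * D : ℕ) : ℝ≥0∞) ^ 2) * ENNReal.ofReal (2 * Real.sqrt (Real.sqrt (B / lam))) * ε) ^ k *
        ENNReal.ofReal (2 * Real.sqrt (Real.sqrt (B / lam)))

/-- **M5.** Exponential decay of the fractional moments on finite strips, with a length which is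
polynomial in the width and in the inverse disorder. -/
def StFV : Prop := ∀ D : ℕ, 1 ≤ D → ∃ C : ℝ, 1 ≤ C ∧ ∀ lam : ℝ, 0 < lam → ∀ W : ℝ, 1 ≤ W →
  ∀ (ι : Type) [Fintype ι] [DecidableEq ι] (A : Matrix ι ι ℝ), A.IsSymm → (∀ i, A i i = 0) →
    (∀ i j, |A i j| ≤ 1) → (∀ i, (Finset.univ.filter fun j => A i j ≠ 0).card ≤ D) →
    ∀ pos : ι → ℤ, (∀ i j, A i j ≠ 0 → |pos i - pos j| ≤ 1) →
    (∀ t : ℤ, ((Finset.univ.filter fun x => pos x = t).card : ℝ) ≤ W) → ∀ (E : ℝ) (x y : ι),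
    ∫⁻ V, ‖H4R2.LO.Gr A lam V E x y‖ₑ ^ (1 / 4 : ℝ) ∂(Measure.pi fun _ : ι => unif 1) ≤
      ENNReal.ofReal (C / min lam 1 *
        Real.exp (-((min lam 1 / W) ^ 64 / C * ((|pos x - pos y| : ℤ) : ℝ))))

/-! ### The infinite volume -/

/-- **M6.** Decay of fractional moments in finite volumes implies decay of all polynomially bounded
generalised eigenfunctions. -/
def StDec : Prop := ∀ (X : Type) [DecidableEq X] [Countable X] (A : X → X → ℝ) (nb : X → Finset X),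
  (∀ x y, A x y = A y x) → (∀ x y, A x y ≠ 0 → y ∈ nb x) → (∀ x, A x x = 0) →
  (∀ x y, |A x y| ≤ 1) → ∀ D : ℕ, (∀ x, (nb x).card ≤ D) →
  ∀ (pos : X → ℤ) (sec : ℤ → Finset X), (∀ t x, x ∈ sec t ↔ pos x = t) →
  (∀ x y, A x y ≠ 0 → |pos x - pos y| ≤ 1) →
  ∀ (P : ℝ) (p : ℕ), (∀ t : ℤ, ((sec t).card : ℝ) ≤ P * (1 + |(t : ℝ)|) ^ p) →
  ∀ (μ : Measure ℝ) [IsProbabilityMeasure μ] (B : ℝ), H4R2.LO.Reg B μ → ∀ lam : ℝ, 0 < lam →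
  ∀ C0 m s : ℝ, 0 < m → 0 < s → s ≤ 1 →
  (∀ (l : ℕ) (Λ : Finset X), (∀ z ∈ Λ, |pos z| ≤ 10 * (l + 1)) → ∀ (E : ℝ) (x y : Λ),
    (l : ℤ) ≤ |pos x - pos y| →
    ∫⁻ V, ‖H4R2.LO.Gr (Matrix.of fun i j : Λ => A i j) lam V E x y‖ₑ ^ (1 / 4 : ℝ)
      ∂(Measure.pi fun _ : Λ => μ) ≤ ENNReal.ofReal (C0 * Real.exp (-(6 * (m * (l : ℝ) ^ s))))) →
  ∀ᵐ ω ∂(Measure.infinitePi fun _ : X => μ), ∀ (E : ℝ) (ψ : X → ℂ),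
    (∃ (C : ℝ) (k : ℕ), ∀ x, ‖ψ x‖ ≤ C * (1 + |(pos x : ℝ)|) ^ k) →
    (∀ x, HK A nb (fun x => lam * ω x) ψ x = (E : ℂ) * ψ x) →
    ∃ C : ℝ, ∀ x, ‖ψ x‖ ≤ C * Real.exp (-(m / 8 * |(pos x : ℝ)| ^ s))

/-- **M7.** Generalised eigenfunction expansion and countability of the set of eigenvalues. -/
def StBgk : Prop := ∀ (X : Type) [DecidableEq X] [Countable X] (K : X → X → ℝ) (nb : X → Finset X),
  (∀ x y, K x y = K y x) → (∀ x y, K x y ≠ 0 → y ∈ nb x) → ∀ D : ℝ,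
  (∀ x, ∑ y ∈ nb x, |K x y| ≤ D) → ∀ (v w : X → ℝ), (∀ x, 0 < w x) → Summable w →
  {E : ℝ | ∃ φ : X → ℂ, φ ≠ 0 ∧ SqS φ ∧ ∀ x, HK K nb v φ x = (E : ℂ) * φ x}.Countable ∧
  ∀ g : X → ℂ, SqS g → ∀ m : Measure ℝ, IsSpec (HK K nb v) g m →
    ∀ᵐ (E : ℝ) ∂m, ∃ φ : X → ℂ, φ ≠ 0 ∧ (∃ C : ℝ, ∀ x, ‖φ x‖ ^ 2 * w x ≤ C) ∧
      ∀ x, HK K nb v φ x = (E : ℂ) * φ x

end Pool.Agent.L0h56.ST
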