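import Pool.Agent.L0h56.ST.Def
import Pool.Agent.H4R2.LO.Lw

/-!
Exponential decay of the fractional moments on finite strips.
-/

set_option autoImplicit false
set_option linter.unusedSectionVars false
set_option linter.unusedVariables false

open scoped BigOperators ENNReal
open MeasureTheory Pool.Agent.L0h56.CS Pool.Agent.L0h56.SL

namespace Pool.Agent.L0h56.ST.FV

theorem reg_unif : H4R2.LO.Reg (3 / 2) (unif 1) := by
  have := unif_prob 1 one_pos
  have h := H4R2.LO.Lw.reg_bdd (unif 1) (1 / 2) (by norm_num) ?_ ?_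
  · norm_num at h
    exact h
  · unfold unif
    rw [Measure.smul_apply, Measure.restrict_apply measurableSet_Icc.compl]
    simp
  · unfold unif
    rw [mul_one]
    refine Measure.le_iff.2 fun s hs => ?_
    rw [Measure.smul_apply, Measure.smul_apply]
    exact mul_le_mul' le_rfl (Measure.restrict_apply_le _ _)

section

variable {ι : Type} [Fintype ι] [DecidableEq ι]

theorem Hm_scale (A : Matrix ι ι ℝ) {lam : ℝ} (hlam : 0 < lam) (V : ι → ℝ) (E : ℝ) :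
    H4R2.LO.Hm A lam V E = lam • H4R2.LO.Hm (lam⁻¹ • A) 1 V (E / lam) := by
  unfold H4R2.LO.Hm
  ext i j
  rw [Matrix.add_apply, Matrix.smul_apply, Matrix.add_apply, Matrix.smul_apply,
    Matrix.diagonal_apply, Matrix.diagonal_apply]
  by_cases h : i = j
  · subst h
    simp only [if_true, smul_eq_mul]
    field_simp
  · simp only [if_neg h, smul_eq_mul]
    field_simp
    ring

theorem inv_smul_real (M : Matrix ι ι ℝ) {lam : ℝ} (hlam : 0 < lam) :
    (lam • M)⁻¹ = lam⁻¹ • M⁻¹ := by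
  by_cases h : IsUnit M.det
  · exact Matrix.inv_eq_left_inv (by
      rw [Matrix.smul_mul, Matrix.mul_smul, smul_smul, Matrix.nonsing_inv_mul _ h,
        inv_mul_cancel₀ hlam.ne', one_smul])
  · have h2 : ¬ IsUnit (lam • M).det := by
      rw [Matrix.det_smul]
      intro h3
      exact h (isUnit_of_mul_isUnit_right h3)
    rw [Matrix.nonsing_inv_apply_not_isUnit _ h, Matrix.nonsing_inv_apply_not_isUnit _ h2,
      smul_zero]

theorem Gr_scale (A : Matrix ι ι ℝ) {lam : ℝ} (hlam : 0 < lam) (V : ι → ℝ) (E : ℝ) (x y : ι) :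
    H4R2.LO.Gr A lam V E x y = lam⁻¹ * H4R2.LO.Gr (lam⁻¹ • A) 1 V (E / lam) x y := by
  unfold H4R2.LO.Gr
  rw [Hm_scale A hlam, inv_smul_real _ hlam]
  rfl

theorem cut_sym {A : Matrix ι ι ℝ} (hA : A.IsSymm) (S : Finset ι) : (H4R2.LO.cut A S).IsSymm := by
  apply Matrix.IsSymm.ext
  intro i j
  unfold H4R2.LO.cut
  rw [hA.apply i j]
  by_cases hi : i ∈ S <;> by_cases hj : j ∈ S <;> simp [hi, hj]

theorem cut_ne {A : Matrix ι ι ℝ} {S : Finset ι} {i j : ι} (h : H4R2.LO.cut A S i j ≠ 0) :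
    A i j ≠ 0 := by
  intro h0
  apply h
  unfold H4R2.LO.cut
  rw [h0, ite_self]

theorem cut_abs (A : Matrix ι ι ℝ) (S : Finset ι) (i j : ι) : |H4R2.LO.cut A S i j| ≤ |A i j| := by
  unfold H4R2.LO.cut
  split_ifs
  · exact le_rfl
  · rw [abs_zero]; exact abs_nonneg _

/-- the initial estimate -/
theorem init {D : ℕ} {C2 C3 : ℝ} (hD : 1 ≤ D)
    (H2 : ∀ Q : ℝ, 1 ≤ Q →
  ∀ (ι : Type) [Fintype ι] [DecidableEq ι] (K : ι → ι → ℝ), (∀ x y, K x y = K y x) →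
    (∀ x, (Finset.univ.filter fun y => K x y ≠ 0).card ≤ D) → (∀ x, ∑ y, |K x y| ≤ Q) →
    ∀ pos : ι → ℤ, (∀ x y, K x y ≠ 0 → |pos x - pos y| ≤ 1) →
    (∀ t : ℤ, ((Finset.univ.filter fun x => pos x = t).card : ℝ) ≤ Q) →
    ∀ (V : ι → ℝ) (a b : ι) (L : ℝ), C2 * Q ^ 50 ≤ L → L ≤ (|pos a - pos b| : ℤ) →
    ∃ η0 : ℝ, 0 < η0 ∧ ∀ η : ℝ, 0 < η → η ≤ η0 →
      ∫ ω, ‖CS.Gr K (fun x => ((V x + ω x : ℝ) : ℂ) - η * Complex.I - (if x = a then Complex.I else 0) -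
        (if x = b then Complex.I else 0)) a b‖ ^ 2 ∂(PI 1 ι) ≤ C2 * L ^ (-(1 / 4 : ℝ)))
    (H3 : ∀ (ι : Type) [Fintype ι] [DecidableEq ι] (K : Matrix ι ι ℝ),
  K.IsSymm → (∀ i, K i i = 0) → ∀ (E : ℝ) (a b : ι), a ≠ b → ∀ τ : ℝ, 0 ≤ τ →
  (∃ η0 : ℝ, 0 < η0 ∧ ∀ η : ℝ, 0 < η → η ≤ η0 →
    ∫ ω, ‖CS.Gr (fun x y => K x y) (fun x => ((-E + ω x : ℝ) : ℂ) - η * Complex.I -
      (if x = a then Complex.I else 0) - (if x = b then Complex.I else 0)) a b‖ ^ 2 ∂(PI 1 ι) ≤ τ) →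
  ∫⁻ ω, ‖H4R2.LO.Gr K 1 ω E a b‖ₑ ^ (1 / 4 : ℝ) ∂(PI 1 ι) ≤ ENNReal.ofReal (C3 * τ ^ (1 / 8 : ℝ)))
    (hC2 : 1 ≤ C2) {lam : ℝ} (hlam : 0 < lam) {W Q : ℝ} (hQ : 1 ≤ Q) (hQD : (D : ℝ) / lam ≤ Q)
    (hQW : W ≤ Q) {A : Matrix ι ι ℝ} (hA : A.IsSymm) (hd : ∀ i, A i i = 0)
    (h1 : ∀ i j, |A i j| ≤ 1) (hdeg : ∀ i, (Finset.univ.filter fun j => A i j ≠ 0).card ≤ D)
    {pos : ι → ℤ} (hpos : ∀ i j, A i j ≠ 0 → |pos i - pos j| ≤ 1)
    (hsec : ∀ t : ℤ, ((Finset.univ.filter fun x => pos x = t).card : ℝ) ≤ W) (E : ℝ) {L0 : ℕ}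
    (hL0 : C2 * Q ^ 50 ≤ L0) (Ω : Finset ι) (a b : ι) (hab : (pos a - pos b).natAbs = L0) :
    ∫⁻ V, ‖H4R2.LO.Gr (H4R2.LO.cut A Ω) lam V E a b‖ₑ ^ (1 / 4 : ℝ)
      ∂(Measure.pi fun _ : ι => unif 1) ≤
      ENNReal.ofReal (lam⁻¹ ^ (1 / 4 : ℝ) * (C3 * (C2 * (L0 : ℝ) ^ (-(1 / 4 : ℝ))) ^ (1 / 8 : ℝ))) := by
  have hP := unif_prob 1 one_pos
  set K : Matrix ι ι ℝ := lam⁻¹ • H4R2.LO.cut A Ω with hK
  have hKs : K.IsSymm := (cut_sym hA Ω).smul _
  have hKne : ∀ i j, K i j ≠ 0 → A i j ≠ 0 := fun i j h => by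
    refine cut_ne (S := Ω) fun h0 => h ?_
    rw [hK, Matrix.smul_apply, h0, smul_zero]
  have hKd : ∀ i, K i i = 0 := fun i => by
    by_contra h
    exact hKne i i h (hd i)
  have hL1 : 1 ≤ L0 := by
    have h2 : (1 : ℝ) ≤ Q ^ 50 := one_le_pow₀ hQ
    have h3 : (1 : ℝ) ≤ L0 := by nlinarith
    exact_mod_cast h3
  have hne : a ≠ b := by
    rintro rfl
    rw [sub_self] at hab
    simp at hab
    omega
  have hsum : ∀ x, ∑ y, |K x y| ≤ Q := by
    intro x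
    refine le_trans ?_ hQD
    calc ∑ y, |K x y| = ∑ y ∈ Finset.univ.filter (fun y => A x y ≠ 0), |K x y| := by
          symm
          refine Finset.sum_subset (Finset.subset_univ _) fun y _ hy => ?_
          rw [abs_eq_zero]
          by_contra h
          exact hy (Finset.mem_filter.2 ⟨Finset.mem_univ _, hKne x y h⟩)
      _ ≤ ∑ y ∈ Finset.univ.filter (fun y => A x y ≠ 0), lam⁻¹ := by
          refine Finset.sum_le_sum fun y _ => ?_
          rw [hK, Matrix.smul_apply, smul_eq_mul, abs_mul, abs_of_pos (inv_pos.2 hlam)]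
          have := (cut_abs A Ω x y).trans (h1 x y)
          exact mul_le_of_le_one_right (inv_pos.2 hlam).le this
      _ = (Finset.univ.filter (fun y => A x y ≠ 0)).card * lam⁻¹ := by
          rw [Finset.sum_const, nsmul_eq_mul]
      _ ≤ D * lam⁻¹ := by
          refine mul_le_mul_of_nonneg_right ?_ (inv_pos.2 hlam).le
          exact_mod_cast hdeg x
      _ = D / lam := by rw [div_eq_mul_inv]
  have e2 := H2 Q hQ ι (fun i j => K i j) (fun i j => hKs.apply j i)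
    (fun x => (Finset.card_le_card fun y hy => by
      rw [Finset.mem_filter] at hy ⊢
      exact ⟨hy.1, hKne x y hy.2⟩).trans (hdeg x)) hsum pos (fun i j h => hpos i j (hKne i j h))
    (fun t => (hsec t).trans hQW) (fun _ => -(E / lam)) a b L0 hL0 (by
      rw [← hab, Int.abs_eq_natAbs]
      simp)
  have hτ : 0 ≤ C2 * (L0 : ℝ) ^ (-(1 / 4 : ℝ)) := by positivity
  have e3 := H3 ι K hKs hKd (E / lam) a b hne _ hτ e2
  have e4 : ∀ V : ι → ℝ, ‖H4R2.LO.Gr (H4R2.LO.cut A Ω) lam V E a b‖ₑ ^ (1 / 4 : ℝ) =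
      ENNReal.ofReal (lam⁻¹ ^ (1 / 4 : ℝ)) * ‖H4R2.LO.Gr K 1 V (E / lam) a b‖ₑ ^ (1 / 4 : ℝ) := by
    intro V
    rw [Gr_scale _ hlam, enorm_mul, ENNReal.mul_rpow_of_nonneg _ _ (by norm_num)]
    congr 1
    rw [Real.enorm_eq_ofReal (inv_pos.2 hlam).le, ENNReal.ofReal_rpow_of_pos (inv_pos.2 hlam)]
  simp only [e4]
  rw [lintegral_const_mul' _ _ ENNReal.ofReal_ne_top, ENNReal.ofReal_mul (by positivity)]
  exact mul_le_mul' le_rfl e3

end

theorem quarter {x : ℝ} (hx : 0 ≤ x) : Real.sqrt (Real.sqrt x) = x ^ (1 / 4 : ℝ) := by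
  rw [Real.sqrt_eq_rpow, Real.sqrt_eq_rpow, ← Real.rpow_mul hx]
  norm_num

/-- the parameters -/
theorem par {D : ℕ} (hD : 1 ≤ D) {C2 C3 : ℝ} (hC2 : 1 ≤ C2) (hC3 : 1 ≤ C3) {l' lam W r L : ℝ}
    (hl0 : 0 < l') (hl1 : l' ≤ 1) (hll : l' ≤ lam) (hr : r = W / l') (hr1 : 1 ≤ r)
    (hL : (48 * (D : ℝ) ^ 2 * C3 * C2) ^ 32 * r ^ 64 ≤ L) :
    (2 * W * D) ^ 2 * (2 * (3 / 2 / lam) ^ (1 / 4 : ℝ)) *
      (lam⁻¹ ^ (1 / 4 : ℝ) * (C3 * (C2 * L ^ (-(1 / 4 : ℝ))) ^ (1 / 8 : ℝ))) ≤ Real.exp (-1) := by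
  have hlam : 0 < lam := hl0.trans_le hll
  have hD1 : (1 : ℝ) ≤ D := by exact_mod_cast hD
  have hW : W = r * l' := by rw [hr]; field_simp
  set c : ℝ := 48 * (D : ℝ) ^ 2 * C3 * C2 with hc
  have hc0 : 0 < c := by positivity
  have hr0 : 0 < r := by linarith
  have hL0 : 0 < L := lt_of_lt_of_le (by positivity) hL
  -- the power of `L`
  have h1 : (C2 * L ^ (-(1 / 4 : ℝ))) ^ (1 / 8 : ℝ) ≤ C2 * (c⁻¹ * (r ^ 2)⁻¹) := by
    rw [Real.mul_rpow (by linarith) (by positivity), ← Real.rpow_mul hL0.le]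
    have e1 : (C2 : ℝ) ^ (1 / 8 : ℝ) ≤ C2 := by
      calc (C2 : ℝ) ^ (1 / 8 : ℝ) ≤ C2 ^ (1 : ℝ) :=
            Real.rpow_le_rpow_of_exponent_le hC2 (by norm_num)
        _ = C2 := Real.rpow_one _
    have e2 : L ^ (-(1 / 4 : ℝ) * (1 / 8)) ≤ c⁻¹ * (r ^ 2)⁻¹ := by
      have e3 : c * r ^ 2 ≤ L ^ (1 / 32 : ℝ) := by
        have e4 : (c ^ 32 * r ^ 64) ^ (1 / 32 : ℝ) = c * r ^ 2 := by
          have e5 : c ^ 32 * r ^ 64 = (c * r ^ 2) ^ 32 := by ring
          rw [e5, ← Real.rpow_natCast, ← Real.rpow_mul (by positivity)]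
          norm_num
        rw [← e4]
        exact Real.rpow_le_rpow (by positivity) hL (by norm_num)
      have e6 : L ^ (-(1 / 4 : ℝ) * (1 / 8)) = (L ^ (1 / 32 : ℝ))⁻¹ := by
        rw [← Real.rpow_neg hL0.le]
        norm_num
      rw [e6, ← mul_inv]
      exact inv_anti₀ (by positivity) e3
    exact mul_le_mul e1 e2 (by positivity) (by linarith)
  -- the powers of `lam`
  have h2 : (3 / 2 / lam) ^ (1 / 4 : ℝ) ≤ 3 / 2 / l' := by
    have hb : 1 ≤ 3 / 2 / l' := by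
      rw [le_div_iff₀ hl0]
      linarith
    calc (3 / 2 / lam) ^ (1 / 4 : ℝ) ≤ (3 / 2 / l') ^ (1 / 4 : ℝ) :=
          Real.rpow_le_rpow (by positivity)
            (div_le_div_of_nonneg_left (by norm_num) hl0 hll) (by norm_num)
      _ ≤ (3 / 2 / l') ^ (1 : ℝ) := Real.rpow_le_rpow_of_exponent_le hb (by norm_num)
      _ = 3 / 2 / l' := Real.rpow_one _
  have h3 : lam⁻¹ ^ (1 / 4 : ℝ) ≤ 1 / l' := by
    have hb : 1 ≤ 1 / l' := by
      rw [le_div_iff₀ hl0]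
      linarith
    calc lam⁻¹ ^ (1 / 4 : ℝ) ≤ (1 / l') ^ (1 / 4 : ℝ) := by
          refine Real.rpow_le_rpow (by positivity) ?_ (by norm_num)
          rw [one_div]
          exact inv_anti₀ hl0 hll
      _ ≤ (1 / l') ^ (1 : ℝ) := Real.rpow_le_rpow_of_exponent_le hb (by norm_num)
      _ = 1 / l' := Real.rpow_one _
  have hC30 : 0 ≤ C3 := by linarith
  have hC20 : 0 < C2 := by linarith
  calc (2 * W * D) ^ 2 * (2 * (3 / 2 / lam) ^ (1 / 4 : ℝ)) *
      (lam⁻¹ ^ (1 / 4 : ℝ) * (C3 * (C2 * L ^ (-(1 / 4 : ℝ))) ^ (1 / 8 : ℝ)))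
      ≤ (2 * W * D) ^ 2 * (2 * (3 / 2 / l')) * (1 / l' * (C3 * (C2 * (c⁻¹ * (r ^ 2)⁻¹)))) := by
        gcongr
    _ = 12 * (D : ℝ) ^ 2 * C3 * C2 * c⁻¹ := by
        rw [hW]
        field_simp
        ring
    _ = 1 / 4 := by
        rw [hc]
        have hD0 : (D : ℝ) ≠ 0 := by positivity
        have hC3' : C3 ≠ 0 := by positivity
        field_simp
        norm_num
    _ ≤ Real.exp (-1) := by
        rw [Real.exp_neg, one_div]
        refine inv_anti₀ (Real.exp_pos _) ?_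
        have := Real.exp_one_lt_d9
        linarith

theorem stFV (hT : StTrans) (hC : StCmp) (hF : StFm) : StFV := by
  intro D hD
  obtain ⟨C2, hC2, H2⟩ := hT D hD
  obtain ⟨C3, hC3, H3⟩ := hC
  have hD1 : (1 : ℝ) ≤ D := by exact_mod_cast hD
  set c : ℝ := 48 * (D : ℝ) ^ 2 * C3 * C2 with hc
  have hD2 : (1 : ℝ) ≤ (D : ℝ) ^ 2 := one_le_pow₀ hD1
  have hc1 : 1 ≤ c := by
    have h2 : (1 : ℝ) ≤ (D : ℝ) ^ 2 * C3 := by nlinarith
    have h3 : (1 : ℝ) ≤ (D : ℝ) ^ 2 * C3 * C2 := by nlinarith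
    rw [hc]
    nlinarith
  set C4 : ℝ := c ^ 32 with hC4
  have hC41 : 1 ≤ C4 := one_le_pow₀ hc1
  refine ⟨12 * C4, by linarith, ?_⟩
  intro lam hlam W hW ι _ _ A hA hd h1 hdeg pos hpos hsec E x y
  have hP : IsProbabilityMeasure (unif 1) := unif_prob 1 one_pos
  set l' : ℝ := min lam 1 with hl'
  have hl0 : 0 < l' := lt_min hlam one_pos
  have hl1 : l' ≤ 1 := min_le_right _ _
  have hll : l' ≤ lam := min_le_left _ _
  set r : ℝ := W / l' with hr
  have hWr : W ≤ r := by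
    rw [hr, le_div_iff₀ hl0]
    exact mul_le_of_le_one_right (by linarith) hl1
  have hr1 : 1 ≤ r := hW.trans hWr
  have hr64 : (1 : ℝ) ≤ r ^ 64 := one_le_pow₀ hr1
  set L0 : ℕ := ⌈C4 * r ^ 64⌉₊ with hL0
  have hL1 : C4 * r ^ 64 ≤ L0 := Nat.le_ceil _
  have hL2 : (L0 : ℝ) ≤ C4 * r ^ 64 + 1 := (Nat.ceil_lt_add_one (by positivity)).le
  have hCr : 1 ≤ C4 * r ^ 64 := by nlinarith
  set δ : ι → ι → ℕ := fun i j => (pos i - pos j).natAbs with hδ
  set N : ℕ := ⌊2 * W⌋₊ with hN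
  have hN1 : (N : ℝ) ≤ 2 * W := Nat.floor_le (by linarith)
  set Q : ℝ := D * r with hQ
  have hQ1 : 1 ≤ Q := by rw [hQ]; nlinarith
  have hQ50 : C2 * Q ^ 50 ≤ L0 := by
    refine le_trans ?_ hL1
    have e1 : Q ^ 50 = (D : ℝ) ^ 50 * r ^ 50 := by rw [hQ, mul_pow]
    have e2 : r ^ 50 ≤ r ^ 64 := pow_le_pow_right₀ hr1 (by norm_num)
    have e3 : C2 * (D : ℝ) ^ 50 ≤ C4 := by
      have e4 : C2 * (D : ℝ) ^ 50 ≤ (C2 * (D : ℝ) ^ 2) ^ 32 := by
        rw [mul_pow, ← pow_mul]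
        have e5 : C2 ≤ C2 ^ 32 := le_self_pow₀ hC2 (by norm_num)
        have e6 : (D : ℝ) ^ 50 ≤ (D : ℝ) ^ (2 * 32) := pow_le_pow_right₀ hD1 (by norm_num)
        exact mul_le_mul e5 e6 (by positivity) (by positivity)
      refine e4.trans (pow_le_pow_left₀ (by positivity) ?_ 32)
      rw [hc]
      have e7 : 0 ≤ C2 * (D : ℝ) ^ 2 := by positivity
      have e8 : 48 * (D : ℝ) ^ 2 * C3 * C2 = (C2 * (D : ℝ) ^ 2) * (48 * C3) := by ring
      rw [e8]
      have : (1 : ℝ) ≤ 48 * C3 := by linarith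
      nlinarith
    calc C2 * Q ^ 50 = (C2 * (D : ℝ) ^ 50) * r ^ 50 := by rw [e1]; ring
      _ ≤ C4 * r ^ 64 := mul_le_mul e3 e2 (by positivity) (by linarith)
  have hQD : (D : ℝ) / lam ≤ Q := by
    rw [hQ, hr, mul_div_assoc']
    rw [div_le_div_iff₀ hlam hl0]
    have e1 : l' ≤ W * lam := by nlinarith
    calc (D : ℝ) * l' ≤ D * (W * lam) := mul_le_mul_of_nonneg_left e1 (by linarith)
      _ = D * W * lam := by ring
  have hQW : W ≤ Q := by
    rw [hQ]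
    nlinarith
  -- the iteration
  set ε : ℝ := lam⁻¹ ^ (1 / 4 : ℝ) * (C3 * (C2 * (L0 : ℝ) ^ (-(1 / 4 : ℝ))) ^ (1 / 8 : ℝ)) with hε
  have hinit := fun (Ω : Finset ι) (a b : ι) (_ : a ∈ Ω) (_ : b ∈ Ω) (hab : δ a b = L0) =>
    init hD H2 H3 hC2 hlam hQ1 hQD hQW hA hd h1 hdeg hpos hsec E hQ50 Ω a b hab
  have hsph : ∀ (i : ι) (m : ℕ), (Finset.univ.filter fun j => δ i j = m).card ≤ N := by
    intro i m
    rw [hN]
    refine Nat.le_floor ?_
    have hsub : (Finset.univ.filter fun j => δ i j = m) ⊆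
        (Finset.univ.filter fun j => pos j = pos i + m) ∪
          (Finset.univ.filter fun j => pos j = pos i - m) := by
      intro j hj
      have hj' : (pos i - pos j).natAbs = m := (Finset.mem_filter.1 hj).2
      rw [Finset.mem_union, Finset.mem_filter, Finset.mem_filter]
      have h3 : pos j = pos i + m ∨ pos j = pos i - m := by omega
      rcases h3 with h3 | h3
      · exact Or.inl ⟨Finset.mem_univ _, h3⟩
      · exact Or.inr ⟨Finset.mem_univ _, h3⟩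
    have h4 : ((Finset.univ.filter fun j => δ i j = m).card : ℝ) ≤
        (Finset.univ.filter fun j => pos j = pos i + m).card +
          (Finset.univ.filter fun j => pos j = pos i - m).card := by
      exact_mod_cast (Finset.card_le_card hsub).trans (Finset.card_union_le _ _)
    have h5 := hsec (pos i + m)
    have h6 := hsec (pos i - m)
    linarith
  set n : ℕ := (pos x - pos y).natAbs with hn
  set k : ℕ := n / (L0 + 2) with hk
  have hkn : k * (L0 + 2) ≤ δ x y := Nat.div_mul_le_self n (L0 + 2)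
  have hfm := hF ι (unif 1) (3 / 2) reg_unif A hA hd h1 lam hlam E δ (fun i => by simp [hδ])
    (fun i j => by
      rw [hδ]
      dsimp only
      rw [← Int.natAbs_neg, neg_sub])
    (fun i j l => by
      rw [hδ]
      dsimp only
      omega)
    (fun i j hij => by
      have h5 := abs_le.1 (hpos i j hij)
      rw [hδ]
      dsimp only
      omega) L0 N D hsph hdeg (ENNReal.ofReal ε) hinit k x y hkn
  refine hfm.trans ?_
  have hB : 0 ≤ 3 / 2 / lam := by positivity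
  rw [quarter hB]
  have hq0 : 0 ≤ 2 * (3 / 2 / lam) ^ (1 / 4 : ℝ) := by positivity
  have hε0 : 0 ≤ ε := by positivity
  have hfac : ((N * D : ℕ) : ℝ≥0∞) ^ 2 * ENNReal.ofReal (2 * (3 / 2 / lam) ^ (1 / 4 : ℝ)) *
      ENNReal.ofReal ε ≤ ENNReal.ofReal (Real.exp (-1)) := by
    have e1 : ((N * D : ℕ) : ℝ≥0∞) ^ 2 = ENNReal.ofReal (((N * D : ℕ) : ℝ) ^ 2) := by
      rw [ENNReal.ofReal_pow (by positivity), ENNReal.ofReal_natCast]
    rw [e1, ← ENNReal.ofReal_mul (by positivity), ← ENNReal.ofReal_mul (by positivity)]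
    refine ENNReal.ofReal_le_ofReal ?_
    refine le_trans ?_ (par (D := D) hD hC2 hC3 hl0 hl1 hll hr hr1 (L := (L0 : ℝ)) hL1)
    refine mul_le_mul_of_nonneg_right (mul_le_mul_of_nonneg_right ?_ hq0) hε0
    refine pow_le_pow_left₀ (by positivity) ?_ 2
    push_cast
    exact mul_le_mul_of_nonneg_right hN1 (by linarith)
  calc (((N * D : ℕ) : ℝ≥0∞) ^ 2 * ENNReal.ofReal (2 * (3 / 2 / lam) ^ (1 / 4 : ℝ)) *
      ENNReal.ofReal ε) ^ k * ENNReal.ofReal (2 * (3 / 2 / lam) ^ (1 / 4 : ℝ))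
      ≤ ENNReal.ofReal (Real.exp (-1)) ^ k *
        ENNReal.ofReal (2 * (3 / 2 / lam) ^ (1 / 4 : ℝ)) := by gcongr
    _ = ENNReal.ofReal (Real.exp (-1) ^ k * (2 * (3 / 2 / lam) ^ (1 / 4 : ℝ))) := by
        rw [ENNReal.ofReal_mul (p := Real.exp (-1) ^ k) (by positivity),
          ENNReal.ofReal_pow (Real.exp_pos _).le]
    _ ≤ _ := by
        refine ENNReal.ofReal_le_ofReal ?_
        have h2 : (3 / 2 / lam) ^ (1 / 4 : ℝ) ≤ 3 / 2 / l' := by
          have hb : 1 ≤ 3 / 2 / l' := by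
            rw [le_div_iff₀ hl0]
            linarith
          calc (3 / 2 / lam) ^ (1 / 4 : ℝ) ≤ (3 / 2 / l') ^ (1 / 4 : ℝ) :=
                Real.rpow_le_rpow (by positivity)
                  (div_le_div_of_nonneg_left (by norm_num) hl0 hll) (by norm_num)
            _ ≤ (3 / 2 / l') ^ (1 : ℝ) := Real.rpow_le_rpow_of_exponent_le hb (by norm_num)
            _ = 3 / 2 / l' := Real.rpow_one _
        -- the exponential
        have h3 : Real.exp (-1) ^ k ≤ 3 * Real.exp (-((l' / W) ^ 64 / (12 * C4) *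
            ((|pos x - pos y| : ℤ) : ℝ))) := by
          have e1 : ((|pos x - pos y| : ℤ) : ℝ) = n := by
            rw [Int.abs_eq_natAbs]
            simp [hn]
          rw [e1, ← Real.exp_nat_mul]
          have e2 : (3 : ℝ) ≥ Real.exp 1 := by
            have := Real.exp_one_lt_d9
            linarith
          refine le_trans ?_ (mul_le_mul_of_nonneg_right e2 (Real.exp_pos _).le)
          rw [← Real.exp_add]
          refine Real.exp_le_exp.2 ?_
          have e3 : (n : ℝ) < (k + 1) * (L0 + 2) := by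
            have := Nat.lt_div_mul_add (a := n) (b := L0 + 2) (by omega)
            have h4 : n < (k + 1) * (L0 + 2) := by
              rw [hk]
              nlinarith
            exact_mod_cast h4
          have e4 : (l' / W) ^ 64 / (12 * C4) * n ≤ k + 1 := by
            have e5 : (l' / W) ^ 64 = (r ^ 64)⁻¹ := by
              rw [hr, ← inv_pow, inv_div]
            have e6 : (L0 : ℝ) + 2 ≤ 12 * C4 * r ^ 64 := by linarith
            have e7 : (n : ℝ) ≤ (k + 1) * (12 * C4 * r ^ 64) :=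
              e3.le.trans (mul_le_mul_of_nonneg_left e6 (by positivity))
            rw [e5]
            calc (r ^ 64)⁻¹ / (12 * C4) * n ≤
                (r ^ 64)⁻¹ / (12 * C4) * ((k + 1) * (12 * C4 * r ^ 64)) :=
                  mul_le_mul_of_nonneg_left e7 (by positivity)
              _ = k + 1 := by
                  field_simp
          linarith
        have h4 : (0 : ℝ) ≤ Real.exp (-1) ^ k := by positivity
        calc Real.exp (-1) ^ k * (2 * (3 / 2 / lam) ^ (1 / 4 : ℝ))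
            ≤ (3 * Real.exp (-((l' / W) ^ 64 / (12 * C4) * ((|pos x - pos y| : ℤ) : ℝ)))) *
              (2 * (3 / 2 / l')) := by gcongr
          _ = 9 / l' * Real.exp (-((l' / W) ^ 64 / (12 * C4) * ((|pos x - pos y| : ℤ) : ℝ))) := by
              ring
          _ ≤ 12 * C4 / l' * Real.exp (-((l' / W) ^ 64 / (12 * C4) *
              ((|pos x - pos y| : ℤ) : ℝ))) := by
              gcongr
              linarith

end Pool.Agent.L0h56.ST.FV
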