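import Pool.Agent.L0h56.ST.Def
import Pool.Agent.H4R2.LO.Fm

/-!
# The fractional moment iteration, with the number of terms controlled by the spheres and the degree
(helper71)
-/

set_option autoImplicit false
set_option linter.unusedSectionVars false

open scoped BigOperators ENNReal
open MeasureTheory

namespace Pool.Agent.L0h56.ST.Fm

open Pool.Agent.H4R2.LO (Hm Gr Near Reg cut)
open Pool.Agent.H4R2.LO.Fm

variable {ι : Type} [Fintype ι] [DecidableEq ι]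

/-- the index set -/
noncomputable def PS (A : Matrix ι ι ℝ) (δ : ι → ι → ℕ) (L : ℕ) (Ω : Finset ι) (x : ι) :
    Finset (ι × ι × ι × ι) :=
  open Classical in
  ((Ω.filter fun z => δ x z = L) ×ˢ (Ω.filter fun z => δ x z = L + 1) ×ˢ
    (Ω.filter fun z => δ x z = L + 1) ×ˢ (Ω.filter fun z => δ x z = L + 2)).filter
      fun p => A p.1 p.2.1 ≠ 0 ∧ A p.2.2.1 p.2.2.2 ≠ 0

/-- the deterministic inequality -/
theorem det_ineq' {A : Matrix ι ι ℝ} (h1 : ∀ i j, |A i j| ≤ 1) {lam : ℝ} {V : ι → ℝ} {E : ℝ}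
    {δ : ι → ι → ℕ} (hδs : ∀ i j, δ i j = δ j i)
    (hδt : ∀ i j k, δ i k ≤ δ i j + δ j k) (hδ1 : ∀ i j, A i j ≠ 0 → δ i j ≤ 1) (L : ℕ)
    (Ω : Finset ι) (x y : ι) (hx : x ∈ Ω) (hxx : δ x x = 0) (hy : y ∈ Ω) (hxy : L + 2 ≤ δ x y)
    (hdet : IsUnit (Hm (cut A Ω) lam V E).det)
    (hdet1 : IsUnit (Hm (cut A (Ω.filter fun z => δ x z ≤ L)) lam V E).det)
    (hdet2 : IsUnit (Hm (cut A (Ω.filter fun z => L + 2 ≤ δ x z)) lam V E).det) :
    ‖Gr (cut A Ω) lam V E x y‖ₑ ^ (1 / 4 : ℝ) ≤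
      ∑ p ∈ PS A δ L Ω x,
        (‖Gr (cut A (Ω.filter fun z => δ x z ≤ L)) lam V E x p.1‖ₑ ^ (1 / 4 : ℝ) *
          ‖Gr (cut A (Ω.filter fun z => L + 2 ≤ δ x z)) lam V E p.2.2.2 y‖ₑ ^ (1 / 4 : ℝ)) *
          ‖Gr (cut A Ω) lam V E p.2.1 p.2.2.1‖ₑ ^ (1 / 4 : ℝ) := by
  classical
  have e1 := exp1 hδt hδ1 L Ω x y hx hxx hy (by omega) hdet hdet1
  have e2 : Gr (cut A Ω) lam V E x y = ∑ p ∈ (Ω.filter fun z => δ x z = L) ×ˢ
      (Ω.filter fun z => δ x z = L + 1) ×ˢ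
          (Ω.filter fun z => δ x z = L + 1) ×ˢ (Ω.filter fun z => δ x z = L + 2),
        Gr (cut A (Ω.filter fun z => δ x z ≤ L)) lam V E x p.1 * A p.1 p.2.1 *
          (Gr (cut A Ω) lam V E p.2.1 p.2.2.1 * A p.2.2.1 p.2.2.2 *
          Gr (cut A (Ω.filter fun z => L + 2 ≤ δ x z)) lam V E p.2.2.2 y) := by
    rw [e1, ← Finset.sum_neg_distrib, Finset.sum_product]
    apply Finset.sum_congr rfl
    intro u _
    rw [← Finset.sum_neg_distrib, Finset.sum_product]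
    apply Finset.sum_congr rfl
    intro u' hu'
    rw [exp2 hδt hδ1 L Ω x y u' hy hxy (Finset.mem_filter.1 hu').2 hdet hdet2 hδs,
      mul_neg, neg_neg, Finset.sum_product, Finset.mul_sum]
    apply Finset.sum_congr rfl
    intro v _
    rw [Finset.mul_sum]
  have e3 : Gr (cut A Ω) lam V E x y = ∑ p ∈ PS A δ L Ω x,
        Gr (cut A (Ω.filter fun z => δ x z ≤ L)) lam V E x p.1 * A p.1 p.2.1 *
          (Gr (cut A Ω) lam V E p.2.1 p.2.2.1 * A p.2.2.1 p.2.2.2 *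
          Gr (cut A (Ω.filter fun z => L + 2 ≤ δ x z)) lam V E p.2.2.2 y) := by
    rw [e2]
    unfold PS
    symm
    apply Finset.sum_filter_of_ne
    intro p _ hne
    constructor
    · intro h0
      apply hne
      rw [h0]
      ring
    · intro h0
      apply hne
      rw [h0]
      ring
  rw [e3]
  refine (enorm_rpow_sum _ _).trans (Finset.sum_le_sum fun p _ => ?_)
  have hA : ∀ i j, ‖A i j‖ₑ ^ (1 / 4 : ℝ) ≤ 1 := by
    intro i j
    apply ENNReal.rpow_le_one _ (by norm_num)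
    rw [← ofReal_norm, Real.norm_eq_abs]
    exact ENNReal.ofReal_le_one.2 (h1 i j)
  rw [enorm_mul, enorm_mul, enorm_mul, enorm_mul,
    ENNReal.mul_rpow_of_nonneg _ _ (by norm_num : (0 : ℝ) ≤ 1 / 4),
    ENNReal.mul_rpow_of_nonneg _ _ (by norm_num : (0 : ℝ) ≤ 1 / 4),
    ENNReal.mul_rpow_of_nonneg _ _ (by norm_num : (0 : ℝ) ≤ 1 / 4),
    ENNReal.mul_rpow_of_nonneg _ _ (by norm_num : (0 : ℝ) ≤ 1 / 4)]
  calc _ ≤ ‖Gr (cut A (Ω.filter fun z => δ x z ≤ L)) lam V E x p.1‖ₑ ^ (1 / 4 : ℝ) * 1 *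
        (‖Gr (cut A Ω) lam V E p.2.1 p.2.2.1‖ₑ ^ (1 / 4 : ℝ) * 1 *
          ‖Gr (cut A (Ω.filter fun z => L + 2 ≤ δ x z)) lam V E p.2.2.2 y‖ₑ ^ (1 / 4 : ℝ)) := by
        gcongr
        · exact hA _ _
        · exact hA _ _
    _ = _ := by
        rw [mul_one, mul_one]
        ring

open Classical in
/-- the number of terms -/
theorem card_PS (A : Matrix ι ι ℝ) (δ : ι → ι → ℕ) (L N D : ℕ)
    (hN : ∀ i m, (Finset.univ.filter fun j => δ i j = m).card ≤ N)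
    (hD : ∀ i, (Finset.univ.filter fun j => A i j ≠ 0).card ≤ D) (Ω : Finset ι) (x : ι) :
    (PS A δ L Ω x).card ≤ (N * D) ^ 2 := by
  obtain ⟨R, hR⟩ : ∃ R : ℕ → Finset (ι × ι), R = fun m =>
      (Finset.univ.filter fun u => δ x u = m).biUnion fun u =>
        (Finset.univ.filter fun u' => A u u' ≠ 0).image fun u' => (u, u') := ⟨_, rfl⟩
  have hRc : ∀ m, (R m).card ≤ N * D := by
    intro m
    rw [hR]
    simp only
    calc _ ≤ (Finset.univ.filter fun u => δ x u = m).card * D := by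
          apply Finset.card_biUnion_le_card_mul
          intro u _
          exact Finset.card_image_le.trans (hD u)
      _ ≤ N * D := Nat.mul_le_mul_right D (hN x m)
  have hRm : ∀ m u u', δ x u = m → A u u' ≠ 0 → (u, u') ∈ R m := by
    intro m u u' h1 h2
    rw [hR]
    simp only
    rw [Finset.mem_biUnion]
    exact ⟨u, Finset.mem_filter.2 ⟨Finset.mem_univ _, h1⟩,
      Finset.mem_image.2 ⟨u', Finset.mem_filter.2 ⟨Finset.mem_univ _, h2⟩, rfl⟩⟩
  have h1 : (PS A δ L Ω x).card ≤ (R L ×ˢ R (L + 1)).card := by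
    apply Finset.card_le_card_of_injOn
      (fun p : ι × ι × ι × ι => (((p.1, p.2.1), (p.2.2.1, p.2.2.2)) : (ι × ι) × (ι × ι)))
    · intro p hp
      rw [Finset.mem_coe] at hp
      unfold PS at hp
      rw [Finset.mem_filter, Finset.mem_product, Finset.mem_product, Finset.mem_product] at hp
      simp only [Finset.mem_filter] at hp
      rw [Finset.mem_coe, Finset.mem_product]
      exact ⟨hRm L _ _ hp.1.1.2 hp.2.1, hRm (L + 1) _ _ hp.1.2.2.1.2 hp.2.2⟩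
    · rintro ⟨a, b, c, d⟩ _ ⟨a', b', c', d'⟩ _ h
      simp only [Prod.mk.injEq] at h
      obtain ⟨⟨rfl, rfl⟩, rfl, rfl⟩ := h
      rfl
  refine h1.trans ?_
  rw [Finset.card_product, pow_two]
  exact Nat.mul_le_mul (hRc _) (hRc _)

/-- fractional moment iteration -/
theorem fm (μ : Measure ℝ) [IsProbabilityMeasure μ] (B : ℝ) (hμ : Reg B μ) (A : Matrix ι ι ℝ)
    (hA : A.IsSymm) (hd : ∀ i, A i i = 0) (h1 : ∀ i j, |A i j| ≤ 1) (lam : ℝ) (hlam : 0 < lam)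
    (E : ℝ) (δ : ι → ι → ℕ) (hδ0 : ∀ i, δ i i = 0) (hδs : ∀ i j, δ i j = δ j i)
    (hδt : ∀ i j k, δ i k ≤ δ i j + δ j k) (hδ1 : ∀ i j, A i j ≠ 0 → δ i j ≤ 1) (L N D : ℕ)
    (hN : ∀ i m, (Finset.univ.filter fun j => δ i j = m).card ≤ N)
    (hD : ∀ i, (Finset.univ.filter fun j => A i j ≠ 0).card ≤ D) (ε : ℝ≥0∞)
    (hinit : ∀ (Ω : Finset ι) (x u : ι), x ∈ Ω → u ∈ Ω → δ x u = L →
      ∫⁻ V, ‖Gr (cut A Ω) lam V E x u‖ₑ ^ (1 / 4 : ℝ) ∂(Measure.pi fun _ : ι => μ) ≤ ε) :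
    ∀ (k : ℕ) (Ω : Finset ι) (x y : ι), x ∈ Ω → y ∈ Ω → k * (L + 2) ≤ δ x y →
      ∫⁻ V, ‖Gr (cut A Ω) lam V E x y‖ₑ ^ (1 / 4 : ℝ) ∂(Measure.pi fun _ : ι => μ) ≤
        ((((N * D : ℕ) : ℝ≥0∞) ^ 2) *
            ENNReal.ofReal (2 * Real.sqrt (Real.sqrt (B / lam))) * ε) ^ k *
          ENNReal.ofReal (2 * Real.sqrt (Real.sqrt (B / lam))) := by
  classical
  set C := ENNReal.ofReal (2 * Real.sqrt (Real.sqrt (B / lam))) with hC
  obtain ⟨Nn, hNn⟩ : ∃ Nn : ℝ≥0∞, Nn = ((N * D : ℕ) : ℝ≥0∞) ^ 2 := ⟨_, rfl⟩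
  rw [← hNn]
  have hae : ∀ S : Finset ι, ∀ᵐ V ∂(Measure.pi fun _ : ι => μ),
      IsUnit (Hm (cut A S) lam V E).det := fun S =>
    Pool.Agent.H4R2.LO.Wg.inv_ae μ B hμ.1 hμ.2.1 (cut A S) (cut_symm hA S) (cut_diag hd S) lam
      hlam E
  intro k
  induction k with
  | zero =>
    intro Ω x y _ _ _
    rw [pow_zero, one_mul]
    have := Pool.Agent.H4R2.LO.Ap.ap4_weight μ B hμ (cut A Ω) (cut_symm hA Ω) lam hlam E x y
      (fun _ => 1) measurable_const (fun _ _ _ => rfl)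
    simp only [one_mul, lintegral_const, measure_univ, mul_one] at this
    exact this
  | succ k ih =>
    intro Ω x y hx hy hk
    have hxy : L + 2 ≤ δ x y := by nlinarith
    set O1 := Ω.filter fun z => δ x z ≤ L with hO1
    set O2 := Ω.filter fun z => L + 2 ≤ δ x z with hO2
    have hPc : (PS A δ L Ω x).card ≤ (N * D) ^ 2 := card_PS A δ L N D hN hD Ω x
    have hx1 : x ∈ O1 := by
      rw [hO1, Finset.mem_filter, hδ0]
      exact ⟨hx, Nat.zero_le _⟩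
    have hy2 : y ∈ O2 := by
      rw [hO2, Finset.mem_filter]
      exact ⟨hy, hxy⟩
    have hdis : Disjoint O1 O2 := by
      rw [Finset.disjoint_left]
      intro z hz hz'
      rw [hO1, Finset.mem_filter] at hz
      rw [hO2, Finset.mem_filter] at hz'
      omega
    calc ∫⁻ V, ‖Gr (cut A Ω) lam V E x y‖ₑ ^ (1 / 4 : ℝ) ∂(Measure.pi fun _ : ι => μ)
        ≤ ∫⁻ V, ∑ p ∈ PS A δ L Ω x, (‖Gr (cut A O1) lam V E x p.1‖ₑ ^ (1 / 4 : ℝ) *
          ‖Gr (cut A O2) lam V E p.2.2.2 y‖ₑ ^ (1 / 4 : ℝ)) *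
          ‖Gr (cut A Ω) lam V E p.2.1 p.2.2.1‖ₑ ^ (1 / 4 : ℝ) ∂(Measure.pi fun _ : ι => μ) := by
          apply lintegral_mono_ae
          filter_upwards [hae Ω, hae O1, hae O2] with V d0 d1 d2
          exact det_ineq' h1 hδs hδt hδ1 L Ω x y hx (hδ0 x) hy hxy d0 d1 d2
      _ = ∑ p ∈ PS A δ L Ω x, ∫⁻ V, (‖Gr (cut A O1) lam V E x p.1‖ₑ ^ (1 / 4 : ℝ) *
          ‖Gr (cut A O2) lam V E p.2.2.2 y‖ₑ ^ (1 / 4 : ℝ)) *
          ‖Gr (cut A Ω) lam V E p.2.1 p.2.2.1‖ₑ ^ (1 / 4 : ℝ) ∂(Measure.pi fun _ : ι => μ) := by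
          apply lintegral_finsetSum
          intro p _
          exact ((meas_fr _ _ _ _ _).mul (meas_fr _ _ _ _ _)).mul (meas_fr _ _ _ _ _)
      _ ≤ ∑ p ∈ PS A δ L Ω x, C * (ε * ((Nn * C * ε) ^ k * C)) := by
          apply Finset.sum_le_sum
          rintro ⟨u, u', v, v'⟩ hp
          unfold PS at hp
          rw [Finset.mem_filter, Finset.mem_product, Finset.mem_product, Finset.mem_product] at hp
          simp only [Finset.mem_filter] at hp
          obtain ⟨⟨⟨hu, hu2⟩, ⟨hu', hu'2⟩, ⟨hv, hv2⟩, hv', hv'2⟩, _⟩ := hp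
          apply term μ B hμ A hA hd lam hlam E Ω O1 O2 hdis x u u' v v' y hx1
          · rw [hO2, Finset.mem_filter]; exact ⟨hv', by omega⟩
          · rw [hO1, Finset.mem_filter]; intro h; omega
          · rw [hO2, Finset.mem_filter]; intro h; omega
          · rw [hO1, Finset.mem_filter]; intro h; omega
          · rw [hO2, Finset.mem_filter]; intro h; omega
          · apply hinit O1 x u hx1
            · rw [hO1, Finset.mem_filter]; exact ⟨hu, by omega⟩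
            · exact hu2
          · apply ih O2 v' y
            · rw [hO2, Finset.mem_filter]; exact ⟨hv', by omega⟩
            · exact hy2
            · have := hδt x v' y
              have h5 : (k + 1) * (L + 2) = k * (L + 2) + (L + 2) := by ring
              omega
      _ = ((PS A δ L Ω x).card : ℝ≥0∞) * (C * (ε * ((Nn * C * ε) ^ k * C))) := by
          rw [Finset.sum_const, nsmul_eq_mul]
      _ ≤ Nn * (C * (ε * ((Nn * C * ε) ^ k * C))) := by
          gcongr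
          rw [hNn]
          exact_mod_cast hPc
      _ = (Nn * C * ε) ^ (k + 1) * C := by
          ring

end Pool.Agent.L0h56.ST.Fm

namespace Pool.Agent.L0h56.ST

/-- module M4 -/
theorem stFm : StFm := by
  intro ι _ _ μ _ B hμ A hA hd h1 lam hlam E δ hδ0 hδs hδt hδ1 L N D hN hD ε hinit k x y hk
  have h := Fm.fm μ B hμ A hA hd h1 lam hlam E δ hδ0 hδs hδt hδ1 L N D
    (fun i m => by convert hN i m) (fun i => by convert hD i) ε hinit k Finset.univ x y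
    (Finset.mem_univ x) (Finset.mem_univ y) hk
  have hcut : H4R2.LO.cut A Finset.univ = A := by
    ext i j
    unfold H4R2.LO.cut
    rw [if_pos ⟨Finset.mem_univ i, Finset.mem_univ j⟩]
  rw [hcut] at h
  exact h

end Pool.Agent.L0h56.ST
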