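import Pool.Agent.L0h56.ST.FV
import Pool.Agent.L0h56.SL.Inf

/-!
Assembly: localization on strips of slowly growing width.
-/

set_option autoImplicit false
set_option linter.unusedSectionVars false
set_option linter.unusedVariables false

open scoped BigOperators ENNReal
open MeasureTheory Pool.Agent.L0h56.CS Pool.Agent.L0h56.SL

namespace Pool.Agent.L0h56.ST.Main

/-! ### scaling of the potential -/

theorem unif_scale {c : ℝ} (hc : 0 < c) : (unif 1).map (fun t => c * t) = unif c := by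
  refine Measure.ext fun s hs => ?_
  have hm : Measurable fun t : ℝ => c * t := measurable_const_mul c
  rw [Measure.map_apply hm hs]
  unfold unif
  rw [Measure.smul_apply, Measure.smul_apply, Measure.restrict_apply (hm hs),
    Measure.restrict_apply hs, smul_eq_mul, smul_eq_mul]
  have e : (fun t : ℝ => c * t) ⁻¹' s ∩ Set.Icc (-1) 1 =
      (fun t : ℝ => c * t) ⁻¹' (s ∩ Set.Icc (-c) c) := by
    ext t
    simp only [Set.mem_inter_iff, Set.mem_preimage, Set.mem_Icc]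
    have h1 : -1 ≤ t ↔ -c ≤ c * t := by
      constructor
      · intro h; nlinarith
      · intro h
        by_contra h2
        nlinarith [not_le.1 h2]
    have h2 : t ≤ 1 ↔ c * t ≤ c := by
      constructor
      · intro h; nlinarith
      · intro h
        by_contra h2
        nlinarith [not_le.1 h2]
    rw [h1, h2]
  rw [e, Real.volume_preimage_mul_left hc.ne', ← mul_assoc,
    ← ENNReal.ofReal_mul (by positivity), abs_of_pos (inv_pos.2 hc)]
  congr 2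
  field_simp

theorem infinitePi_scale {X : Type} {c : ℝ} (hc : 0 < c) :
    (Measure.infinitePi fun _ : X => unif 1).map (fun ω x => c * ω x) =
      Measure.infinitePi fun _ : X => unif c := by
  have hP := unif_prob 1 one_pos
  have hP2 := unif_prob c hc
  have h := Measure.infinitePi_map_pi (μ := fun _ : X => unif 1) (Y := fun _ => ℝ)
    (f := fun _ t => c * t) (fun _ => measurable_const_mul c)
  simp only [unif_scale hc] at h
  exact h

theorem ae_scale {X : Type} {c : ℝ} (hc : 0 < c) {P : (X → ℝ) → Prop}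
    (h : ∀ᵐ ω ∂(Measure.infinitePi fun _ : X => unif 1), P fun x => c * ω x) :
    ∀ᵐ ω ∂(Measure.infinitePi fun _ : X => unif c), P ω := by
  rw [← infinitePi_scale hc]
  have he : MeasurableEmbedding (fun (ω : X → ℝ) (x : X) => c * ω x) :=
    (MeasurableEquiv.piCongrRight fun _ : X => MeasurableEquiv.mulLeft₀ c hc.ne').measurableEmbedding
  exact (he.ae_map_iff).2 h

/-! ### weights -/

section

variable {X : Type} [DecidableEq X]

theorem wt_summ {pos : X → ℤ} {sec : ℤ → Finset X} (hsec : ∀ t x, x ∈ sec t ↔ pos x = t) {W : ℝ}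
    (hW : ∀ t : ℤ, ((sec t).card : ℝ) ≤ W * (1 + |(t : ℝ)|)) :
    Summable fun x : X => ((1 + |(pos x : ℝ)|) ^ 4)⁻¹ := by
  have hs : Summable fun t : ℤ => W * (((1 : ℝ) + |(t : ℝ)|) ^ 3)⁻¹ := by
    refine Summable.mul_left _ ?_
    have h1 : Summable fun n : ℕ => (((1 : ℝ) + (n : ℝ)) ^ 3)⁻¹ := by
      have h := (summable_nat_add_iff (f := fun n : ℕ => ((n : ℝ) ^ 3)⁻¹) 1).2
        (Real.summable_nat_pow_inv.2 (by norm_num : 1 < 3))
      refine h.congr fun n => ?_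
      push_cast
      rw [add_comm]
    apply Summable.of_nat_of_neg
    · simpa using h1
    · simpa using h1
  refine summable_of_sum_le (c := ∑' t : ℤ, W * (((1 : ℝ) + |(t : ℝ)|) ^ 3)⁻¹)
    (fun x => by positivity) fun F => ?_
  have h1 : ∑ x ∈ F, ((1 + |(pos x : ℝ)|) ^ 4)⁻¹ =
      ∑ t ∈ F.image pos, ∑ x ∈ F.filter (fun x => pos x = t), ((1 + |(pos x : ℝ)|) ^ 4)⁻¹ := by
    rw [Finset.sum_fiberwise_of_maps_to]
    intro x hx
    exact Finset.mem_image_of_mem _ hx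
  rw [h1]
  have hW0 : ∀ t : ℤ, 0 ≤ W * (1 + |(t : ℝ)|) := fun t => (Nat.cast_nonneg _).trans (hW t)
  have h2 : ∀ t ∈ F.image pos, ∑ x ∈ F.filter (fun x => pos x = t), ((1 + |(pos x : ℝ)|) ^ 4)⁻¹ ≤
      W * (((1 : ℝ) + |(t : ℝ)|) ^ 3)⁻¹ := by
    intro t _
    have h3 : ∀ x ∈ F.filter (fun x => pos x = t), ((1 + |(pos x : ℝ)|) ^ 4)⁻¹ ≤
        ((1 + |(t : ℝ)|) ^ 4)⁻¹ := by
      intro x hx
      rw [(Finset.mem_filter.1 hx).2]
    refine (Finset.sum_le_card_nsmul _ _ _ h3).trans ?_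
    rw [nsmul_eq_mul]
    have h4 : ((F.filter (fun x => pos x = t)).card : ℝ) ≤ W * (1 + |(t : ℝ)|) := by
      refine le_trans ?_ (hW t)
      have : (F.filter (fun x => pos x = t)).card ≤ (sec t).card :=
        Finset.card_le_card fun x hx => (hsec t x).2 (Finset.mem_filter.1 hx).2
      exact_mod_cast this
    have h5 : (0 : ℝ) < 1 + |(t : ℝ)| := by positivity
    calc _ ≤ W * (1 + |(t : ℝ)|) * ((1 + |(t : ℝ)|) ^ 4)⁻¹ :=
          mul_le_mul_of_nonneg_right h4 (by positivity)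
      _ = _ := by field_simp
  refine (Finset.sum_le_sum h2).trans (hs.sum_le_tsum _ fun t _ => ?_)
  have h6 := hW0 t
  have h5 : (0 : ℝ) < 1 + |(t : ℝ)| := by positivity
  have h7 : W * (((1 : ℝ) + |(t : ℝ)|) ^ 3)⁻¹ = W * (1 + |(t : ℝ)|) * ((1 + |(t : ℝ)|) ^ 4)⁻¹ := by
    field_simp
  rw [h7]
  positivity

theorem dec_sq {pos : X → ℤ} {sec : ℤ → Finset X} (hsec : ∀ t x, x ∈ sec t ↔ pos x = t) {W : ℝ}
    (hW : ∀ t : ℤ, ((sec t).card : ℝ) ≤ W * (1 + |(t : ℝ)|)) {m s : ℝ} (hm : 0 < m) (hs : 0 < s)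
    {ψ : X → ℂ} {C : ℝ} (hC : ∀ x, ‖ψ x‖ ≤ C * Real.exp (-(m * |(pos x : ℝ)| ^ s))) : SqS ψ := by
  -- the exponential beats the power
  obtain ⟨k, hk⟩ := exists_nat_gt (4 / s)
  have hk0 : (4 : ℝ) ≤ s * k := by
    rw [div_lt_iff₀ hs] at hk
    nlinarith
  have key : ∃ M : ℝ, ∀ t : ℝ, 0 ≤ t → Real.exp (-(m * t ^ s)) ^ 2 ≤ M * ((1 + t) ^ 4)⁻¹ := by
    refine ⟨16 * (1 + (k.factorial : ℝ) / (2 * m) ^ k), fun t ht => ?_⟩
    rw [← Real.exp_nat_mul]
    have h0 : 0 < (1 + t) ^ 4 := by positivity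
    rw [← div_eq_mul_inv, le_div_iff₀ h0]
    have h1 : (0 : ℝ) ≤ t ^ s := Real.rpow_nonneg ht _
    have h2 : Real.exp (((2 : ℕ) : ℝ) * -(m * t ^ s)) ≤ 1 := by
      apply Real.exp_le_one_iff.2
      have := mul_nonneg hm.le h1
      push_cast
      linarith
    have hfac : (0 : ℝ) < k.factorial := by exact_mod_cast k.factorial_pos
    have h6 : (0 : ℝ) ≤ (k.factorial : ℝ) / (2 * m) ^ k := by positivity
    rcases le_or_gt t 1 with h3 | h3
    · have h4 : (1 + t) ^ 4 ≤ 16 := by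
        calc (1 + t) ^ 4 ≤ (1 + 1) ^ 4 := pow_le_pow_left₀ (by linarith) (by linarith) 4
          _ = 16 := by norm_num
      have h7 := mul_le_mul h2 h4 h0.le zero_le_one
      refine h7.trans ?_
      rw [one_mul]
      exact le_mul_of_one_le_right (by norm_num) (le_add_of_nonneg_right h6)
    · have h4 : (1 + t) ^ 4 ≤ 16 * t ^ 4 := by
        calc (1 + t) ^ 4 ≤ (2 * t) ^ 4 := pow_le_pow_left₀ (by linarith) (by linarith) 4
          _ = _ := by ring
      have h5 : t ^ 4 ≤ (t ^ s) ^ k := by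
        rw [← Real.rpow_natCast (t ^ s) k, ← Real.rpow_mul ht, ← Real.rpow_natCast t 4]
        exact Real.rpow_le_rpow_of_exponent_le h3.le (by push_cast; exact hk0)
      have h7 : Real.exp (((2 : ℕ) : ℝ) * -(m * t ^ s)) * (t ^ s) ^ k ≤
          (k.factorial : ℝ) / (2 * m) ^ k := by
        have h8 := Real.pow_div_factorial_le_exp (x := 2 * m * t ^ s) (by positivity) k
        have h9 : Real.exp (((2 : ℕ) : ℝ) * -(m * t ^ s)) = (Real.exp (2 * m * t ^ s))⁻¹ := by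
          rw [← Real.exp_neg]
          congr 1
          push_cast
          ring
        rw [h9, inv_mul_le_iff₀ (Real.exp_pos _), mul_div_assoc', le_div_iff₀ (by positivity)]
        rw [div_le_iff₀ hfac] at h8
        calc (t ^ s) ^ k * (2 * m) ^ k = (2 * m * t ^ s) ^ k := by rw [← mul_pow]; ring
          _ ≤ _ := h8
      calc Real.exp (((2 : ℕ) : ℝ) * -(m * t ^ s)) * (1 + t) ^ 4
          ≤ Real.exp (((2 : ℕ) : ℝ) * -(m * t ^ s)) * (16 * (t ^ s) ^ k) := by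
            refine mul_le_mul_of_nonneg_left (h4.trans ?_) (Real.exp_pos _).le
            linarith
        _ = 16 * (Real.exp (((2 : ℕ) : ℝ) * -(m * t ^ s)) * (t ^ s) ^ k) := by ring
        _ ≤ 16 * ((k.factorial : ℝ) / (2 * m) ^ k) := by linarith
        _ ≤ _ := by linarith
  obtain ⟨M, hM⟩ := key
  refine Summable.of_nonneg_of_le (fun x => sq_nonneg _) (fun x => ?_)
    ((wt_summ hsec hW).mul_left (C ^ 2 * M))
  calc ‖ψ x‖ ^ 2 ≤ (C * Real.exp (-(m * |(pos x : ℝ)| ^ s))) ^ 2 :=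
        pow_le_pow_left₀ (norm_nonneg _) (hC x) 2
    _ = C ^ 2 * Real.exp (-(m * |(pos x : ℝ)| ^ s)) ^ 2 := by rw [mul_pow]
    _ ≤ C ^ 2 * (M * ((1 + |(pos x : ℝ)|) ^ 4)⁻¹) :=
        mul_le_mul_of_nonneg_left (hM _ (abs_nonneg _)) (sq_nonneg _)
    _ = _ := by ring

/-- the hypothesis of `StDec` from the finite volume estimate -/
theorem hdec {D : ℕ} {C : ℝ} (hC : 1 ≤ C)
    (H : ∀ lam : ℝ, 0 < lam → ∀ W : ℝ, 1 ≤ W →
  ∀ (ι : Type) [Fintype ι] [DecidableEq ι] (A : Matrix ι ι ℝ), A.IsSymm → (∀ i, A i i = 0) →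
    (∀ i j, |A i j| ≤ 1) → (∀ i, (Finset.univ.filter fun j => A i j ≠ 0).card ≤ D) →
    ∀ pos : ι → ℤ, (∀ i j, A i j ≠ 0 → |pos i - pos j| ≤ 1) →
    (∀ t : ℤ, ((Finset.univ.filter fun x => pos x = t).card : ℝ) ≤ W) → ∀ (E : ℝ) (x y : ι),
    ∫⁻ V, ‖H4R2.LO.Gr A lam V E x y‖ₑ ^ (1 / 4 : ℝ) ∂(Measure.pi fun _ : ι => unif 1) ≤
      ENNReal.ofReal (C / min lam 1 *
        Real.exp (-((min lam 1 / W) ^ 64 / C * ((|pos x - pos y| : ℤ) : ℝ)))))
    {A : X → X → ℝ} {nb : X → Finset X} (hA : ∀ x y, A x y = A y x)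
    (hnb : ∀ x y, A x y ≠ 0 → y ∈ nb x) (hd : ∀ x, A x x = 0) (h1 : ∀ x y, |A x y| ≤ 1)
    (hdeg : ∀ x, (nb x).card ≤ D) {pos : X → ℤ} {sec : ℤ → Finset X}
    (hsec : ∀ t x, x ∈ sec t ↔ pos x = t) (hpos : ∀ x y, A x y ≠ 0 → |pos x - pos y| ≤ 1)
    {W β : ℝ} (hW : 1 ≤ W) (hβ0 : 0 ≤ β) (hβ : β < 1 / 64)
    (hcard : ∀ t : ℤ, ((sec t).card : ℝ) ≤ W * (1 + |(t : ℝ)|) ^ β) {lam : ℝ} (hlam : 0 < lam)
    (l : ℕ) (Λ : Finset X) (hΛ : ∀ z ∈ Λ, |pos z| ≤ 10 * (l + 1)) (E : ℝ) (x y : Λ)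
    (hxy : (l : ℤ) ≤ |pos x - pos y|) :
    ∫⁻ V, ‖H4R2.LO.Gr (Matrix.of fun i j : Λ => A i j) lam V E x y‖ₑ ^ (1 / 4 : ℝ)
      ∂(Measure.pi fun _ : Λ => unif 1) ≤ ENNReal.ofReal (C / min lam 1 *
        Real.exp (-(6 * ((min lam 1 / W) ^ 64 / (126 * C) * (l : ℝ) ^ (1 - 64 * β))))) := by
  set l' : ℝ := min lam 1 with hl'
  have hl0 : 0 < l' := lt_min hlam one_pos
  set T : ℝ := 1 + 10 * (l + 1) with hT
  have hl : (0 : ℝ) ≤ l := Nat.cast_nonneg _
  have hT1 : 1 ≤ T := by rw [hT]; linarith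
  set W' : ℝ := W * T ^ β with hW'
  have hTβ : 1 ≤ T ^ β := Real.one_le_rpow hT1 hβ0
  have hW'1 : 1 ≤ W' := by nlinarith
  have h := H lam hlam W' hW'1 Λ (Matrix.of fun i j : Λ => A i j)
    (Matrix.IsSymm.ext fun i j => hA _ _) (fun i => hd i) (fun i j => h1 i j) (fun i => ?_)
    (fun i => pos i) (fun i j hij => hpos i j hij) (fun t => ?_) E x y
  · refine h.trans (ENNReal.ofReal_le_ofReal ?_)
    refine mul_le_mul_of_nonneg_left (Real.exp_le_exp.2 (neg_le_neg ?_)) (by positivity)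
    have hdist : (l : ℝ) ≤ ((|pos x - pos y| : ℤ) : ℝ) := by exact_mod_cast hxy
    have h2 : (l' / W') ^ 64 / C * l ≤ (l' / W') ^ 64 / C * ((|pos x - pos y| : ℤ) : ℝ) :=
      mul_le_mul_of_nonneg_left hdist (by positivity)
    refine le_trans ?_ h2
    rcases Nat.eq_zero_or_pos l with h0 | h0
    · rw [h0, Nat.cast_zero, Real.zero_rpow (by linarith)]
      simp
    · have hl1 : (1 : ℝ) ≤ l := by exact_mod_cast h0
      have hTl : T ≤ 21 * l := by rw [hT]; linarith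
      have e1 : (T ^ β) ^ 64 ≤ 21 * (l : ℝ) ^ (64 * β) := by
        have e2 : (T ^ β) ^ 64 = T ^ (64 * β) := by
          rw [← Real.rpow_natCast, ← Real.rpow_mul (by linarith)]
          congr 1
          push_cast
          ring
        rw [e2]
        calc T ^ (64 * β) ≤ (21 * l) ^ (64 * β) :=
              Real.rpow_le_rpow (by linarith) hTl (by linarith)
          _ = 21 ^ (64 * β) * (l : ℝ) ^ (64 * β) := Real.mul_rpow (by norm_num) hl
          _ ≤ 21 ^ (1 : ℝ) * (l : ℝ) ^ (64 * β) := by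
              refine mul_le_mul_of_nonneg_right ?_ (Real.rpow_nonneg hl _)
              exact Real.rpow_le_rpow_of_exponent_le (by norm_num) (by linarith)
          _ = _ := by rw [Real.rpow_one]
      have hlp : 0 < (l : ℝ) ^ (64 * β) := Real.rpow_pos_of_pos (by linarith) _
      have e3 : (l : ℝ) ^ (1 - 64 * β) = l / (l : ℝ) ^ (64 * β) := by
        rw [Real.rpow_sub (by linarith), Real.rpow_one]
      have e4 : (l' / W') ^ 64 = (l' / W) ^ 64 * ((T ^ β) ^ 64)⁻¹ := by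
        rw [hW', ← inv_pow, ← mul_pow]
        congr 1
        field_simp
      have e5 : (21 * (l : ℝ) ^ (64 * β))⁻¹ ≤ ((T ^ β) ^ 64)⁻¹ := inv_anti₀ (by positivity) e1
      calc 6 * ((l' / W) ^ 64 / (126 * C) * (l : ℝ) ^ (1 - 64 * β))
          = (l' / W) ^ 64 * (21 * (l : ℝ) ^ (64 * β))⁻¹ / C * l := by
            rw [e3]
            field_simp
            norm_num
        _ ≤ (l' / W) ^ 64 * ((T ^ β) ^ 64)⁻¹ / C * l := by gcongr
        _ = (l' / W') ^ 64 / C * l := by rw [e4]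
  · refine le_trans ?_ (hdeg i)
    refine Finset.card_le_card_of_injOn (fun j : Λ => (j : X)) (fun j hj => ?_)
      (Subtype.val_injective.injOn)
    exact hnb i j (Finset.mem_filter.1 hj).2
  · by_cases ht : |t| ≤ 10 * (l + 1)
    · have h3 : ((Finset.univ.filter fun z : Λ => pos z = t).card : ℝ) ≤ (sec t).card := by
        have : (Finset.univ.filter fun z : Λ => pos z = t).card ≤ (sec t).card := by
          refine Finset.card_le_card_of_injOn (fun j : Λ => (j : X)) (fun j hj => ?_)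
            (Subtype.val_injective.injOn)
          exact (hsec t j).2 (Finset.mem_filter.1 hj).2
        exact_mod_cast this
      refine h3.trans ((hcard t).trans ?_)
      rw [hW']
      refine mul_le_mul_of_nonneg_left ?_ (by linarith)
      refine Real.rpow_le_rpow (by positivity) ?_ hβ0
      rw [hT]
      have : |(t : ℝ)| ≤ 10 * (l + 1) := by exact_mod_cast ht
      linarith
    · have h3 : (Finset.univ.filter fun z : Λ => pos z = t) = ∅ := by
        refine Finset.filter_eq_empty_iff.2 fun z _ hz => ht ?_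
        rw [← hz]
        exact hΛ z z.2
      rw [h3]
      simp
      linarith

variable [Countable X]

/-- **The main theorem.** -/
theorem main (hFV : StFV) (hDec : StDec) (hBgk : StBgk) (D : ℕ) (hD : 1 ≤ D) : ∃ C : ℝ, 1 ≤ C ∧
    ∀ (X : Type) [DecidableEq X] [Countable X] (A : X → X → ℝ) (nb : X → Finset X),
    (∀ x y, A x y = A y x) → (∀ x y, A x y ≠ 0 → y ∈ nb x) → (∀ x, A x x = 0) →
    (∀ x y, |A x y| ≤ 1) → (∀ x, (nb x).card ≤ D) →
    ∀ (pos : X → ℤ) (sec : ℤ → Finset X), (∀ t x, x ∈ sec t ↔ pos x = t) →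
    (∀ x y, A x y ≠ 0 → |pos x - pos y| ≤ 1) → ∀ W β : ℝ, 1 ≤ W → 0 ≤ β → β < 1 / 64 →
    (∀ t : ℤ, ((sec t).card : ℝ) ≤ W * (1 + |(t : ℝ)|) ^ β) → ∀ c : ℝ, 0 < c → ∀ v0 : ℝ,
    ∀ᵐ ω ∂(Measure.infinitePi fun _ : X => unif c),
      (∀ (E : ℝ) (ψ : X → ℂ), (∃ (K : ℝ) (k : ℕ), ∀ x, ‖ψ x‖ ≤ K * (1 + |(pos x : ℝ)|) ^ k) →
        (∀ x, HK A nb (fun x => v0 + ω x) ψ x = (E : ℂ) * ψ x) →
        ∃ K : ℝ, ∀ x, ‖ψ x‖ ≤
          K * Real.exp (-((min c 1 / W) ^ 64 / C * |(pos x : ℝ)| ^ (1 - 64 * β)))) ∧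
      {E : ℝ | ∃ ψ : X → ℂ, ψ ≠ 0 ∧ SqS ψ ∧
        ∀ x, HK A nb (fun x => v0 + ω x) ψ x = (E : ℂ) * ψ x}.Countable ∧
      ∀ g : X → ℂ, SqS g → (∃ m : Measure ℝ, IsSpec (HK A nb fun x => v0 + ω x) g m) ∧
        ∀ m : Measure ℝ, IsSpec (HK A nb fun x => v0 + ω x) g m →
          m {E : ℝ | ∃ ψ : X → ℂ, ψ ≠ 0 ∧ SqS ψ ∧
            ∀ x, HK A nb (fun x => v0 + ω x) ψ x = (E : ℂ) * ψ x}ᶜ = 0 := by
  obtain ⟨C, hC, H⟩ := hFV D hD
  refine ⟨1008 * C, by linarith, ?_⟩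
  intro X _ _ A nb hA hnb hd h1 hdeg pos sec hsec hpos W β hW hβ0 hβ hcard c hc v0
  have hP := unif_prob 1 one_pos
  set l' : ℝ := min c 1 with hl'
  have hl0 : 0 < l' := lt_min hc one_pos
  set m : ℝ := (l' / W) ^ 64 / (126 * C) with hm
  have hm0 : 0 < m := by positivity
  set s : ℝ := 1 - 64 * β with hs
  have hs0 : 0 < s := by linarith
  have hs1 : s ≤ 1 := by linarith
  have hcard' : ∀ t : ℤ, ((sec t).card : ℝ) ≤ W * (1 + |(t : ℝ)|) := by
    intro t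
    refine (hcard t).trans (mul_le_mul_of_nonneg_left ?_ (by linarith))
    have h2 : (1 : ℝ) ≤ 1 + |(t : ℝ)| := by linarith [abs_nonneg (t : ℝ)]
    calc (1 + |(t : ℝ)|) ^ β ≤ (1 + |(t : ℝ)|) ^ (1 : ℝ) :=
          Real.rpow_le_rpow_of_exponent_le h2 (by linarith)
      _ = _ := Real.rpow_one _
  have hdk := hDec X A nb hA hnb hd h1 D hdeg pos sec hsec hpos W 1
    (fun t => by rw [pow_one]; exact hcard' t) (unif 1) (3 / 2) FV.reg_unif c hc (C / l') m s hm0 hs0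
    hs1 (fun l Λ hΛ E x y hxy => hdec hC H hA hnb hd h1 hdeg hsec hpos hW hβ0 hβ hcard hc l Λ hΛ E x y hxy)
  refine ae_scale hc ?_
  filter_upwards [hdk] with ω hω
  have hrate : ∀ x : X, m / 8 * |(pos x : ℝ)| ^ s =
      (l' / W) ^ 64 / (1008 * C) * |(pos x : ℝ)| ^ (1 - 64 * β) := by
    intro x
    have e1 : m / 8 = (l' / W) ^ 64 / (1008 * C) := by
      rw [hm]
      field_simp
      norm_num
    rw [e1]
  have hdecay : ∀ (E : ℝ) (ψ : X → ℂ),
      (∃ (K : ℝ) (k : ℕ), ∀ x, ‖ψ x‖ ≤ K * (1 + |(pos x : ℝ)|) ^ k) →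
        (∀ x, HK A nb (fun x => v0 + c * ω x) ψ x = (E : ℂ) * ψ x) →
        ∃ K : ℝ, ∀ x, ‖ψ x‖ ≤ K * Real.exp (-(m / 8 * |(pos x : ℝ)| ^ s)) := by
    intro E ψ hψ hE
    refine hω (E - v0) ψ hψ fun x => ?_
    have h2 := hE x
    unfold HK at h2 ⊢
    push_cast at h2 ⊢
    linear_combination h2
  have hDs : ∀ x, ∑ y ∈ nb x, |A x y| ≤ (D : ℝ) := by
    intro x
    calc ∑ y ∈ nb x, |A x y| ≤ ∑ y ∈ nb x, (1 : ℝ) := Finset.sum_le_sum fun y _ => h1 x y
      _ = (nb x).card := by simp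
      _ ≤ D := by exact_mod_cast hdeg x
  have hb := hBgk X A nb hA hnb D hDs (fun x => v0 + c * ω x)
    (fun x => ((1 + |(pos x : ℝ)|) ^ 4)⁻¹) (fun x => by positivity) (wt_summ hsec hcard')
  refine ⟨fun E ψ hψ hE => ?_, hb.1, fun g hg => ⟨stEx X A nb hA hnb D hDs _ g hg, fun μ hμ => ?_⟩⟩
  · obtain ⟨K, hK⟩ := hdecay E ψ hψ hE
    refine ⟨K, fun x => ?_⟩
    rw [← hrate x]
    exact hK x
  · have h3 := hb.2 g hg μ hμ
    rw [ae_iff] at h3
    refine measure_mono_null (fun E hE => ?_) h3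
    intro h4
    obtain ⟨φ, h5, ⟨K, hK⟩, h6⟩ := h4
    refine hE ⟨φ, h5, ?_, h6⟩
    have hpb : ∀ x, ‖φ x‖ ≤ Real.sqrt K * (1 + |(pos x : ℝ)|) ^ 2 := by
      intro x
      have h7 : (0 : ℝ) < 1 + |(pos x : ℝ)| := by positivity
      have h8 : ‖φ x‖ ^ 2 ≤ K * ((1 + |(pos x : ℝ)|) ^ 2) ^ 2 := by
        have h9 := hK x
        rw [← div_eq_mul_inv, div_le_iff₀ (by positivity)] at h9
        calc ‖φ x‖ ^ 2 ≤ K * (1 + |(pos x : ℝ)|) ^ 4 := h9
          _ = _ := by ring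
      have hK0 : 0 ≤ K := by
        have h10 := (sq_nonneg ‖φ x‖).trans h8
        by_contra h11
        have h12 : 0 < ((1 + |(pos x : ℝ)|) ^ 2) ^ 2 := by positivity
        nlinarith [not_le.1 h11]
      refine le_of_sq_le_sq ?_ (by positivity)
      rw [mul_pow, Real.sq_sqrt hK0]
      exact h8
    obtain ⟨K', hK'⟩ := hdecay E φ ⟨Real.sqrt K, 2, hpb⟩ h6
    exact dec_sq hsec hcard' (by positivity) hs0 hK'

end

end Pool.Agent.L0h56.ST.Main
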