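import Pool.Agent.L0h56.SL.Mix
import Pool.Agent.L0h56.ST.Anl

/-!
The conditional expectation of the reflection amplitude, and the two constants theorem for it.
-/

set_option autoImplicit false
set_option linter.unusedSectionVars false
set_option linter.unusedVariables false

open scoped BigOperators Topology
open Complex MeasureTheory Pool.Agent.L0h56.CS Pool.Agent.L0h56.SL Pool.Agent.L0h56.SL.M

namespace Pool.Agent.L0h56.ST.M

/-! ### measurability of integrals with parameters -/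

theorem meas_int {Ω Ω' : Type*} [MeasurableSpace Ω] [MeasurableSpace Ω'] (μ : Measure Ω')
    [SFinite μ] {E : Type*} [NormedAddCommGroup E] [NormedSpace ℝ E] [MeasurableSpace E]
    [BorelSpace E] [SecondCountableTopology E] {f : Ω → Ω' → E}
    (hf : Measurable fun z : Ω × Ω' => f z.1 z.2) : Measurable fun s => ∫ t, f s t ∂μ := by
  have h : StronglyMeasurable (fun z : Ω × Ω' => f z.1 z.2) := hf.stronglyMeasurable
  exact (h.integral_prod_right (f := f)).measurable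

/-! ### the weight -/

theorem wk_den {k : ℝ} (hk : 0 < k) {z : ℂ} (hz : 0 ≤ z.im) : k ≤ ‖(k : ℂ) - I * z‖ := by
  have hre : k ≤ ((k : ℂ) - I * z).re := by simp; linarith
  exact hre.trans (Complex.re_le_norm _)

theorem wk_ne {k : ℝ} (hk : 0 < k) {z : ℂ} (hz : 0 ≤ z.im) : (k : ℂ) - I * z ≠ 0 := by
  rw [← norm_pos_iff]
  exact hk.trans_le (wk_den hk hz)

theorem wk_bd {k Λ : ℝ} (hk : 0 < k) (hΛ : 0 ≤ Λ) {z : ℂ} (hz : 0 ≤ z.im) :
    ‖Wk k Λ z‖ ≤ Real.exp Λ := by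
  have hn := wk_den hk hz
  unfold Wk
  rw [Complex.norm_exp]
  apply Real.exp_le_exp.2
  calc _ ≤ ‖((Λ * k : ℝ) : ℂ) / ((k : ℂ) - I * z)‖ := Complex.re_le_norm _
    _ = Λ * k / ‖(k : ℂ) - I * z‖ := by
        rw [norm_div, Complex.norm_real, Real.norm_of_nonneg (by positivity)]
    _ ≤ Λ := by
        rw [div_le_iff₀ (by linarith)]
        exact mul_le_mul_of_nonneg_left hn hΛ

theorem wk_diff {k Λ : ℝ} (hk : 0 < k) {z : ℂ} (hz : 0 ≤ z.im) : DifferentiableAt ℂ (Wk k Λ) z := by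
  unfold Wk
  refine DifferentiableAt.cexp ?_
  refine (differentiableAt_const _).div ?_ (wk_ne hk hz)
  exact (differentiableAt_const _).sub ((differentiableAt_const _).mul differentiableAt_id)

theorem wk_meas (k Λ : ℝ) : Measurable fun t : ℝ => Wk k Λ t := by
  unfold Wk
  refine Complex.measurable_exp.comp (measurable_const.div ?_)
  exact measurable_const.sub (measurable_const.mul Complex.measurable_ofReal)

variable {ι : Type} [Fintype ι] [DecidableEq ι]

section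

variable (K : ι → ι → ℝ) (V : ι → ℝ) (c : ℝ) (η : ι → ℝ) (a : ι) (B S : Finset ι)

/-- conditional expectation given `B ∪ S` -/
noncomputable def Ph (τ : ι → ℂ) (ω₁ ω₂ : ι → ℝ) : ℂ :=
  ∫ ω₃, Rc K V c η a (mix B ω₁ (mix (B ∪ S) ω₂ ω₃)) τ ∂(PI c ι)

/-- conditional expectation given `B` -/
noncomputable def cz (ω₁ : ι → ℝ) : ℂ := ∫ ω', Rc K V c η a (mix B ω₁ ω') 0 ∂(PI c ι)

/-- the variance for given `ω₁` -/
noncomputable def V1 (ω₁ : ι → ℝ) : ℝ :=
  ∫ ω₂, ‖Ph K V c η a B S 0 ω₁ ω₂ - cz K V c η a B ω₁‖ ^ 2 ∂(PI c ι)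

theorem Vs_eq : Vs K V c η a B S = ∫ ω₁, V1 K V c η a B S ω₁ ∂(PI c ι) := rfl

variable {K V c η a B S}

theorem V1_nonneg (ω₁ : ι → ℝ) : 0 ≤ V1 K V c η a B S ω₁ := integral_nonneg fun _ => sq_nonneg _

theorem meas_Ph (hc : 0 < c) {Ω : Type*} [MeasurableSpace Ω] {t : Ω → ι → ℂ}
    (ht : ∀ x, Measurable fun s => t s x) {w₁ w₂ : Ω → ι → ℝ} (h₁ : Measurable w₁)
    (h₂ : Measurable w₂) : Measurable fun s => Ph K V c η a B S (t s) (w₁ s) (w₂ s) := by
  have hP := PI_prob (ι := ι) hc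
  unfold Ph
  refine meas_int (PI c ι) (f := fun s ω₃ => Rc K V c η a (mix B (w₁ s) (mix (B ∪ S) (w₂ s) ω₃)) (t s)) ?_
  refine meas_Rc K V c η a (Ω := Ω × (ι → ℝ)) (w := fun z => mix B (w₁ z.1) (mix (B ∪ S) (w₂ z.1) z.2))
    (t := fun z => t z.1) (fun x => ?_) fun x => (ht x).comp measurable_fst
  exact (measurable_pi_apply x).comp (meas_mix_of B (h₁.comp measurable_fst)
    (meas_mix_of (B ∪ S) (h₂.comp measurable_fst) measurable_snd))

theorem meas_cz (hc : 0 < c) : Measurable fun ω₁ => cz K V c η a B ω₁ := by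
  have hP := PI_prob (ι := ι) hc
  unfold cz
  refine meas_int (PI c ι) (f := fun ω₁ ω' => Rc K V c η a (mix B ω₁ ω') 0) ?_
  refine meas_Rc K V c η a (Ω := (ι → ℝ) × (ι → ℝ)) (w := fun z => mix B z.1 z.2)
    (t := fun z => 0) (fun x => ?_) fun x => measurable_const
  exact (measurable_pi_apply x).comp (meas_mix_of B measurable_fst measurable_snd)

variable (hK : ∀ x y, K x y = K y x) (hη : ∀ x, 0 < η x) (hc : 0 < c)

include hK hη hc

theorem Ph_le {τ : ι → ℂ} (hτ : ∀ x, (τ x).im ≤ 0) (ω₁ ω₂ : ι → ℝ) :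
    ‖Ph K V c η a B S τ ω₁ ω₂‖ ≤ 1 := by
  have hP := PI_prob (ι := ι) hc
  have h := norm_integral_le_of_norm_le_const (μ := PI c ι)
    (f := fun ω₃ => Rc K V c η a (mix B ω₁ (mix (B ∪ S) ω₂ ω₃)) τ) (C := 1)
    (Filter.Eventually.of_forall fun ω₃ => Rc_le hK hη a hτ _)
  unfold Ph
  simpa using h

theorem cz_le (ω₁ : ι → ℝ) : ‖cz K V c η a B ω₁‖ ≤ 1 := by
  have hP := PI_prob (ι := ι) hc
  have h := norm_integral_le_of_norm_le_const (μ := PI c ι)
    (f := fun ω' => Rc K V c η a (mix B ω₁ ω') 0) (C := 1)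
    (Filter.Eventually.of_forall fun ω₃ => Rc_le hK hη a (fun x => by simp) _)
  unfold cz
  simpa using h

theorem diff_le {τ : ι → ℂ} (hτ : ∀ x, (τ x).im ≤ 0) (ω₁ ω₂ : ι → ℝ) :
    ‖Ph K V c η a B S τ ω₁ ω₂ - cz K V c η a B ω₁‖ ≤ 2 := by
  have h1 := Ph_le (V := V) (a := a) (B := B) (S := S) hK hη hc hτ ω₁ ω₂
  have h2 := cz_le (V := V) (a := a) (B := B) hK hη hc ω₁
  exact (norm_sub_le _ _).trans (by linarith)

omit hK hη hc in
/-- a real displacement is a change of the potential -/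
theorem Ph_real {u : ι → ℝ} (hu : ∀ x, x ∉ S → u x = 0) (hBS : Disjoint B S) (ω₁ ω₂ : ι → ℝ) :
    Ph K V c η a B S (fun x => (u x : ℂ)) ω₁ ω₂ =
      Ph K V c η a B S 0 ω₁ (fun x => ω₂ x + u x * vf c (ω₂ x)) := by
  unfold Ph
  congr 1
  funext ω₃
  unfold Rc Gc
  have e : dd V c η a (mix B ω₁ (mix (B ∪ S) ω₂ ω₃)) (fun x => (u x : ℂ)) =
      dd V c η a (mix B ω₁ (mix (B ∪ S) (fun x => ω₂ x + u x * vf c (ω₂ x)) ω₃)) 0 := by
    funext x
    unfold dd mix
    by_cases hB : x ∈ B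
    · have hS : x ∉ S := Finset.disjoint_left.1 hBS hB
      simp only [hB, if_true, hu x hS, Pi.zero_apply]
      simp
    · simp only [hB, if_false]
      by_cases hS : x ∈ S
      · have hU : x ∈ B ∪ S := Finset.mem_union_right _ hS
        simp only [hU, if_true, Pi.zero_apply]
        push_cast
        ring
      · have hU : x ∉ B ∪ S := by simp [hB, hS]
        simp only [hU, if_false, hu x hS, Pi.zero_apply]
        simp
  rw [e]

/-- the mean value property for one configuration -/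
theorem mv (hHP : StHP) (ω : ι → ℝ) (u w : ι → ℝ) (hw : ∀ x, 0 ≤ w x) {k Λ : ℝ} (hk : 0 < k)
    (hΛ : 0 ≤ Λ) {c₀ : ℂ} (hc₀ : ‖c₀‖ ≤ 1) :
    ∫ t : ℝ, Wk k Λ t * (Rc K V c η a ω (fun x => (u x : ℂ) - (t : ℂ) * (w x : ℂ)) - c₀) ∂cauchy =
      Wk k Λ I * (Rc K V c η a ω (fun x => (u x : ℂ) - I * (w x : ℂ)) - c₀) := by
  set f : ℂ → ℂ := fun z => Wk k Λ z * (Rc K V c η a ω (fun x => (u x : ℂ) - z * (w x : ℂ)) - c₀) with hf
  have hτ : ∀ z : ℂ, 0 ≤ z.im → ∀ x, ((u x : ℂ) - z * (w x : ℂ)).im ≤ 0 := by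
    intro z hz x
    simp
    exact mul_nonneg hz (hw x)
  have hd : ∀ z : ℂ, 0 ≤ z.im → DifferentiableAt ℂ f z := by
    intro z hz
    refine (wk_diff hk hz).mul (DifferentiableAt.sub_const ?_ c₀)
    exact Rc_diff hK hη a ω (τ := fun z x => (u x : ℂ) - z * (w x : ℂ)) (z := z) (hτ z hz)
      fun x => (differentiableAt_const _).sub (differentiableAt_id.mul (differentiableAt_const _))
  have hM : ∀ z : ℂ, 0 ≤ z.im → ‖f z‖ ≤ Real.exp Λ * 2 := by
    intro z hz
    rw [hf]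
    dsimp only
    rw [norm_mul]
    refine mul_le_mul (wk_bd hk hΛ hz) ?_ (norm_nonneg _) (Real.exp_pos _).le
    have h1 := Rc_le hK (V := V) (c := c) hη a (hτ z hz) ω
    exact (norm_sub_le _ _).trans (by linarith)
  have h := hHP f (fun z hz => (hd z (le_of_lt hz)).differentiableWithinAt)
    (fun z hz => (hd z hz).continuousAt.continuousWithinAt) (Real.exp Λ * 2) hM
  exact h

/-- the mean value property for the conditional expectation -/
theorem mvP (hHP : StHP) (ω₁ ω₂ : ι → ℝ) (u w : ι → ℝ) (hw : ∀ x, 0 ≤ w x) {k Λ : ℝ} (hk : 0 < k)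
    (hΛ : 0 ≤ Λ) :
    ∫ t : ℝ, Wk k Λ t * (Ph K V c η a B S (fun x => (u x : ℂ) - (t : ℂ) * (w x : ℂ)) ω₁ ω₂ -
        cz K V c η a B ω₁) ∂cauchy =
      Wk k Λ I * (Ph K V c η a B S (fun x => (u x : ℂ) - I * (w x : ℂ)) ω₁ ω₂ -
        cz K V c η a B ω₁) := by
  have hP := PI_prob (ι := ι) hc
  set c₀ := cz K V c η a B ω₁ with hc0
  have hc₀ : ‖c₀‖ ≤ 1 := cz_le hK hη hc ω₁
  set Ω : (ι → ℝ) → ι → ℝ := fun ω₃ => mix B ω₁ (mix (B ∪ S) ω₂ ω₃) with hΩ
  have hΩm : Measurable Ω := meas_mix_of B measurable_const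
    (meas_mix_of (B ∪ S) measurable_const measurable_id)
  have hτ : ∀ z : ℂ, 0 ≤ z.im → ∀ x, ((u x : ℂ) - z * (w x : ℂ)).im ≤ 0 := by
    intro z hz x
    simp
    exact mul_nonneg hz (hw x)
  -- pull the constants into the integral
  have key : ∀ z : ℂ, 0 ≤ z.im → Wk k Λ z * (Ph K V c η a B S (fun x => (u x : ℂ) - z * (w x : ℂ)) ω₁ ω₂ - c₀) =
      ∫ ω₃, Wk k Λ z * (Rc K V c η a (Ω ω₃) (fun x => (u x : ℂ) - z * (w x : ℂ)) - c₀) ∂(PI c ι) := by
    intro z hz
    have hi : Integrable (fun ω₃ => Rc K V c η a (Ω ω₃) (fun x => (u x : ℂ) - z * (w x : ℂ))) (PI c ι) := by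
      refine Integrable.of_bound ?_ 1 (Filter.Eventually.of_forall fun ω₃ => Rc_le hK hη a (hτ z hz) _)
      exact (meas_Rc K V c η a (w := Ω) (fun x => (measurable_pi_apply x).comp hΩm)
        (t := fun _ x => (u x : ℂ) - z * (w x : ℂ)) fun x => measurable_const).aestronglyMeasurable
    rw [integral_const_mul, integral_sub hi (integrable_const _), integral_const]
    simp only [probReal_univ, one_smul]
    rfl
  have hre : ∀ t : ℝ, (0 : ℝ) ≤ ((t : ℂ)).im := fun t => by simp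
  rw [key I (by simp)]
  simp only [key _ (hre _)]
  rw [integral_integral_swap]
  · refine integral_congr_ae (Filter.Eventually.of_forall fun ω₃ => ?_)
    exact mv hK hη hc hHP (Ω ω₃) u w hw hk hΛ hc₀
  · refine Integrable.of_bound ?_ (Real.exp Λ * 2) (Filter.Eventually.of_forall fun z => ?_)
    · refine Measurable.aestronglyMeasurable ?_
      refine ((wk_meas k Λ).comp measurable_fst).mul (Measurable.sub_const ?_ c₀)
      refine meas_Rc K V c η a (Ω := ℝ × (ι → ℝ)) (w := fun z => Ω z.2)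
        (fun x => (measurable_pi_apply x).comp (hΩm.comp measurable_snd))
        (t := fun z x => (u x : ℂ) - (z.1 : ℂ) * (w x : ℂ)) fun x => ?_
      exact measurable_const.sub ((Complex.measurable_ofReal.comp measurable_fst).mul measurable_const)
    · simp only [Function.uncurry]
      rw [norm_mul]
      refine mul_le_mul (wk_bd hk hΛ (hre _)) ?_ (norm_nonneg _) (Real.exp_pos _).le
      have h1 := Rc_le hK (V := V) (c := c) hη a (hτ _ (hre z.1)) (Ω z.2)
      exact (norm_sub_le _ _).trans (by linarith)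

end

end Pool.Agent.L0h56.ST.M
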