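import Pool.Agent.L0h56.ST.Pt

/-!
The slab inequality.
-/

set_option autoImplicit false
set_option linter.unusedSectionVars false
set_option linter.unusedVariables false

open scoped BigOperators Topology
open Complex MeasureTheory Pool.Agent.L0h56.CS Pool.Agent.L0h56.SL Pool.Agent.L0h56.SL.M

namespace Pool.Agent.L0h56.ST.M

theorem bdi {Ω : Type*} [MeasurableSpace Ω] {μ : Measure Ω} [IsFiniteMeasure μ] {f : Ω → ℝ}
    (hf : Measurable f) {M : ℝ} (h0 : ∀ s, 0 ≤ f s) (hM : ∀ s, f s ≤ M) : Integrable f μ :=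
  Integrable.of_bound hf.aestronglyMeasurable M
    (Filter.Eventually.of_forall fun s => by rw [Real.norm_of_nonneg (h0 s)]; exact hM s)

theorem int_le_sqrt {Ω : Type*} [MeasurableSpace Ω] {μ : Measure Ω} [IsProbabilityMeasure μ]
    {g : Ω → ℝ} (hg : Measurable g) {M : ℝ} (h0 : ∀ s, 0 ≤ g s) (hM : ∀ s, g s ≤ M) :
    ∫ s, g s ∂μ ≤ Real.sqrt (∫ s, g s ^ 2 ∂μ) := by
  have h := sq_int_le (μ := μ) (f := fun s => (g s : ℂ)) (Complex.measurable_ofReal.comp hg)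
    (M := M) (fun s => by rw [Complex.norm_real, Real.norm_of_nonneg (h0 s)]; exact hM s)
  rw [integral_complex_ofReal, Complex.norm_real] at h
  simp only [Complex.norm_real, Real.norm_eq_abs, sq_abs] at h
  exact Real.le_sqrt_of_sq_le h

theorem jen_R {ι : Type} [Fintype ι] [DecidableEq ι] {K : ι → ι → ℝ} (hK : ∀ x y, K x y = K y x)
    {V : ι → ℝ} {c : ℝ} {η : ι → ℝ} (hη : ∀ x, 0 < η x) (hc : 0 < c) {a : ι} {B : Finset ι} :
    ∫ ω, (1 - ‖Rc K V c η a ω 0‖ ^ 2) ∂(PI c ι) ≤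
      ∫ ω₁, (1 - ‖cz K V c η a B ω₁‖ ^ 2) ∂(PI c ι) := by
  have hP := PI_prob (ι := ι) hc
  have hRm : Measurable fun ω : ι → ℝ => ‖Rc K V c η a ω 0‖ ^ 2 :=
    (meas_Rc1 K V c η a 0).norm.pow_const 2
  have hR1 : ∀ ω : ι → ℝ, ‖Rc K V c η a ω 0‖ ^ 2 ≤ 1 := fun ω =>
    pow_le_one₀ (norm_nonneg _) (Rc_le hK hη a (fun x => by simp) ω)
  have hRi : Integrable (fun ω : ι → ℝ => ‖Rc K V c η a ω 0‖ ^ 2) (PI c ι) :=
    bdi hRm (fun _ => sq_nonneg _) hR1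
  have hczm : Measurable fun ω₁ : ι → ℝ => cz K V c η a B ω₁ := meas_cz hc
  have hci : Integrable (fun ω₁ : ι → ℝ => ‖cz K V c η a B ω₁‖ ^ 2) (PI c ι) :=
    bdi (M := 1) (hczm.norm.pow_const 2) (fun _ => sq_nonneg _)
      fun ω₁ => pow_le_one₀ (norm_nonneg _) (cz_le hK hη hc ω₁)
  rw [integral_sub (integrable_const _) hRi, integral_sub (integrable_const _) hci]
  refine sub_le_sub_left ?_ _
  rw [← int_mix (ι := ι) hc B hRm (M := 1) (fun ω => by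
    rw [Real.norm_of_nonneg (sq_nonneg _)]; exact hR1 ω)]
  have hmx : Measurable fun z : (ι → ℝ) × (ι → ℝ) => ‖Rc K V c η a (mix B z.1 z.2) 0‖ ^ 2 := by
    have h := hRm.comp (meas_mix_of (ι := ι) B (Ω := (ι → ℝ) × (ι → ℝ)) measurable_fst measurable_snd)
    exact h
  have hii : Integrable (fun z : (ι → ℝ) × (ι → ℝ) => ‖Rc K V c η a (mix B z.1 z.2) 0‖ ^ 2)
      ((PI c ι).prod (PI c ι)) := bdi hmx (fun _ => sq_nonneg _) fun z => hR1 _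
  have hil := hii.integral_prod_left
  refine integral_mono hci hil fun ω₁ => ?_
  have hm1 : Measurable fun ω' : ι → ℝ => Rc K V c η a (mix B ω₁ ω') 0 := by
    have h := (meas_Rc1 K V c η a 0).comp (meas_mix_of (ι := ι) B (Ω := ι → ℝ)
      (f := fun _ => ω₁) (g := fun s => s) measurable_const measurable_id)
    exact h
  exact sq_int_le (μ := PI c ι) (f := fun ω' => Rc K V c η a (mix B ω₁ ω') 0) hm1 (M := 1)
    fun ω' => Rc_le hK hη a (fun x => by simp) _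

theorem stSlab (hHP : StHP) (hTwo : StTwo) (hCV : StCV) : StSlab := by
  intro κ hκ hκ1 c hc
  obtain ⟨M0, C2, hM0, hC2, H⟩ := two_c hHP hTwo hCV κ hκ hκ1 c hc
  refine ⟨M0, 4 * Real.sqrt C2, hM0, by positivity, ?_⟩
  intro ι _ _ K hK D hD0 hD V η hη a B S hBS ha η0 hη0 n hn hSn L hL hLn v0 hv0 m Bad hBadm hBad
  have hη00 : 0 < η0 := (hη a).trans_le (hη0 a (Finset.mem_union_left _ ha))
  have hP := PI_prob (ι := ι) hc
  have hA0 : 0 ≤ att D L v0 m := by unfold att; positivity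
  set A := att D L v0 m with hA
  have hn1 : (1 : ℝ) ≤ n := by exact_mod_cast hn
  have hSn' : (S.card : ℝ) ≤ n := by exact_mod_cast hSn
  set Q : (ι → ℝ) → ℝ := fun ω₁ => C2 * V1 K V c η a B S ω₁ ^ κ with hQ
  have hQ0 : ∀ ω₁, 0 ≤ Q ω₁ := fun ω₁ => mul_nonneg hC2.le (Real.rpow_nonneg (V1_nonneg _) _)
  have hQb := fun ω₁ u w h1 h2 h3 h4 h5 =>
    H ι K hK V η hη a B S hBS n hn hSn L hL hLn u w h1 h2 h3 h4 h5 ω₁
  -- the two terms
  set g1 : (ι → ℝ) → (ι → ℝ) → ℝ := fun ω₁ ω₂ => ∑ x ∈ S, ‖bb K V c η a B S L x ω₁ ω₂‖ with hg1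
  set g2 : (ι → ℝ) → (ι → ℝ) → ℝ := fun ω₁ ω₂ =>
    ‖Ph K V c η a B S (T0 S L) ω₁ ω₂ - cz K V c η a B ω₁‖ with hg2
  set s3 : (ι → ℝ) → (ι → ℝ) → (ι → ℝ) → ℝ := fun ω₁ ω₂ w =>
    ∑ x ∈ B ∪ S, ‖Gc K V c η a (Cf B S ω₁ ω₂ w) (T0 S L) x‖ ^ 2 with hs3
  have hbbm : ∀ x, Measurable fun z : (ι → ℝ) × (ι → ℝ) => bb K V c η a B S L x z.1 z.2 := fun x =>
    meas_bb (K := K) (V := V) (η := η) (a := a) (B := B) (S := S) hc L x
      (Ω := (ι → ℝ) × (ι → ℝ)) (w₁ := fun z => z.1) (w₂ := fun z => z.2) measurable_fst measurable_snd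
  have hPhm : Measurable fun z : (ι → ℝ) × (ι → ℝ) => Ph K V c η a B S (T0 S L) z.1 z.2 :=
    meas_Ph (K := K) (V := V) (η := η) (a := a) (B := B) (S := S) hc
      (Ω := (ι → ℝ) × (ι → ℝ)) (t := fun _ => T0 S L) (fun x => measurable_const)
      (w₁ := fun z => z.1) (w₂ := fun z => z.2) measurable_fst measurable_snd
  have hPh0m : Measurable fun z : (ι → ℝ) × (ι → ℝ) => Ph K V c η a B S 0 z.1 z.2 :=
    meas_Ph (K := K) (V := V) (η := η) (a := a) (B := B) (S := S) hc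
      (Ω := (ι → ℝ) × (ι → ℝ)) (t := fun _ => 0) (fun x => measurable_const)
      (w₁ := fun z => z.1) (w₂ := fun z => z.2) measurable_fst measurable_snd
  have hczm : Measurable fun ω₁ : ι → ℝ => cz K V c η a B ω₁ := meas_cz hc
  have hg1m : Measurable fun z : (ι → ℝ) × (ι → ℝ) => g1 z.1 z.2 := by
    rw [hg1]
    exact Finset.measurable_fun_sum S fun x _ => (hbbm x).norm
  have hg2m : Measurable fun z : (ι → ℝ) × (ι → ℝ) => g2 z.1 z.2 := by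
    rw [hg2]
    exact (hPhm.sub (hczm.comp measurable_fst)).norm
  have hg10 : ∀ ω₁ ω₂, 0 ≤ g1 ω₁ ω₂ := fun _ _ => Finset.sum_nonneg fun _ _ => norm_nonneg _
  have hg20 : ∀ ω₁ ω₂, 0 ≤ g2 ω₁ ω₂ := fun _ _ => norm_nonneg _
  have hg1b : ∀ ω₁ ω₂, g1 ω₁ ω₂ ≤ ∑ x ∈ S, L / (2 * η x) := fun ω₁ ω₂ =>
    Finset.sum_le_sum fun x _ => bb_le hK hη hc hL.le x ω₁ ω₂
  have hg2b : ∀ ω₁ ω₂, g2 ω₁ ω₂ ≤ 2 := fun ω₁ ω₂ => diff_le hK hη hc (T0_im hL.le) ω₁ ω₂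
  have hs30 : ∀ ω₁ ω₂ w, 0 ≤ s3 ω₁ ω₂ w := fun _ _ _ => Finset.sum_nonneg fun _ _ => sq_nonneg _
  have hs3b : ∀ ω₁ ω₂ w, s3 ω₁ ω₂ w ≤ ∑ x ∈ B ∪ S, 1 / (4 * η x) := fun ω₁ ω₂ w =>
    Finset.sum_le_sum fun x _ => eta_sq_le hK hη a (T0_im hL.le) _ x
  have hCfm : Measurable fun z : ((ι → ℝ) × (ι → ℝ)) × (ι → ℝ) => Cf B S z.1.1 z.1.2 z.2 :=
    meas_mix_of B (measurable_fst.comp measurable_fst)
      (meas_mix_of (B ∪ S) (measurable_snd.comp measurable_fst) measurable_snd)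
  have hs3m : Measurable fun z : ((ι → ℝ) × (ι → ℝ)) × (ι → ℝ) => s3 z.1.1 z.1.2 z.2 := by
    rw [hs3]
    refine Finset.measurable_fun_sum (B ∪ S) fun x _ => Measurable.pow_const (Measurable.norm ?_) 2
    exact meas_Gc K V c η a (Ω := ((ι → ℝ) × (ι → ℝ)) × (ι → ℝ))
      (w := fun z => Cf B S z.1.1 z.1.2 z.2) (fun y => (measurable_pi_apply y).comp hCfm)
      (t := fun _ => T0 S L) (fun y => measurable_const) x
  set g3 : (ι → ℝ) → (ι → ℝ) → ℝ := fun ω₁ ω₂ => ∫ w, s3 ω₁ ω₂ w ∂(PI c ι) with hg3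
  have hg3m : Measurable fun z : (ι → ℝ) × (ι → ℝ) => g3 z.1 z.2 :=
    meas_int (PI c ι) (f := fun (z : (ι → ℝ) × (ι → ℝ)) w => s3 z.1 z.2 w) hs3m
  have hs3sec : ∀ ω₁ ω₂, Measurable fun w => s3 ω₁ ω₂ w := by
    intro ω₁ ω₂
    have h := hs3m.comp (measurable_prodMk_left (x := (ω₁, ω₂)) (β := ι → ℝ))
    exact h
  have hs3i : ∀ ω₁ ω₂, Integrable (s3 ω₁ ω₂) (PI c ι) := fun ω₁ ω₂ =>
    bdi (hs3sec ω₁ ω₂) (hs30 ω₁ ω₂) (hs3b ω₁ ω₂)
  have hg30 : ∀ ω₁ ω₂, 0 ≤ g3 ω₁ ω₂ := fun _ _ => integral_nonneg fun _ => hs30 _ _ _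
  have hg3b : ∀ ω₁ ω₂, g3 ω₁ ω₂ ≤ ∑ x ∈ B ∪ S, 1 / (4 * η x) := fun ω₁ ω₂ => by
    calc g3 ω₁ ω₂ ≤ ∫ w : ι → ℝ, ∑ x ∈ B ∪ S, 1 / (4 * η x) ∂(PI c ι) :=
          integral_mono (hs3i ω₁ ω₂) (integrable_const _) (hs3b ω₁ ω₂)
      _ = _ := by rw [integral_const]; simp
  set χ : (ι → ℝ) → ℝ := Bad.indicator fun _ => 1 with hχ
  have hχ0 : ∀ ω, 0 ≤ χ ω := fun ω => Set.indicator_nonneg (fun _ _ => zero_le_one) ω
  have hχi : Integrable χ (PI c ι) := (integrable_const (1 : ℝ)).indicator hBadm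
  have hχint : ∫ ω, χ ω ∂(PI c ι) = (PI c ι).real Bad := by
    rw [hχ, integral_indicator_const _ hBadm]
    simp
  -- the pointwise inequality
  have hpt : ∀ ω₁ ω₂, 1 - ‖cz K V c η a B ω₁‖ ^ 2 ≤ 2 * g1 ω₁ ω₂ + 2 * g2 ω₁ ω₂ +
      (8 * Real.sqrt A + 4 * A) + 4 * η0 * g3 ω₁ ω₂ + 5 * χ ω₂ := by
    intro ω₁ ω₂
    have h1 := hg10 ω₁ ω₂
    have h2 := hg20 ω₁ ω₂
    have h3 := hg30 ω₁ ω₂
    have h4 : 0 ≤ Real.sqrt A := Real.sqrt_nonneg _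
    have h5 : 0 ≤ 4 * η0 * g3 ω₁ ω₂ := by positivity
    by_cases hω : ω₂ ∈ Bad
    · have e : χ ω₂ = 1 := by rw [hχ, Set.indicator_of_mem hω]
      rw [e]
      nlinarith [sq_nonneg ‖cz K V c η a B ω₁‖]
    · have e : χ ω₂ = 0 := by rw [hχ, Set.indicator_of_notMem hω]
      obtain ⟨d, hd⟩ := hBad ω₂ hω
      have h6 : ∀ w, 1 - ‖cz K V c η a B ω₁‖ ^ 2 - (2 * g1 ω₁ ω₂ + 2 * g2 ω₁ ω₂ +
          (8 * Real.sqrt A + 4 * A)) ≤ 4 * η0 * s3 ω₁ ω₂ w := by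
        intro w
        have := pt_bound (V := V) (ω₁ := ω₁) hK hη hc hBS ha hD0 hD hL hv0 hd hη0 w
        linarith
      have h7 := integral_mono (μ := PI c ι) (integrable_const _) ((hs3i ω₁ ω₂).const_mul (4 * η0)) h6
      rw [integral_const, integral_const_mul] at h7
      simp only [probReal_univ, one_smul] at h7
      rw [e]
      have h8 : ∫ w, s3 ω₁ ω₂ w ∂(PI c ι) = g3 ω₁ ω₂ := rfl
      rw [h8] at h7
      linarith
  -- integration over `ω₂`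
  have hsec1 : ∀ ω₁, Measurable fun ω₂ => g1 ω₁ ω₂ := by
    intro ω₁
    have h := hg1m.comp (measurable_prodMk_left (x := ω₁) (β := ι → ℝ))
    exact h
  have hsec2 : ∀ ω₁, Measurable fun ω₂ => g2 ω₁ ω₂ := by
    intro ω₁
    have h := hg2m.comp (measurable_prodMk_left (x := ω₁) (β := ι → ℝ))
    exact h
  have hsec3 : ∀ ω₁, Measurable fun ω₂ => g3 ω₁ ω₂ := by
    intro ω₁
    have h := hg3m.comp (measurable_prodMk_left (x := ω₁) (β := ι → ℝ))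
    exact h
  have hi1 : ∀ ω₁, Integrable (g1 ω₁) (PI c ι) := fun ω₁ => bdi (hsec1 ω₁) (hg10 ω₁) (hg1b ω₁)
  have hi2 : ∀ ω₁, Integrable (g2 ω₁) (PI c ι) := fun ω₁ => bdi (hsec2 ω₁) (hg20 ω₁) (hg2b ω₁)
  have hi3 : ∀ ω₁, Integrable (g3 ω₁) (PI c ι) := fun ω₁ => bdi (hsec3 ω₁) (hg30 ω₁) (hg3b ω₁)
  have hJ1 : ∀ ω₁, ∫ ω₂, g1 ω₁ ω₂ ∂(PI c ι) ≤ Real.sqrt n * Real.sqrt (Q ω₁) := by
    intro ω₁
    refine (int_le_sqrt (hsec1 ω₁) (hg10 ω₁) (hg1b ω₁)).trans ?_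
    rw [← Real.sqrt_mul (by positivity)]
    refine Real.sqrt_le_sqrt ?_
    have hb := b_sum (V := V) (a := a) hK hη hc hL hBS ω₁ (Q := Q ω₁) (hQb ω₁)
    have hbi : Integrable (fun ω₂ => ∑ x ∈ S, ‖bb K V c η a B S L x ω₁ ω₂‖ ^ 2) (PI c ι) := by
      refine bdi (M := ∑ x ∈ S, (L / (2 * η x)) ^ 2) ?_ (fun ω₂ => Finset.sum_nonneg fun _ _ => sq_nonneg _)
        fun ω₂ => Finset.sum_le_sum fun x _ =>
          pow_le_pow_left₀ (norm_nonneg _) (bb_le hK hη hc hL.le x ω₁ ω₂) 2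
      refine Finset.measurable_fun_sum S fun x _ => Measurable.pow_const (Measurable.norm ?_) 2
      have h := (hbbm x).comp (measurable_prodMk_left (x := ω₁) (β := ι → ℝ))
      exact h
    calc ∫ ω₂, g1 ω₁ ω₂ ^ 2 ∂(PI c ι)
        ≤ ∫ ω₂, n * ∑ x ∈ S, ‖bb K V c η a B S L x ω₁ ω₂‖ ^ 2 ∂(PI c ι) := by
          refine integral_mono_of_nonneg (Filter.Eventually.of_forall fun _ => sq_nonneg _)
            (hbi.const_mul _) (Filter.Eventually.of_forall fun ω₂ => ?_)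
          dsimp only
          refine (sq_sum_le_card_mul_sum_sq (s := S)
            (f := fun x => ‖bb K V c η a B S L x ω₁ ω₂‖)).trans ?_
          exact mul_le_mul_of_nonneg_right hSn' (Finset.sum_nonneg fun _ _ => sq_nonneg _)
      _ = n * ∫ ω₂, ∑ x ∈ S, ‖bb K V c η a B S L x ω₁ ω₂‖ ^ 2 ∂(PI c ι) := integral_const_mul _ _
      _ ≤ n * Q ω₁ := mul_le_mul_of_nonneg_left hb (by positivity)
  have hJ2 : ∀ ω₁, ∫ ω₂, g2 ω₁ ω₂ ∂(PI c ι) ≤ Real.sqrt (Q ω₁) := by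
    intro ω₁
    refine (int_le_sqrt (hsec2 ω₁) (hg20 ω₁) (hg2b ω₁)).trans (Real.sqrt_le_sqrt ?_)
    have h := hQb ω₁ (fun _ => 0) (fun x => if x ∈ S then L else 0) (fun _ _ => rfl)
      (fun x hx => if_neg hx) (fun x => by rw [abs_zero]; exact hL.le)
      (fun x => by split_ifs <;> linarith) (fun x => by split_ifs <;> linarith)
    have e : (fun x => (((0 : ℝ)) : ℂ) - I * (((if x ∈ S then L else 0 : ℝ)) : ℂ)) = T0 S L := by
      funext x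
      unfold T0
      split_ifs <;> simp
    rw [e] at h
    exact h
  have hint : ∀ ω₁, 1 - ‖cz K V c η a B ω₁‖ ^ 2 ≤ 2 * (Real.sqrt n + 1) * Real.sqrt (Q ω₁) +
      (8 * Real.sqrt A + 4 * A) + 4 * η0 * ∫ ω₂, g3 ω₁ ω₂ ∂(PI c ι) + 5 * (PI c ι).real Bad := by
    intro ω₁
    have j1 : Integrable (fun ω₂ => 2 * g1 ω₁ ω₂) (PI c ι) := (hi1 ω₁).const_mul 2
    have j2 : Integrable (fun ω₂ => 2 * g2 ω₁ ω₂) (PI c ι) := (hi2 ω₁).const_mul 2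
    have j3 : Integrable (fun ω₂ => 4 * η0 * g3 ω₁ ω₂) (PI c ι) := (hi3 ω₁).const_mul (4 * η0)
    have j4 : Integrable (fun ω₂ => 5 * χ ω₂) (PI c ι) := hχi.const_mul 5
    have j12 : Integrable (fun ω₂ => 2 * g1 ω₁ ω₂ + 2 * g2 ω₁ ω₂) (PI c ι) := j1.add j2
    have j12c : Integrable (fun ω₂ => 2 * g1 ω₁ ω₂ + 2 * g2 ω₁ ω₂ + (8 * Real.sqrt A + 4 * A))
      (PI c ι) := j12.add (integrable_const _)
    have j123 : Integrable (fun ω₂ => 2 * g1 ω₁ ω₂ + 2 * g2 ω₁ ω₂ + (8 * Real.sqrt A + 4 * A) +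
      4 * η0 * g3 ω₁ ω₂) (PI c ι) := j12c.add j3
    have h := integral_mono (μ := PI c ι) (integrable_const _) (j123.add j4) (hpt ω₁)
    rw [integral_const] at h
    simp only [probReal_univ, one_smul] at h
    have e : ∫ ω₂, (2 * g1 ω₁ ω₂ + 2 * g2 ω₁ ω₂ + (8 * Real.sqrt A + 4 * A) +
        4 * η0 * g3 ω₁ ω₂ + 5 * χ ω₂) ∂(PI c ι) = 2 * ∫ ω₂, g1 ω₁ ω₂ ∂(PI c ι) +
        2 * ∫ ω₂, g2 ω₁ ω₂ ∂(PI c ι) + (8 * Real.sqrt A + 4 * A) +
        4 * η0 * ∫ ω₂, g3 ω₁ ω₂ ∂(PI c ι) + 5 * (PI c ι).real Bad := by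
      rw [integral_add j123 j4, integral_add j12c j3, integral_add j12 (integrable_const _),
        integral_add j1 j2, integral_const_mul, integral_const_mul, integral_const_mul,
        integral_const_mul, hχint, integral_const]
      simp only [probReal_univ, one_smul]
    have h' : 1 - ‖cz K V c η a B ω₁‖ ^ 2 ≤ 2 * ∫ ω₂, g1 ω₁ ω₂ ∂(PI c ι) +
        2 * ∫ ω₂, g2 ω₁ ω₂ ∂(PI c ι) + (8 * Real.sqrt A + 4 * A) +
        4 * η0 * ∫ ω₂, g3 ω₁ ω₂ ∂(PI c ι) + 5 * (PI c ι).real Bad := h.trans (le_of_eq e)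
    have := hJ1 ω₁
    have := hJ2 ω₁
    linarith
  -- integration over `ω₁`
  have hV1m : Measurable fun ω₁ => V1 K V c η a B S ω₁ := by
    unfold V1
    exact meas_int (PI c ι) (f := fun ω₁ ω₂ => ‖Ph K V c η a B S 0 ω₁ ω₂ - cz K V c η a B ω₁‖ ^ 2)
      ((hPh0m.sub (hczm.comp measurable_fst)).norm.pow_const 2)
  have hV14 : ∀ ω₁, V1 K V c η a B S ω₁ ≤ 4 := by
    intro ω₁
    have hb : ∀ ω₂, ‖Ph K V c η a B S 0 ω₁ ω₂ - cz K V c η a B ω₁‖ ^ 2 ≤ 4 := fun ω₂ => by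
      have h1 := diff_le (V := V) (a := a) (B := B) (S := S) hK hη hc (τ := 0) (fun x => by simp) ω₁ ω₂
      have := pow_le_pow_left₀ (norm_nonneg _) h1 2
      linarith
    calc V1 K V c η a B S ω₁ ≤ ∫ ω₂ : ι → ℝ, (4 : ℝ) ∂(PI c ι) := by
          unfold V1
          refine integral_mono (bdi ?_ (fun _ => sq_nonneg _) hb) (integrable_const _) hb
          refine Measurable.pow_const (Measurable.norm (Measurable.sub_const ?_ _)) 2
          have h := hPh0m.comp (measurable_prodMk_left (x := ω₁) (β := ι → ℝ))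
          exact h
      _ = 4 := by rw [integral_const]; simp
  have hsqQ : ∀ ω₁, Real.sqrt (Q ω₁) = Real.sqrt C2 * V1 K V c η a B S ω₁ ^ (κ / 2) := by
    intro ω₁
    rw [hQ]
    dsimp only
    rw [Real.sqrt_mul hC2.le, Real.sqrt_eq_rpow (V1 K V c η a B S ω₁ ^ κ),
      ← Real.rpow_mul (V1_nonneg _)]
    congr 2
    ring
  have hκ2 : 0 ≤ κ / 2 := by positivity
  have hVpm : Measurable fun ω₁ => V1 K V c η a B S ω₁ ^ (κ / 2) := hV1m.pow_const _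
  have hVpi : Integrable (fun ω₁ => V1 K V c η a B S ω₁ ^ (κ / 2)) (PI c ι) :=
    bdi (M := 4 ^ (κ / 2)) hVpm (fun ω₁ => Real.rpow_nonneg (V1_nonneg _) _)
      fun ω₁ => Real.rpow_le_rpow (V1_nonneg _) (hV14 ω₁) hκ2
  have hJen : ∫ ω₁, V1 K V c η a B S ω₁ ^ (κ / 2) ∂(PI c ι) ≤ Vs K V c η a B S ^ (κ / 2) := by
    have h := (Real.concaveOn_rpow hκ2 (by linarith)).le_map_integral (μ := PI c ι)
      (f := fun ω₁ => V1 K V c η a B S ω₁)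
      ((Real.continuous_rpow_const hκ2).continuousOn) isClosed_Ici
      (Filter.Eventually.of_forall fun ω₁ => V1_nonneg ω₁) (bdi hV1m V1_nonneg hV14) hVpi
    exact h
  have hg3I : Measurable fun ω₁ => ∫ ω₂, g3 ω₁ ω₂ ∂(PI c ι) := meas_int (PI c ι) hg3m
  have hg3I0 : ∀ ω₁, 0 ≤ ∫ ω₂, g3 ω₁ ω₂ ∂(PI c ι) := fun ω₁ => integral_nonneg fun _ => hg30 _ _
  have hg3Ib : ∀ ω₁, ∫ ω₂, g3 ω₁ ω₂ ∂(PI c ι) ≤ ∑ x ∈ B ∪ S, 1 / (4 * η x) := fun ω₁ => by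
    calc ∫ ω₂, g3 ω₁ ω₂ ∂(PI c ι) ≤ ∫ w : ι → ℝ, ∑ x ∈ B ∪ S, 1 / (4 * η x) ∂(PI c ι) :=
          integral_mono (hi3 ω₁) (integrable_const _) (hg3b ω₁)
      _ = _ := by rw [integral_const]; simp
  have hG3 : ∫ ω₁, ∫ ω₂, g3 ω₁ ω₂ ∂(PI c ι) ∂(PI c ι) ≤ (Real.pi / c + 1) * (B.card + S.card) := by
    have hm : Measurable fun ω : ι → ℝ => ∑ x ∈ B ∪ S, ‖Gc K V c η a ω (T0 S L) x‖ ^ 2 :=
      Finset.measurable_fun_sum (B ∪ S) fun x _ => (meas_Gc1 K V c η a (T0 S L) x).norm.pow_const 2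
    have h := int_mix3 (ι := ι) hc B (B ∪ S)
      (f := fun ω : ι → ℝ => ∑ x ∈ B ∪ S, ‖Gc K V c η a ω (T0 S L) x‖ ^ 2) hm
      (M := ∑ x ∈ B ∪ S, 1 / (4 * η x)) (fun ω => by
        rw [Real.norm_of_nonneg (Finset.sum_nonneg fun _ _ => sq_nonneg _)]
        exact Finset.sum_le_sum fun x _ => eta_sq_le hK hη a (T0_im hL.le) _ x)
    have e : ∫ ω₁, ∫ ω₂, g3 ω₁ ω₂ ∂(PI c ι) ∂(PI c ι) =
        ∫ ω, ∑ x ∈ B ∪ S, ‖Gc K V c η a ω (T0 S L) x‖ ^ 2 ∂(PI c ι) := h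
    rw [e, integral_finsetSum _ fun x _ => bdi (M := 1 / (4 * η x))
      ((meas_Gc1 K V c η a (T0 S L) x).norm.pow_const 2) (fun _ => sq_nonneg _)
      fun ω => eta_sq_le hK hη a (T0_im hL.le) ω x]
    have hpi : 0 < Real.pi / c := div_pos Real.pi_pos hc
    calc _ ≤ ∑ x ∈ B ∪ S, Real.pi / c :=
          Finset.sum_le_sum fun x _ => mean_G hK V hc hη a (T0_im hL.le) (T0_re S L) x
      _ = (B ∪ S).card * (Real.pi / c) := by rw [Finset.sum_const, nsmul_eq_mul]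
      _ ≤ (B.card + S.card) * (Real.pi / c + 1) := by
          have h1 : ((B ∪ S).card : ℝ) ≤ B.card + S.card := by exact_mod_cast Finset.card_union_le B S
          exact mul_le_mul h1 (by linarith) hpi.le (by positivity)
      _ = _ := by ring
  have hcz : ∫ ω₁, (1 - ‖cz K V c η a B ω₁‖ ^ 2) ∂(PI c ι) ≤
      2 * (Real.sqrt n + 1) * (Real.sqrt C2 * Vs K V c η a B S ^ (κ / 2)) +
      (8 * Real.sqrt A + 4 * A) + 4 * η0 * ((Real.pi / c + 1) * (B.card + S.card)) +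
      5 * (PI c ι).real Bad := by
    have j1 : Integrable (fun ω₁ => 2 * (Real.sqrt n + 1) * Real.sqrt (Q ω₁)) (PI c ι) := by
      simp only [hsqQ]
      exact (hVpi.const_mul _).const_mul _
    have j3 : Integrable (fun ω₁ => 4 * η0 * ∫ ω₂, g3 ω₁ ω₂ ∂(PI c ι)) (PI c ι) :=
      (bdi hg3I hg3I0 hg3Ib).const_mul _
    have j1c : Integrable (fun ω₁ => 2 * (Real.sqrt n + 1) * Real.sqrt (Q ω₁) +
      (8 * Real.sqrt A + 4 * A)) (PI c ι) := j1.add (integrable_const _)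
    have j13 : Integrable (fun ω₁ => 2 * (Real.sqrt n + 1) * Real.sqrt (Q ω₁) +
      (8 * Real.sqrt A + 4 * A) + 4 * η0 * ∫ ω₂, g3 ω₁ ω₂ ∂(PI c ι)) (PI c ι) := j1c.add j3
    have jl : Integrable (fun ω₁ => 1 - ‖cz K V c η a B ω₁‖ ^ 2) (PI c ι) := by
      refine (integrable_const _).sub (bdi (M := 1) (hczm.norm.pow_const 2) (fun _ => sq_nonneg _)
        fun ω₁ => ?_)
      have := cz_le (V := V) (a := a) (B := B) hK hη hc ω₁
      exact pow_le_one₀ (norm_nonneg _) this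
    have h := integral_mono jl (j13.add (integrable_const (5 * (PI c ι).real Bad))) hint
    have e : ∫ ω₁, (2 * (Real.sqrt n + 1) * Real.sqrt (Q ω₁) +
      (8 * Real.sqrt A + 4 * A) + 4 * η0 * ∫ ω₂, g3 ω₁ ω₂ ∂(PI c ι) + 5 * (PI c ι).real Bad)
        ∂(PI c ι) = 2 * (Real.sqrt n + 1) * (Real.sqrt C2 *
          ∫ ω₁, V1 K V c η a B S ω₁ ^ (κ / 2) ∂(PI c ι)) + (8 * Real.sqrt A + 4 * A) +
          4 * η0 * ∫ ω₁, ∫ ω₂, g3 ω₁ ω₂ ∂(PI c ι) ∂(PI c ι) + 5 * (PI c ι).real Bad := by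
      rw [integral_add j13 (integrable_const _), integral_add j1c j3,
        integral_add j1 (integrable_const _), integral_const_mul, integral_const_mul,
        integral_const, integral_const]
      simp only [probReal_univ, one_smul, hsqQ]
      rw [integral_const_mul]
    refine h.trans ((le_of_eq e).trans ?_)
    have h1 : Real.sqrt C2 * ∫ ω₁, V1 K V c η a B S ω₁ ^ (κ / 2) ∂(PI c ι) ≤
        Real.sqrt C2 * Vs K V c η a B S ^ (κ / 2) := mul_le_mul_of_nonneg_left hJen (Real.sqrt_nonneg _)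
    have h2 : 2 * (Real.sqrt n + 1) * (Real.sqrt C2 * ∫ ω₁, V1 K V c η a B S ω₁ ^ (κ / 2) ∂(PI c ι)) ≤
        2 * (Real.sqrt n + 1) * (Real.sqrt C2 * Vs K V c η a B S ^ (κ / 2)) :=
      mul_le_mul_of_nonneg_left h1 (by positivity)
    have h3 : 4 * η0 * ∫ ω₁, ∫ ω₂, g3 ω₁ ω₂ ∂(PI c ι) ∂(PI c ι) ≤
        4 * η0 * ((Real.pi / c + 1) * (B.card + S.card)) :=
      mul_le_mul_of_nonneg_left hG3 (by positivity)
    linarith
  -- Jensen for the reflection amplitude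
  have hfin := jen_R (V := V) (a := a) (B := B) hK hη hc
  refine hfin.trans (hcz.trans ?_)
  have hsn : 1 ≤ Real.sqrt n := Real.one_le_sqrt.2 hn1
  have hVp : 0 ≤ Real.sqrt C2 * Vs K V c η a B S ^ (κ / 2) := by
    refine mul_nonneg (Real.sqrt_nonneg _) (Real.rpow_nonneg ?_ _)
    rw [Vs_eq]
    exact integral_nonneg fun _ => V1_nonneg _
  nlinarith [mul_nonneg (sub_nonneg.2 hsn) hVp]

end Pool.Agent.L0h56.ST.M
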