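import Pool.Agent.L0h56.ST.Def

/-!
Module M2: the transmission through a long strip is small.
-/

set_option autoImplicit false
set_option linter.unusedSectionVars false
set_option linter.unusedVariables false

open scoped BigOperators ENNReal
open Complex MeasureTheory Filter Topology Pool.Agent.L0h56.CS Pool.Agent.L0h56.SL

namespace Pool.Agent.L0h56.ST

namespace Trans

theorem params : ∃ L0 : ℝ, 1 ≤ L0 ∧ ∀ L : ℝ, L0 ≤ L → ∀ l J k q : ℕ,
    l = ⌈L ^ (1 / 10 : ℝ)⌉₊ → J = ⌊L / (2 * l)⌋₊ → k = ⌈2 * Real.log L⌉₊ →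
    q = ⌊L ^ (9 / 100 : ℝ)⌋₊ →
    (400 * q + 2) * (k + 1) ≤ l ∧ L ^ (9 / 10 : ℝ) / 8 ≤ J ∧ L ^ (9 / 100 : ℝ) / 2 ≤ q ∧
      L ^ (1 / 10 : ℝ) ≤ l ∧ (l : ℝ) ≤ 2 * L ^ (1 / 10 : ℝ) ∧ (1 / 2 : ℝ) ^ k ≤ L⁻¹ ∧
      (J : ℝ) * l ≤ L / 2 := by
  have e1 : ∀ᶠ L : ℝ in atTop, 402 * (2 * Real.log L + 2) ≤ L ^ (1 / 100 : ℝ) := by
    have h1 := (isLittleO_log_rpow_atTop (r := 1 / 100) (by norm_num)).bound
      (by norm_num : (0 : ℝ) < 1 / 2000)
    have h2 := (tendsto_rpow_atTop (y := 1 / 100) (by norm_num)).eventually_ge_atTop (8000 : ℝ)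
    filter_upwards [h1, h2, eventually_ge_atTop 1] with L h1 h2 h3
    have h4 : 0 ≤ Real.log L := Real.log_nonneg h3
    have h5 : 0 ≤ L ^ (1 / 100 : ℝ) := by positivity
    rw [Real.norm_of_nonneg h4, Real.norm_of_nonneg h5] at h1
    linarith
  have e2 : ∀ᶠ L : ℝ in atTop, 8 ≤ L ^ (9 / 10 : ℝ) :=
    (tendsto_rpow_atTop (y := 9 / 10) (by norm_num)).eventually_ge_atTop 8
  have e3 : ∀ᶠ L : ℝ in atTop, 2 ≤ L ^ (9 / 100 : ℝ) :=
    (tendsto_rpow_atTop (y := 9 / 100) (by norm_num)).eventually_ge_atTop 2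
  obtain ⟨L0, hL0⟩ := eventually_atTop.1 (e1.and (e2.and e3))
  refine ⟨max 1 L0, le_max_left _ _, fun L hL l J k q hl hJ hk hq => ?_⟩
  have hL1 : 1 ≤ L := (le_max_left _ _).trans hL
  have hLpos : 0 < L := by linarith
  obtain ⟨h1, h2, h3⟩ := hL0 L ((le_max_right _ _).trans hL)
  have hlog : 0 ≤ Real.log L := Real.log_nonneg hL1
  have h10 : 1 ≤ L ^ (1 / 10 : ℝ) := Real.one_le_rpow hL1 (by norm_num)
  have hl1 : L ^ (1 / 10 : ℝ) ≤ l := by rw [hl]; exact Nat.le_ceil _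
  have hl2 : (l : ℝ) ≤ 2 * L ^ (1 / 10 : ℝ) := by
    have := Nat.ceil_lt_add_one (show 0 ≤ L ^ (1 / 10 : ℝ) by positivity)
    rw [hl]
    linarith
  have hlpos : (0 : ℝ) < l := by linarith
  have hq1 : (q : ℝ) ≤ L ^ (9 / 100 : ℝ) := by rw [hq]; exact Nat.floor_le (by positivity)
  have hq2 : L ^ (9 / 100 : ℝ) / 2 ≤ q := by
    have := Nat.lt_floor_add_one (L ^ (9 / 100 : ℝ))
    rw [hq]
    linarith
  have hk1 : (k : ℝ) + 1 ≤ 2 * Real.log L + 2 := by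
    have := Nat.ceil_lt_add_one (show 0 ≤ 2 * Real.log L by positivity)
    rw [hk]
    linarith
  have hk2 : 2 * Real.log L ≤ k := by rw [hk]; exact Nat.le_ceil _
  refine ⟨?_, ?_, hq2, hl1, hl2, ?_, ?_⟩
  · have h4 : ((400 * q + 2) * (k + 1) : ℝ) ≤ l := by
      calc ((400 * q + 2) * (k + 1) : ℝ) ≤ (400 * L ^ (9 / 100 : ℝ) + 2 * L ^ (9 / 100 : ℝ)) *
            (2 * Real.log L + 2) := by
            have h5 : 1 ≤ L ^ (9 / 100 : ℝ) := by linarith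
            apply mul_le_mul _ hk1 (by positivity) (by positivity)
            linarith
        _ = L ^ (9 / 100 : ℝ) * (402 * (2 * Real.log L + 2)) := by ring
        _ ≤ L ^ (9 / 100 : ℝ) * L ^ (1 / 100 : ℝ) := by gcongr
        _ = L ^ (1 / 10 : ℝ) := by rw [← Real.rpow_add hLpos]; norm_num
        _ ≤ l := hl1
    exact_mod_cast h4
  · have h4 : L / (2 * l) < J + 1 := by rw [hJ]; exact Nat.lt_floor_add_one _
    have h5 : L ^ (9 / 10 : ℝ) / 4 ≤ L / (2 * l) := by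
      rw [div_le_div_iff₀ (by norm_num) (by positivity)]
      calc L ^ (9 / 10 : ℝ) * (2 * l) ≤ L ^ (9 / 10 : ℝ) * (2 * (2 * L ^ (1 / 10 : ℝ))) := by
            gcongr
        _ = (L ^ (9 / 10 : ℝ) * L ^ (1 / 10 : ℝ)) * 4 := by ring
        _ = L * 4 := by rw [← Real.rpow_add hLpos]; norm_num
    linarith
  · calc (1 / 2 : ℝ) ^ k = Real.exp (-(k * Real.log 2)) := by
          rw [← Real.rpow_natCast, Real.rpow_def_of_pos (by norm_num)]
          congr 1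
          rw [one_div, Real.log_inv]
          ring
      _ ≤ Real.exp (-Real.log L) := by
          apply Real.exp_le_exp.2
          have := Real.log_two_gt_d9
          nlinarith
      _ = L⁻¹ := by rw [Real.exp_neg, Real.exp_log hLpos]
  · have h4 : (J : ℝ) ≤ L / (2 * l) := by rw [hJ]; exact Nat.floor_le (by positivity)
    calc (J : ℝ) * l ≤ L / (2 * l) * l := by gcongr
      _ = L / 2 := by field_simp

theorem t1 (C1 : ℝ) (hC1 : 0 ≤ C1) (Q L : ℝ) (hL : 1 ≤ L) (n J l : ℕ) (hQ : 1 ≤ Q) (hQL : Q ≤ L ^ (1 / 50 : ℝ))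
    (hn : (n : ℝ) ≤ 2 * l * Q) (hl : (l : ℝ) ≤ 2 * L ^ (1 / 10 : ℝ))
    (hJ : L ^ (9 / 10 : ℝ) / 8 ≤ J) (V : ℝ) (hV0 : 0 ≤ V) (hV : V ≤ 1 / J) :
    (n : ℝ) ≤ 4 * L ^ (12 / 100 : ℝ) ∧ Real.sqrt n ≤ 2 * L ^ (6 / 100 : ℝ) ∧
    C1 * Real.sqrt n * V ^ ((9 / 10 : ℝ) / 2) ≤ 16 * C1 * L ^ (-(1 / 4 : ℝ)) := by
  have hLp : 0 < L := by linarith
  have h1 : (n : ℝ) ≤ 4 * L ^ (12 / 100 : ℝ) := by
    calc (n : ℝ) ≤ 2 * l * Q := hn
      _ ≤ 2 * (2 * L ^ (1 / 10 : ℝ)) * L ^ (1 / 50 : ℝ) := by gcongr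
      _ = 4 * (L ^ (1 / 10 : ℝ) * L ^ (1 / 50 : ℝ)) := by ring
      _ = 4 * L ^ (12 / 100 : ℝ) := by rw [← Real.rpow_add hLp]; norm_num
  have h2 : Real.sqrt n ≤ 2 * L ^ (6 / 100 : ℝ) := by
    rw [Real.sqrt_le_left (by positivity)]
    refine h1.trans (le_of_eq ?_)
    rw [mul_pow, ← Real.rpow_natCast (L ^ (6 / 100 : ℝ)), ← Real.rpow_mul hLp.le]
    norm_num
  refine ⟨h1, h2, ?_⟩
  have h9 : 0 < L ^ (9 / 10 : ℝ) := by positivity
  have hJp : (0 : ℝ) < J := by linarith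
  have h3 : V ≤ 8 * L ^ (-(9 / 10) : ℝ) := by
    refine hV.trans ?_
    rw [Real.rpow_neg hLp.le, div_le_iff₀ hJp]
    rw [mul_assoc, inv_mul_eq_div, mul_div_assoc', le_div_iff₀ h9]
    linarith
  have h4 : V ^ ((9 / 10 : ℝ) / 2) ≤ 8 * L ^ (-(81 / 200) : ℝ) := by
    calc V ^ ((9 / 10 : ℝ) / 2) ≤ (8 * L ^ (-(9 / 10) : ℝ)) ^ ((9 / 10 : ℝ) / 2) := by gcongr
      _ = 8 ^ ((9 / 10 : ℝ) / 2) * (L ^ (-(9 / 10) : ℝ)) ^ ((9 / 10 : ℝ) / 2) := by
          rw [Real.mul_rpow (by norm_num) (by positivity)]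
      _ ≤ 8 ^ (1 : ℝ) * (L ^ (-(9 / 10) : ℝ)) ^ ((9 / 10 : ℝ) / 2) := by
          gcongr
          · norm_num
          · norm_num
      _ = 8 * L ^ (-(81 / 200) : ℝ) := by
          rw [← Real.rpow_mul hLp.le]
          norm_num
  calc C1 * Real.sqrt n * V ^ ((9 / 10 : ℝ) / 2)
      ≤ C1 * (2 * L ^ (6 / 100 : ℝ)) * (8 * L ^ (-(81 / 200) : ℝ)) := by gcongr
    _ = 16 * C1 * (L ^ (6 / 100 : ℝ) * L ^ (-(81 / 200) : ℝ)) := by ring
    _ = 16 * C1 * L ^ (-(69 / 200) : ℝ) := by rw [← Real.rpow_add hLp]; norm_num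
    _ ≤ 16 * C1 * L ^ (-(1 / 4 : ℝ)) :=
        mul_le_mul_of_nonneg_left (Real.rpow_le_rpow_of_exponent_le hL (by norm_num))
          (by positivity)

theorem t2 (M0 v0 : ℝ) (hM : 0 < M0) (hv : 0 < v0) (Q L : ℝ) (hL : 1 ≤ L) (n q : ℕ) (hQ : 1 ≤ Q)
    (hQL : Q ≤ L ^ (1 / 50 : ℝ)) (hn : Real.sqrt n ≤ 2 * L ^ (6 / 100 : ℝ)) (hn0 : 1 ≤ n)
    (hq : L ^ (9 / 100 : ℝ) / 2 ≤ q) :
    8 * Real.sqrt (att Q (M0 / Real.sqrt n) v0 (400 * q)) +
      4 * att Q (M0 / Real.sqrt n) v0 (400 * q) ≤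
      (8 * Real.sqrt ((M0 * v0 / 2)⁻¹ ^ 101) + 4 * (M0 * v0 / 2)⁻¹ ^ 101) * L ^ (-(1 / 4 : ℝ)) := by
  have hLp : 0 < L := by linarith
  have hnp : (0 : ℝ) < n := by exact_mod_cast hn0
  have hsn : 0 < Real.sqrt n := Real.sqrt_pos.2 hnp
  set c0 : ℝ := M0 * v0 / 2 with hc0
  have hc0p : 0 < c0 := by positivity
  set θ : ℝ := M0 / Real.sqrt n * v0 / Q with hθ
  have hθp : 0 < θ := by positivity
  have hθ1 : c0 * L ^ (-(8 / 100) : ℝ) ≤ θ := by
    have h1 : θ = M0 * v0 / (Real.sqrt n * Q) := by rw [hθ]; field_simp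
    rw [h1, le_div_iff₀ (by positivity)]
    calc c0 * L ^ (-(8 / 100) : ℝ) * (Real.sqrt n * Q)
        ≤ c0 * L ^ (-(8 / 100) : ℝ) * (2 * L ^ (6 / 100 : ℝ) * L ^ (1 / 50 : ℝ)) := by gcongr
      _ = 2 * c0 * (L ^ (-(8 / 100) : ℝ) * L ^ (6 / 100 : ℝ) * L ^ (1 / 50 : ℝ)) := by ring
      _ = 2 * c0 * L ^ (0 : ℝ) := by
          rw [← Real.rpow_add hLp, ← Real.rpow_add hLp]
          norm_num
      _ = M0 * v0 := by rw [Real.rpow_zero, hc0]; ring
  have hatt : att Q (M0 / Real.sqrt n) v0 (400 * q) = θ⁻¹ * ((1 + 2 * θ) ^ (100 * q))⁻¹ := by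
    unfold att
    have h1 : 400 * q / 4 = 100 * q := by omega
    rw [h1]
    have h2 : Q / (M0 / Real.sqrt n * v0) = θ⁻¹ := by rw [hθ, inv_div]
    have h3 : 2 * (M0 / Real.sqrt n * v0) / Q = 2 * θ := by rw [hθ]; ring
    rw [h2, h3]
  have h4 : c0 * L ^ (1 / 100 : ℝ) ≤ q * (2 * θ) := by
    calc c0 * L ^ (1 / 100 : ℝ) = (L ^ (9 / 100 : ℝ) / 2) * (2 * (c0 * L ^ (-(8 / 100) : ℝ))) := by
          have : L ^ (1 / 100 : ℝ) = L ^ (9 / 100 : ℝ) * L ^ (-(8 / 100) : ℝ) := by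
            rw [← Real.rpow_add hLp]; norm_num
          rw [this]
          ring
      _ ≤ q * (2 * θ) := by gcongr
  have h5 : c0 ^ 100 * L ≤ (1 + 2 * θ) ^ (100 * q) := by
    calc c0 ^ 100 * L = (c0 * L ^ (1 / 100 : ℝ)) ^ 100 := by
          rw [mul_pow, ← Real.rpow_natCast (L ^ (1 / 100 : ℝ)), ← Real.rpow_mul hLp.le]
          norm_num
      _ ≤ (q * (2 * θ)) ^ 100 := by gcongr
      _ ≤ ((1 + 2 * θ) ^ q) ^ 100 := by
          apply pow_le_pow_left₀ (by positivity)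
          have := one_add_mul_le_pow (a := 2 * θ) (by linarith) q
          linarith
      _ = (1 + 2 * θ) ^ (100 * q) := by rw [← pow_mul, mul_comm q 100]
  have h6 : att Q (M0 / Real.sqrt n) v0 (400 * q) ≤ c0⁻¹ ^ 101 * L ^ (-(1 / 2) : ℝ) := by
    rw [hatt]
    calc θ⁻¹ * ((1 + 2 * θ) ^ (100 * q))⁻¹
        ≤ (c0 * L ^ (-(8 / 100) : ℝ))⁻¹ * (c0 ^ 100 * L)⁻¹ := by
          gcongr
      _ = c0⁻¹ ^ 101 * (L ^ (8 / 100 : ℝ) * L⁻¹) := by
          rw [mul_inv, mul_inv, Real.rpow_neg hLp.le, inv_inv, inv_pow, pow_succ]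
          field_simp
      _ ≤ c0⁻¹ ^ 101 * L ^ (-(1 / 2) : ℝ) := by
          rw [← Real.rpow_neg_one L, ← Real.rpow_add hLp]
          exact mul_le_mul_of_nonneg_left (Real.rpow_le_rpow_of_exponent_le hL (by norm_num))
            (by positivity)
  have h7 : L ^ (-(1 / 2) : ℝ) ≤ L ^ (-(1 / 4) : ℝ) :=
    Real.rpow_le_rpow_of_exponent_le hL (by norm_num)
  have h8 : Real.sqrt (att Q (M0 / Real.sqrt n) v0 (400 * q)) ≤
      Real.sqrt (c0⁻¹ ^ 101) * L ^ (-(1 / 4) : ℝ) := by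
    calc Real.sqrt (att Q (M0 / Real.sqrt n) v0 (400 * q))
        ≤ Real.sqrt (c0⁻¹ ^ 101 * L ^ (-(1 / 2) : ℝ)) := Real.sqrt_le_sqrt h6
      _ = Real.sqrt (c0⁻¹ ^ 101) * L ^ (-(1 / 4) : ℝ) := by
          rw [Real.sqrt_mul (by positivity)]
          congr 1
          rw [Real.sqrt_eq_rpow, ← Real.rpow_mul hLp.le]
          norm_num
  calc _ ≤ 8 * (Real.sqrt (c0⁻¹ ^ 101) * L ^ (-(1 / 4) : ℝ)) +
        4 * (c0⁻¹ ^ 101 * L ^ (-(1 / 4) : ℝ)) := by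
        have : att Q (M0 / Real.sqrt n) v0 (400 * q) ≤ c0⁻¹ ^ 101 * L ^ (-(1 / 4) : ℝ) :=
          h6.trans (by gcongr)
        linarith
    _ = _ := by ring

theorem t3 (Q L : ℝ) (hL : 1 ≤ L) (n k : ℕ) (hn : (n : ℝ) ≤ 4 * L ^ (12 / 100 : ℝ))
    (hk : (1 / 2 : ℝ) ^ k ≤ L⁻¹) : 5 * ((n : ℝ) * (1 / 2) ^ k) ≤ 20 * L ^ (-(1 / 4 : ℝ)) := by
  have hLp : 0 < L := by linarith
  calc 5 * ((n : ℝ) * (1 / 2) ^ k) ≤ 5 * (4 * L ^ (12 / 100 : ℝ) * L⁻¹) := by gcongr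
    _ = 20 * L ^ (-(88 / 100) : ℝ) := by
        have : L ^ (-(88 / 100) : ℝ) = L ^ (12 / 100 : ℝ) * L ^ (-1 : ℝ) := by
          rw [← Real.rpow_add hLp]; norm_num
        rw [this, Real.rpow_neg_one]
        ring
    _ ≤ 20 * L ^ (-(1 / 4 : ℝ)) :=
        mul_le_mul_of_nonneg_left (Real.rpow_le_rpow_of_exponent_le hL (by norm_num))
          (by norm_num)

section

variable {ι : Type} [Fintype ι] [DecidableEq ι]

theorem card_le (pos : ι → ℤ) (a : ι) (Q : ℝ) (hQ : 0 ≤ Q)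
    (h : ∀ t : ℤ, ((Finset.univ.filter fun x => pos x = t).card : ℝ) ≤ Q) (r l : ℕ) :
    ((Finset.univ.filter fun x => r < (pos x - pos a).natAbs ∧ (pos x - pos a).natAbs ≤ r + l).card :
      ℝ) ≤ 2 * l * Q := by
  set T : Finset ℤ := ((Finset.Ioc r (r + l)).image fun i : ℕ => pos a + i) ∪
    ((Finset.Ioc r (r + l)).image fun i : ℕ => pos a - i) with hT
  have hTc : T.card ≤ 2 * l := by
    calc T.card ≤ _ := Finset.card_union_le _ _
      _ ≤ (Finset.Ioc r (r + l)).card + (Finset.Ioc r (r + l)).card :=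
          add_le_add Finset.card_image_le Finset.card_image_le
      _ = 2 * l := by rw [Nat.card_Ioc]; omega
  have hsub : (Finset.univ.filter fun x => r < (pos x - pos a).natAbs ∧
      (pos x - pos a).natAbs ≤ r + l) ⊆ T.biUnion fun t => Finset.univ.filter fun x => pos x = t := by
    intro x hx
    simp only [Finset.mem_filter, Finset.mem_univ, true_and] at hx
    simp only [Finset.mem_biUnion, Finset.mem_filter, Finset.mem_univ, true_and, exists_eq_right']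
    simp only [hT, Finset.mem_union, Finset.mem_image, Finset.mem_Ioc]
    rcases le_total (pos a) (pos x) with h1 | h1
    · left
      exact ⟨(pos x - pos a).natAbs, hx, by omega⟩
    · right
      exact ⟨(pos x - pos a).natAbs, hx, by omega⟩
  calc ((Finset.univ.filter fun x => r < (pos x - pos a).natAbs ∧
      (pos x - pos a).natAbs ≤ r + l).card : ℝ)
      ≤ ((T.biUnion fun t => Finset.univ.filter fun x => pos x = t).card : ℝ) := by
        exact_mod_cast Finset.card_le_card hsub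
    _ ≤ ((∑ t ∈ T, (Finset.univ.filter fun x => pos x = t).card : ℕ) : ℝ) := by
        exact_mod_cast Finset.card_biUnion_le
    _ = ∑ t ∈ T, ((Finset.univ.filter fun x => pos x = t).card : ℝ) := by push_cast; rfl
    _ ≤ ∑ _t ∈ T, Q := Finset.sum_le_sum fun t _ => h t
    _ = T.card * Q := by rw [Finset.sum_const, nsmul_eq_mul]
    _ ≤ 2 * l * Q := by
        gcongr
        exact_mod_cast hTc

end

end Trans

theorem stTrans (hE : StEnv) (hS : StSlab) (hP : SL.StPerc) (hSum : SL.StSum) : StTrans := by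
  intro D hD
  obtain ⟨M0, C1, hM0, hC1, hslab⟩ := hS (9 / 10) (by norm_num) (by norm_num) 1 one_pos
  obtain ⟨v0, hv0, hperc⟩ := hP 1 one_pos D hD
  obtain ⟨L0, hL0, hpar⟩ := Trans.params
  set A : ℝ := 8 * Real.sqrt ((M0 * v0 / 2)⁻¹ ^ 101) + 4 * (M0 * v0 / 2)⁻¹ ^ 101 with hA
  have hA0 : 0 ≤ A := by positivity
  refine ⟨max L0 (16 * C1 + A + 21), hL0.trans (le_max_left _ _), ?_⟩
  intro Q hQ ι _ _ K hK hdeg hrow pos hpos hsec V a b L hCL hab
  set C : ℝ := max L0 (16 * C1 + A + 21) with hC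
  have hC1' : 1 ≤ C := hL0.trans (le_max_left _ _)
  have hQ50 : 1 ≤ Q ^ 50 := one_le_pow₀ hQ
  have hLC : C ≤ L := by
    calc C = C * 1 := (mul_one C).symm
      _ ≤ C * Q ^ 50 := by gcongr
      _ ≤ L := hCL
  have hLL0 : L0 ≤ L := (le_max_left _ _).trans hLC
  have hL1 : 1 ≤ L := hC1'.trans hLC
  have hLp : 0 < L := by linarith
  have hQL : Q ≤ L ^ (1 / 50 : ℝ) := by
    have h1 : Q ^ 50 ≤ L := by
      calc Q ^ 50 = 1 * Q ^ 50 := (one_mul _).symm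
        _ ≤ C * Q ^ 50 := by gcongr
        _ ≤ L := hCL
    calc Q = (Q ^ 50) ^ (1 / 50 : ℝ) := by
          rw [← Real.rpow_natCast Q 50, ← Real.rpow_mul (by linarith)]
          norm_num
      _ ≤ L ^ (1 / 50 : ℝ) := by gcongr
  set l : ℕ := ⌈L ^ (1 / 10 : ℝ)⌉₊ with hl
  set J : ℕ := ⌊L / (2 * l)⌋₊ with hJ
  set k : ℕ := ⌈2 * Real.log L⌉₊ with hk
  set q : ℕ := ⌊L ^ (9 / 100 : ℝ)⌋₊ with hq
  obtain ⟨p1, p2, p3, p4, p5, p6, p7⟩ := hpar L hLL0 l J k q hl hJ hk hq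
  have hl1 : 1 ≤ (l : ℝ) := (Real.one_le_rpow hL1 (by norm_num)).trans p4
  have hlp : 0 < l := by
    have : (0 : ℝ) < l := by linarith
    exact_mod_cast this
  have hJp : (0 : ℝ) < J := lt_of_lt_of_le (by positivity) p2
  have hJp' : 0 < J := by exact_mod_cast hJp
  set lay : ι → ℕ := fun x => (pos x - pos a).natAbs with hlay
  have hstep : ∀ x y, K x y ≠ 0 → lay y ≤ lay x + 1 := by
    intro x y hxy
    have := hpos x y hxy
    rw [abs_le] at this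
    simp only [hlay]
    omega
  set B : ℕ → Finset ι := fun j => Finset.univ.filter fun x => lay x ≤ j * l with hB
  set S : ℕ → Finset ι := fun j => Finset.univ.filter fun x => j * l < lay x ∧
    lay x ≤ j * l + l with hSd
  have hBS : ∀ j, B j ∪ S j = B (j + 1) := by
    intro j
    ext x
    simp only [hB, hSd, Finset.mem_union, Finset.mem_filter, Finset.mem_univ, true_and]
    rw [show (j + 1) * l = j * l + l by ring]
    omega
  have hBmono : Monotone B := by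
    refine monotone_nat_of_le_succ fun j => ?_
    rw [← hBS]
    exact Finset.subset_union_left
  have hdisj : ∀ j, Disjoint (B j) (S j) := by
    intro j
    rw [Finset.disjoint_left]
    intro x hx hx'
    simp only [hB, hSd, Finset.mem_filter, Finset.mem_univ, true_and] at hx hx'
    omega
  have haB : ∀ j, a ∈ B j := by
    intro j
    simp only [hB, hlay, Finset.mem_filter, Finset.mem_univ, true_and, sub_self, Int.natAbs_zero]
    exact Nat.zero_le _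
  have hlayb : L ≤ lay b := by
    refine hab.trans (le_of_eq ?_)
    simp only [hlay]
    rw [abs_sub_comm]
    push_cast [Nat.cast_natAbs]
    rfl
  have hbnot : ∀ j, j < J → b ∉ B j ∪ S j := by
    intro j hj hb
    rw [hBS] at hb
    simp only [hB, Finset.mem_filter, Finset.mem_univ, true_and] at hb
    have h1 : (lay b : ℝ) ≤ (J : ℝ) * l := by
      have : lay b ≤ J * l := hb.trans (Nat.mul_le_mul_right _ hj)
      exact_mod_cast this
    linarith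
  set n : ℕ := ⌊2 * l * Q⌋₊ with hn
  have hn2 : (n : ℝ) ≤ 2 * l * Q := Nat.floor_le (by positivity)
  have hn1 : 1 ≤ n := by
    rw [hn]
    apply Nat.le_floor
    push_cast
    nlinarith
  have hcard : ∀ j, (S j).card ≤ n := by
    intro j
    apply Nat.le_floor
    exact Trans.card_le pos a Q (by linarith) hsec (j * l) l
  -- the absorption
  refine ⟨L ^ (-(1 / 4 : ℝ)) / (4 * (Real.pi / 1 + 1) * (2 * Fintype.card ι + 1)), by positivity,
    fun η hη hη0 => ?_⟩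
  have hunif := unif_prob 1 one_pos
  set ηf : ι → ℝ := fun x => η + if x = b then 1 else 0 with hηf
  have hηpos : ∀ x, 0 < ηf x := by
    intro x
    simp only [hηf]
    split_ifs <;> linarith
  obtain ⟨hm1, hm2, hfl⟩ := hE ι K hK V 1 ηf hηpos a
  have hsum := hSum 1 one_pos ι (fun ω => Rc K V 1 ηf a ω 0) hm1 (fun ω => (hfl ω).1) B hBmono J
  obtain ⟨j, hjr, hj⟩ : ∃ j ∈ Finset.range J, Vs K V 1 ηf a (B j) (S j) ≤ 1 / J := by
    apply Finset.exists_le_of_sum_le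
    · exact ⟨0, Finset.mem_range.2 hJp'⟩
    · rw [Finset.sum_const, Finset.card_range, nsmul_eq_mul, mul_one_div_cancel hJp.ne']
      refine le_trans (le_of_eq ?_) hsum
      refine Finset.sum_congr rfl fun j _ => ?_
      unfold Vs
      rw [hBS]
  have hjJ := Finset.mem_range.1 hjr
  have hV0 : 0 ≤ Vs K V 1 ηf a (B j) (S j) := by
    unfold Vs
    exact integral_nonneg fun _ => integral_nonneg fun _ => sq_nonneg _
  obtain ⟨Bad, hBm, hBp, hBl⟩ := hperc ι K hK hdeg lay hstep (j * l) l k (400 * q) p1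
  have hη' : ∀ x ∈ B j ∪ S j, ηf x ≤ η := by
    intro x hx
    have : x ≠ b := fun h => hbnot j hjJ (h ▸ hx)
    simp only [hηf, if_neg this, add_zero]
    exact le_rfl
  have hnp : (0 : ℝ) < n := by exact_mod_cast hn1
  have hsn : 0 < Real.sqrt n := Real.sqrt_pos.2 hnp
  have hmain := hslab ι K hK Q (by linarith) hrow V ηf hηpos a (B j) (S j) (hdisj j) (haB j) η hη'
    n hn1 (hcard j) (M0 / Real.sqrt n) (by positivity)
    (by rw [div_pow, Real.sq_sqrt hnp.le, div_mul_cancel₀ _ hnp.ne']) v0 hv0 (400 * q) Bad hBm hBl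
  obtain ⟨q1, q2, q3⟩ := Trans.t1 C1 hC1.le Q L hL1 n J l hQ hQL hn2 p5 p2 _ hV0 hj
  have q4 := Trans.t2 M0 v0 hM0 hv0 Q L hL1 n q hQ hQL q2 hn1 p3
  have q5 : 5 * (PI 1 ι).real Bad ≤ 20 * L ^ (-(1 / 4 : ℝ)) := by
    refine le_trans ?_ (Trans.t3 Q L hL1 n k q1 p6)
    have h1 : (PI 1 ι).real Bad ≤ (n : ℝ) * (1 / 2) ^ k := by
      refine hBp.trans ?_
      have : ((S j).card : ℝ) ≤ n := by exact_mod_cast hcard j
      gcongr
    linarith
  have q6 : 4 * η * (Real.pi / 1 + 1) * ((B j).card + (S j).card) ≤ L ^ (-(1 / 4 : ℝ)) := by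
    have hpi := Real.pi_pos
    have h1 : ((B j).card : ℝ) ≤ Fintype.card ι := by exact_mod_cast Finset.card_le_univ _
    have h2 : ((S j).card : ℝ) ≤ Fintype.card ι := by exact_mod_cast Finset.card_le_univ _
    rw [le_div_iff₀ (by positivity)] at hη0
    calc 4 * η * (Real.pi / 1 + 1) * ((B j).card + (S j).card)
        ≤ 4 * η * (Real.pi / 1 + 1) * (2 * Fintype.card ι + 1) :=
          mul_le_mul_of_nonneg_left (by linarith) (by positivity)
      _ = η * (4 * (Real.pi / 1 + 1) * (2 * Fintype.card ι + 1)) := by ring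
      _ ≤ _ := hη0
  have hdd : ∀ ω : ι → ℝ, (fun x => ((V x + ω x : ℝ) : ℂ) - η * I - (if x = a then I else 0) -
      (if x = b then I else 0)) = dd V 1 ηf a ω 0 := by
    intro ω
    funext x
    unfold dd
    simp only [hηf, Pi.zero_apply, zero_mul, add_zero]
    split_ifs <;> push_cast <;> ring
  have hpt : ∀ ω : ι → ℝ, ‖CS.Gr K (fun x => ((V x + ω x : ℝ) : ℂ) - η * I -
      (if x = a then I else 0) - (if x = b then I else 0)) a b‖ ^ 2 ≤
      1 / 4 * (1 - ‖Rc K V 1 ηf a ω 0‖ ^ 2) := by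
    intro ω
    rw [hdd, CS.Gr_symm hK, (hfl ω).2]
    have h1 : ηf b * ‖Gc K V 1 ηf a ω 0 b‖ ^ 2 ≤ ∑ x, ηf x * ‖Gc K V 1 ηf a ω 0 x‖ ^ 2 :=
      Finset.single_le_sum (f := fun x => ηf x * ‖Gc K V 1 ηf a ω 0 x‖ ^ 2)
        (fun x _ => mul_nonneg (hηpos x).le (sq_nonneg _)) (Finset.mem_univ b)
    have h2 : 1 ≤ ηf b := by
      simp only [hηf, if_true]
      linarith
    have h3 : ‖CS.Gr K (dd V 1 ηf a ω 0) b a‖ ^ 2 ≤ ηf b * ‖Gc K V 1 ηf a ω 0 b‖ ^ 2 := by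
      calc ‖CS.Gr K (dd V 1 ηf a ω 0) b a‖ ^ 2 = 1 * ‖Gc K V 1 ηf a ω 0 b‖ ^ 2 := by
            rw [one_mul]; rfl
        _ ≤ _ := by gcongr
    linarith
  have hint : Integrable (fun ω : ι → ℝ => 1 / 4 * (1 - ‖Rc K V 1 ηf a ω 0‖ ^ 2)) (PI 1 ι) := by
    refine Integrable.of_bound ((measurable_const.mul (measurable_const.sub
      (hm1.norm.pow_const 2))).aestronglyMeasurable) 1 ?_
    refine Eventually.of_forall fun ω => ?_
    have h1 := (hfl ω).1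
    have h2 : ‖Rc K V 1 ηf a ω 0‖ ^ 2 ≤ 1 := pow_le_one₀ (norm_nonneg _) h1
    rw [Real.norm_of_nonneg (by linarith)]
    have h3 : 0 ≤ ‖Rc K V 1 ηf a ω 0‖ ^ 2 := sq_nonneg _
    linarith
  calc _ ≤ ∫ ω, 1 / 4 * (1 - ‖Rc K V 1 ηf a ω 0‖ ^ 2) ∂(PI 1 ι) :=
        integral_mono_of_nonneg (Eventually.of_forall fun ω => sq_nonneg _) hint
          (Eventually.of_forall hpt)
    _ = 1 / 4 * ∫ ω, (1 - ‖Rc K V 1 ηf a ω 0‖ ^ 2) ∂(PI 1 ι) := integral_const_mul _ _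
    _ ≤ 1 / 4 * ((16 * C1 + A + 21) * L ^ (-(1 / 4 : ℝ))) := by
        gcongr
        refine hmain.trans ?_
        have : (16 * C1 + A + 21) * L ^ (-(1 / 4 : ℝ)) = 16 * C1 * L ^ (-(1 / 4 : ℝ)) +
          A * L ^ (-(1 / 4 : ℝ)) + 20 * L ^ (-(1 / 4 : ℝ)) + L ^ (-(1 / 4 : ℝ)) := by ring
        rw [this]
        linarith
    _ ≤ C * L ^ (-(1 / 4 : ℝ)) := by
        have h1 : 16 * C1 + A + 21 ≤ C := le_max_right _ _
        have h2 : 0 ≤ L ^ (-(1 / 4 : ℝ)) := by positivity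
        have h3 : (16 * C1 + A + 21) * L ^ (-(1 / 4 : ℝ)) ≤ C * L ^ (-(1 / 4 : ℝ)) := by gcongr
        have h4 : 0 ≤ (16 * C1 + A + 21) * L ^ (-(1 / 4 : ℝ)) := by positivity
        linarith

end Pool.Agent.L0h56.ST
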